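import Pool.Agent.Lib.MP_23455a_nt.H4.D0

/-! Twisted representations of rank two. -/

set_option autoImplicit false
set_option linter.unusedSectionVars false

open scoped NNReal Classical NumberTheorySymbols
open Filter Topology Finset Matrix

namespace Pool.Agent.H3.T
open Pool.Agent.Lib.MP_696deb_nt.B2

variable [TwD]

/-- Conjugation by the product of the element of the twist and complex conjugation. -/
noncomputable def tg (g : Gam) : Gam := ga * (cc * g * cc) * ga⁻¹

theorem tg_eq (g : Gam) : tg g = ga * cc * g * (ga * cc)⁻¹ := by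
  rw [tg, _root_.mul_inv_rev, cc_inv]
  group

theorem tg_mem {N : Subgroup Gam} (hN : N.Normal) {g : Gam} (h : g ∈ N) : tg g ∈ N :=
  tg_eq g ▸ hN.conj_mem g h _

theorem tg_mul (g h : Gam) : tg (g * h) = tg g * tg h := by
  simp only [tg_eq]
  group

/-- The same on the group of the quadratic field. -/
noncomputable def thK (n : ℕ) : GK n →* GK n where
  toFun g := ⟨tg g, tg_mem (normal_GK n) g.2⟩
  map_one' := Subtype.ext (by simp [tg_eq])
  map_mul' g h := Subtype.ext (tg_mul _ _)

theorem thK_coe {n : ℕ} (g : GK n) : (thK n g : Gam) = tg g := rfl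

/-- Twists of representations of rank two that are unramified outside three, with prescribed
reduction. -/
structure Rp (ε : ZMod (3 ^ 1)) where
  ρ : Gam →* Matrix (Fin 2) (Fin 2) ℤ_[3]
  sm : ∀ m, Sm ⊤ fun g => mred m (ρ g)
  det : ∀ g, (ρ g).det = cyc g
  conj : ρ cc = -tauM ℤ_[3]
  unr : ∀ w : Plc, w.p ≠ 3 → ∀ σ ∈ Inm w, ρ σ = 1
  unr' : ∀ w : Plc, w.p ≠ 3 → ∀ σ ∈ Ine w, σ ∉ GM → ρ σ = -1
  md : ∀ g, mred 1 (ρ g) = (sg g : ZMod (3 ^ 1)) • !![cy 1 g, ε * km 1 g; 0, 1]
  neg : ρ ga = -1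

theorem Rp.gc {ε : ZMod (3 ^ 1)} (R : Rp ε) : R.ρ (ga * cc) = tauM ℤ_[3] := by
  rw [map_mul, R.neg, R.conj, neg_mul_neg, one_mul]

theorem Rp.md' {ε : ZMod (3 ^ 1)} (R : Rp ε) {g : Gam} (h : g ∈ GM) :
    mred 1 (R.ρ g) = !![cy 1 g, ε * km 1 g; 0, 1] := by
  rw [R.md, sg_of_mem h, Int.cast_one, one_smul]

theorem mred_sg (m : ℕ) (z : ℤ) (A : Matrix (Fin 2) (Fin 2) ℤ_[3]) :
    mred m ((z : ℤ_[3]) • A) = (z : ZMod (3 ^ m)) • mred m A := by
  ext i j
  simp [mred]

/-- The twist of a representation. -/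
noncomputable def twR {ε : ZMod (3 ^ 1)} (R : H3.Rp ε) : Rp ε where
  ρ :=
    { toFun g := (sg g : ℤ_[3]) • R.ρ g
      map_one' := by rw [sg_one, map_one, Int.cast_one, one_smul]
      map_mul' g h := by
        rw [sg_mul, map_mul, Int.cast_mul, Matrix.smul_mul, Matrix.mul_smul, smul_smul] }
  sm m := (sm_sg.comp₂ (R.sm m) fun z A => (z : ZMod (3 ^ m)) • A).congr fun g _ =>
    (mred_sg m _ _).symm
  det g := by
    change ((sg g : ℤ_[3]) • R.ρ g).det = _
    rw [det_smul, R.det, Fintype.card_fin, sq, ← Int.cast_mul, sg_sq, Int.cast_one, one_mul]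
  conj := by
    change (sg cc : ℤ_[3]) • R.ρ cc = _
    rw [sg_cc, R.conj, Int.cast_neg, Int.cast_one, neg_smul, one_smul]
  unr w hw σ hσ := by
    change (sg σ : ℤ_[3]) • R.ρ σ = _
    rw [sg_of_mem hσ.2, R.unr w hw σ hσ.1, Int.cast_one, one_smul]
  unr' w hw σ hσ h := by
    change (sg σ : ℤ_[3]) • R.ρ σ = _
    rw [sg_of_notMem h, R.unr w hw σ hσ, Int.cast_neg, Int.cast_one, neg_smul, one_smul]
  md g := by
    change mred 1 ((sg g : ℤ_[3]) • R.ρ g) = _
    rw [mred_sg, R.md]
  neg := by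
    change (sg ga : ℤ_[3]) • R.ρ TwD.γ = _
    rw [sg_ga, TwD.rho _ R, Int.cast_neg, Int.cast_one, neg_smul, one_smul]

theorem twR_apply {ε : ZMod (3 ^ 1)} (R : H3.Rp ε) (g : Gam) :
    (twR R).ρ g = (sg g : ℤ_[3]) • R.ρ g := rfl

/-- The twist of the extension of the trivial character by the cyclotomic character with class
`3 ^ a`. -/
noncomputable def rpK (a : ℕ) : Rp a := twR (H3.rpK a)

theorem rpK_apply (a : ℕ) (g : Gam) :
    (rpK a).ρ g = (sg g : ℤ_[3]) • !![cyc g, a * kk g; 0, 1] := rfl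

/-- A group of points with the twisted action. -/
def Tz (P : Type) : Type := P

instance (P : Type) [h : AddCommGroup P] : AddCommGroup (Tz P) := h

/-- A point as a member of the twisted group. -/
def toT {P : Type} [AddCommGroup P] : P ≃+ Tz P := AddEquiv.refl P

noncomputable instance (P : Type) [AddCommGroup P] [DistribMulAction Gam P] :
    DistribMulAction Gam (Tz P) where
  smul g x := toT (sg g • g • toT.symm x)
  one_smul x := by
    change toT (sg 1 • (1 : Gam) • toT.symm x) = x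
    rw [sg_one, one_smul, one_smul, AddEquiv.apply_symm_apply]
  mul_smul g h x := by
    change toT (sg (g * h) • (g * h) • toT.symm x) =
      toT (sg g • g • toT.symm (toT (sg h • h • toT.symm x)))
    rw [AddEquiv.symm_apply_apply, sg_mul, mul_smul, mul_smul, smul_comm g (sg h)]
  smul_zero g := by
    change toT (sg g • g • toT.symm 0) = 0
    rw [map_zero, smul_zero, smul_zero, map_zero]
  smul_add g x y := by
    change toT (sg g • g • toT.symm (x + y)) =
      toT (sg g • g • toT.symm x) + toT (sg g • g • toT.symm y)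
    rw [map_add, smul_add, smul_add, map_add]

theorem smul_toT {P : Type} [AddCommGroup P] [DistribMulAction Gam P] (g : Gam) (x : P) :
    g • toT x = toT (sg g • g • x) := rfl

theorem smul_toT' {P : Type} [AddCommGroup P] [DistribMulAction Gam P] {g : Gam} (h : g ∈ GM)
    (x : P) : g • toT x = toT (g • x) := by rw [smul_toT, sg_of_mem h, one_smul]

end Pool.Agent.H3.T
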