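import Pool.Agent.Lib.MP_23455a_nt.H3.HP0
import Pool.Agent.Lib.MP_23455a_nt.H4.D1

/-! The curve of conductor twenty-seven, the multiplicative group, and the statements on modular
functions and Heegner points. -/

set_option autoImplicit false
set_option linter.unusedSectionVars false

open scoped NNReal Classical
open Finset Matrix NumberTheorySymbols

namespace Pool.Agent.H3.T
open Pool.Agent.Lib.MP_696deb_nt.B2 Pool.Agent.Lib.MP_696deb_nt.B2.CM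
open Pool.Agent.Lib.MP_696deb_nt (xco yco)
open Pool.Agent.Lib.MP_23455a_nt (W27 pm phiX phiY fT gm mu e3)

variable [TwD]

/-- The reference motive. -/
structure Mot.IsR (M : Mot (Tz PR)) : Prop where
  ρ : M.ρ = (rpK 1).ρ
  a : ∀ l, M.a l = l + 1
  G : ∀ w (x : PR), toT x ∈ M.G w ↔ w.V x.val = 1
  K : ∀ w (x : PR), toT x ∈ M.K w ↔ w.V (x.val - 1) < 1
  crd : ∀ m (a : ZMod (3 ^ m)) (x : PR), x.val = zeta m ^ a.val → M.crd m (toT x) = ![a, 0]

section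

variable {P : Type} [AddCommGroup P] [DistribMulAction Gam P]

/-- The motive of the quotient curve. -/
structure Mot.IsE (M : Mot (Tz P)) (φ : PW →+ P) : Prop where
  ell : M.Ell
  a : ∀ l, M.a l = 0
  K : ∀ w, ∀ x ∈ K1 w, toT (φ x) ∈ M.K w
  crd : ∀ a : ZMod (3 ^ 1), M.crd 1 (toT (φ (mu (zeta 1 ^ a.val)))) = ![-a, 0]

end

/-- The existence of the reference motive. -/
def RMStmt : Prop := ∃ M : Mot (Tz PR), M.IsR

/-- The existence of the motive of the quotient curve. -/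
def EMStmt : Prop := ∀ (P : Type) [AddCommGroup P] [DistribMulAction Gam P] (φ : PW →+ P),
  Isog φ → ∃ M : Mot (Tz P), M.IsE φ

/-- The system is the one of the theory of complex multiplication. -/
def RC.Std {n : ℕ} (S : RC n) : Prop := ∃ q : ∀ c, Pc n c →* S.C c,
  (∀ c, Function.Surjective (q c)) ∧ (∀ c x, q c x = 1 ↔ ∃ k : ℕ, ¬ 3 ∣ k ∧ x ^ k = 1) ∧
    (∀ c g, S.ψ c g = q c (rho n c g)) ∧ ∀ c c' x, S.pr c c' (q c' x) = q c (pj n c c' x)

/-- The existence of the ring class system. -/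
def RCStmt : Prop := ∀ n, Nk n → ∃ S : RC n, S.Std

/-- The group of the biquadratic field. -/
noncomputable def GB (n : ℕ) : Subgroup Gam := GK n ⊓ GM

/-- The genus character of the order of conductor `c` that belongs to the twist. -/
structure Gch (n c : ℕ) (ψ : Pc n c →* ℤˣ) : Prop where
  cond : c * TwD.m.gcd n = TwD.m
  eq : ∀ g ∈ GK n, ψ (rho n c g) = chi (-TwD.m) g
  val : ∀ (a : ℕ) (b k : ℤ), b ^ 2 + n * c ^ 2 = 4 * a * k → a.Coprime TwD.m →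
    (ψ (cl _ (idl n c a b)) : ℤ) = J(a | TwD.m)

theorem Gch.dvd {n : ℕ} {ψ : Pc n 1 →* ℤˣ} (h : Gch n 1 ψ) : TwD.m ∣ n := by
  have := h.cond
  rw [one_mul] at this
  exact this ▸ Nat.gcd_dvd_right _ _

/-- The twisted Heegner point. -/
noncomputable def yTw (n c : ℕ) (r : ℤ) (ψ : Pc n c →* ℤˣ) : PW :=
  ∑ᶠ x, (ψ x : ℤ) • yW n c r x

/-- The twisted elliptic unit. -/
noncomputable def uTw (n c : ℕ) (r : ℤ) (ψ : Pc n c →* ℤˣ) : Qbar :=
  ∏ᶠ x, fT (yW n c r x) ^ (ψ x : ℤ)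

/-- The existence of the two systems of Heegner points. -/
def HPStmt : Prop := ∀ (n c : ℕ) (r : ℤ) (ψ : Pc n c →* ℤˣ) (S : RC n) (P : Type) [AddCommGroup P]
  [DistribMulAction Gam P] (φ : PW →+ P) (M : Mot (Tz P)) (M' : Mot (Tz PR)), Nk n →
  108 ∣ r ^ 2 + n → Gch n c ψ → S.Std → Isog φ → M.IsE φ → M'.IsR →
  ∃ (Y : HP S M) (Y' : HP S M'), Y.Cmp Y' ∧ (toT.symm Y'.tot).val = uTw n c r ψ ∧
    Y.tot = toT (φ (yTw n c r ψ))

/-- The unit `u` has index at most `3 ^ f`. -/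
def ValU (n f : ℕ) (u : Qbar) : Prop := ∀ y, Fx (GB n) y → y ^ 3 ^ (f + 1) ≠ u * cc u

/-- The minus part of the class group of the biquadratic field has at least `3 ^ f` elements of
three-power order: in terms of Kummer theory, and in terms of unramified characters. -/
structure ClassD (n f : ℕ) : Prop where
  kum : ∀ j, f ≤ j → ∃ (A : Type) (a : A → Qbar), 3 ^ (j + f) ≤ Nat.card A ∧
    (∀ i, a i ≠ 0 ∧ Fx (GB n) (a i) ∧ (∃ y, Fx (GB n) y ∧ a i * ga (a i) = y ^ 3 ^ j) ∧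
      ∀ w : Plc, ∃ t : ℤ, w.V (a i) ^ 2 = ((w.p : ℝ≥0) ^ (3 ^ j * t))⁻¹) ∧
    ∀ i i' y, Fx (GB n) y → a i = a i' * y ^ 3 ^ j → i = i'
  chr : ∀ j, f ≤ j → ∃ (A : Type) (η : A → Gam → ZMod (3 ^ j)), 3 ^ f ≤ Nat.card A ∧
    (∀ i, Sm (GB n) (η i) ∧ IsHom (GB n) (η i) ∧ (∀ w : Plc, ∀ σ ∈ GB n ⊓ Ine w, η i σ = 0) ∧
      ∀ g ∈ GB n, η i (ga * g * ga⁻¹) = -η i g) ∧
    ∀ i i', (∀ g ∈ GB n, η i g = η i' g) → i = i'

/-- The class number formula. -/
def CNStmt : Prop := ∀ (n c : ℕ) (r : ℤ) (ψ : Pc n c →* ℤˣ), Nk n → 108 ∣ r ^ 2 + n →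
  Gch n c ψ → ∃ f : ℕ, ClassD n f ∧ ValU n f (uTw n c r ψ)

end Pool.Agent.H3.T
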