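import Pool.Agent.Lib.MP_23455a_nt.H3.KM
import Pool.Agent.Lib.MP_23455a_nt.H4.D1

/-! Coordinates of torsion points and Kummer cochains. -/

set_option autoImplicit false
set_option linter.unusedSectionVars false

open scoped NNReal Classical
open Finset Matrix NumberTheorySymbols

namespace Pool.Agent.H3.T
open Pool.Agent.Lib.MP_696deb_nt.B2

variable [TwD]

variable {P : Type} [AddCommGroup P] [DistribMulAction Gam P] {M : Mot P} {m k : ℕ} {x y : P}
  {v v' : Fin 2 → ZMod (3 ^ m)} {D D' : Subgroup Gam} {w : Plc}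

theorem Mot.third (M : Mot P) (k : ℕ) (x : P) : ∃ y, 3 ^ k • y = x := by
  induction k with
  | zero => exact ⟨x, by simp⟩
  | succ j ih =>
    obtain ⟨y, rfl⟩ := ih
    obtain ⟨z, rfl⟩ := M.div y
    exact ⟨z, by rw [pow_succ, mul_nsmul']⟩

theorem Mot.G_pow (M : Mot P) (k : ℕ) (h : 3 ^ k • x ∈ M.G w) : x ∈ M.G w := by
  induction k with
  | zero => simpa using h
  | succ j ih => exact ih (M.G_sat _ _ (by rwa [← mul_nsmul', ← pow_succ']))

theorem Mot.cd (M : Mot P) (h : 3 ^ m • x = 0) : M.Cd m x (M.crd m x) := ⟨h, rfl⟩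

theorem Mot.Cd.add (h : M.Cd m x v) (h' : M.Cd m y v') : M.Cd m (x + y) (v + v') :=
  ⟨by rw [smul_add, h.1, h'.1, add_zero], by rw [M.crd_add m x y h.1 h'.1, h.2, h'.2]⟩

theorem Mot.cd_zero (M : Mot P) (m : ℕ) : M.Cd m 0 0 :=
  ⟨smul_zero _, by simpa using M.crd_add m 0 0 (smul_zero _) (smul_zero _)⟩

theorem Mot.Cd.uniq (h : M.Cd m x v) (h' : M.Cd m x v') : v = v' := h.2.symm.trans h'.2

theorem Mot.Cd.neg (h : M.Cd m x v) : M.Cd m (-x) (-v) := by
  have h1 := M.cd (m := m) (x := -x) (by rw [smul_neg, h.1, neg_zero])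
  have h2 := h.add h1
  rw [add_neg_cancel] at h2
  rwa [eq_neg_of_add_eq_zero_right (h2.uniq (M.cd_zero m))] at h1

theorem Mot.Cd.sub (h : M.Cd m x v) (h' : M.Cd m y v') : M.Cd m (x - y) (v - v') := by
  simpa only [sub_eq_add_neg] using h.add h'.neg

theorem Mot.Cd.eq_zero (h : M.Cd m x 0) : x = 0 := M.crd_inj m x h.1 h.2

theorem Mot.Cd.inj (h : M.Cd m x v) (h' : M.Cd m y v) : x = y :=
  sub_eq_zero.1 (Mot.Cd.eq_zero (by simpa only [sub_self] using h.sub h'))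

theorem Mot.Cd.congr (h : M.Cd m x v) (e : y = x) (e' : v' = v) : M.Cd m y v' := e ▸ e' ▸ h

theorem Mot.Cd.nsmul (h : M.Cd m x v) (n : ℕ) : M.Cd m (n • x) (n • v) := by
  induction n with
  | zero => simpa using M.cd_zero m
  | succ n ih => simpa only [succ_nsmul] using ih.add h

theorem Mot.Cd.zsmul (h : M.Cd m x v) (n : ℤ) : M.Cd m (n • x) (n • v) := by
  obtain ⟨n, rfl | rfl⟩ := n.eq_nat_or_neg
  · simpa only [natCast_zsmul] using h.nsmul n
  · simpa only [neg_zsmul, natCast_zsmul] using (h.nsmul n).neg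

theorem Mot.Cd.smul (h : M.Cd m x v) (g : Gam) : M.Cd m (g • x) (mred m (M.ρ g) *ᵥ v) :=
  ⟨by rw [smul_comm, h.1, smul_zero], by rw [M.crd_smul m g x h.1, h.2]⟩

theorem Mot.cd_sum {ι : Type*} (s : Finset ι) {x : ι → P} {v : ι → Fin 2 → ZMod (3 ^ m)}
    (h : ∀ i ∈ s, M.Cd m (x i) (v i)) : M.Cd m (∑ i ∈ s, x i) (∑ i ∈ s, v i) := by
  induction s using Finset.induction_on with
  | empty => simpa using M.cd_zero m
  | insert i s hi ih =>
    rw [sum_insert hi, sum_insert hi]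
    exact (h i (mem_insert_self _ _)).add (ih fun j hj => h j (mem_insert_of_mem hj))

/-- Reduction of the level. -/
theorem Mot.Cd.red {N : ℕ} {u : Fin 2 → ZMod (3 ^ N)} (h : M.Cd N x u) (e : m + k = N) :
    M.Cd m (3 ^ k • x) fun i => (u i).val := by
  subst e
  refine ⟨by rw [← mul_nsmul', ← pow_add, h.1], ?_⟩
  rw [M.crd_red m k x h.1, h.2]
  funext i
  rw [ZMod.castHom_apply, ZMod.cast_eq_val]

/-- Change of the level along a torsion element. -/
theorem Mot.exists_val (M : Mot P) {t : ZMod (3 ^ k)} (ht : 3 ^ m • t = 0) : ∃ n : ℕ,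
    ∀ x v, M.Cd m x v → M.Cd k (n • x) fun i => (v i).val • t := by
  have h0 := ht
  rw [← ZMod.natCast_zmod_val t, nsmul_eq_mul, ← Nat.cast_mul, ZMod.natCast_eq_zero_iff] at ht
  obtain ⟨n, hn⟩ := ht
  refine ⟨n, fun x v h => ?_⟩
  obtain ⟨y, rfl⟩ := M.third k x
  have h1 := M.cd (m := m + k) (x := y) (by rw [pow_add, mul_nsmul', h.1])
  have h2 := h.uniq (h1.red rfl)
  refine ((h1.red (add_comm k m)).nsmul t.val).congr ?_ (funext fun i => ?_)
  · rw [← mul_nsmul', ← mul_nsmul', mul_comm n, ← hn, mul_comm]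
  · rw [← km_nsmul h0 (congrFun h2 i).symm, Pi.smul_apply, nsmul_eq_mul, nsmul_eq_mul,
      ZMod.natCast_zmod_val, mul_comm]

/-- Raising the level. -/
theorem Mot.Cd.up {N : ℕ} (h : M.Cd m x v) (e : m + k = N) :
    M.Cd N x fun i => 3 ^ k * ((v i).val : ZMod (3 ^ N)) := by
  subst e
  obtain ⟨y, rfl⟩ := M.third k x
  have h1 := M.cd (m := m + k) (x := y) (by rw [pow_add, mul_nsmul', h.1])
  have h2 := h.uniq (h1.red rfl)
  refine (h1.nsmul (3 ^ k)).congr rfl (funext fun i => ?_)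
  have h0 : 3 ^ m • (3 ^ k : ZMod (3 ^ (m + k))) = 0 := by
    have := ZMod.natCast_self (3 ^ (m + k))
    rw [nsmul_eq_mul]
    push_cast at this ⊢
    rw [← pow_add, this]
  have h3 := km_nsmul h0 (congrFun h2 i).symm
  rw [nsmul_eq_mul, nsmul_eq_mul, ZMod.natCast_zmod_val] at h3
  rw [Pi.smul_apply, nsmul_eq_mul, mul_comm, ← h3]
  push_cast
  ring

/-- No torsion point is fixed by inertia at three. -/
theorem Mot.fix_zero (M : Mot P) (hw : w.p = 3) (h : 3 ^ k • x = 0)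
    (e : ∀ σ ∈ Ine w, σ • x = x) : x = 0 := by
  induction k generalizing x with
  | zero => simpa using h
  | succ k ih =>
    have h1 : 3 ^ 1 • x = 0 := ih (by rw [← mul_nsmul', ← pow_add, h])
      fun σ hσ => by rw [smul_comm, e σ hσ]
    have h2 : ∀ σ ∈ Ine w, !![cy 1 σ, 1 * km 1 σ; 0, 1] *ᵥ M.crd 1 x = M.crd 1 x := fun σ hσ => by
      rw [← M.md' (ine3_GM hw hσ), ← M.crd_smul 1 σ x h1, e σ hσ]
    obtain ⟨a, a1, a2⟩ := exists_z1 hw
    obtain ⟨b, b1, b2, b3⟩ := exists_z2 hw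
    have h3 := congrFun (h2 a a1) 0
    have h4 := congrFun (h2 b b1) 0
    simp only [mulVec, dotProduct, Fin.sum_univ_two, of_apply, cons_val', cons_val_zero,
      cons_val_one, a2, b2] at h3 h4
    refine M.crd_inj 1 x h1 ?_
    rw [show M.crd 1 x = ![M.crd 1 x 0, M.crd 1 x 1] from by ext i; fin_cases i <;> rfl]
    generalize M.crd 1 x 0 = s, M.crd 1 x 1 = t, km 1 a = p, km 1 b = q at *
    revert s t p q
    decide

section

variable {c c' : Gam → Fin 2 → ZMod (3 ^ m)}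

theorem KumP.zero : KumP M m D 0 := ⟨0, fun g _ => by simpa using M.cd_zero m⟩

theorem KumP.add (h : KumP M m D c) (k : KumP M m D c') : KumP M m D (c + c') := by
  obtain ⟨S, h⟩ := h
  obtain ⟨S', k⟩ := k
  exact ⟨S + S', fun g hg => ((h g hg).add (k g hg)).congr (by rw [smul_add]; abel) rfl⟩

theorem KumP.neg (h : KumP M m D c) : KumP M m D (-c) := by
  obtain ⟨S, h⟩ := h
  exact ⟨-S, fun g hg => (h g hg).neg.congr (by rw [smul_neg]; abel) rfl⟩

theorem KumP.sub (h : KumP M m D c) (k : KumP M m D c') : KumP M m D (c - c') := by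
  simpa only [sub_eq_add_neg] using h.add k.neg

theorem KumP.congr (h : KumP M m D c) (k : ∀ g ∈ D, c' g = c g) : KumP M m D c' :=
  h.imp fun _ h g hg => (k g hg).symm ▸ h g hg

theorem KumP.mono (h : KumP M m D c) (k : D' ≤ D) : KumP M m D' c :=
  h.imp fun _ h g hg => h g (k hg)

theorem KumP.smul_val (h : KumP M m D c) {t : ZMod (3 ^ k)} (ht : 3 ^ m • t = 0) :
    KumP M k D fun g i => (c g i).val • t := by
  obtain ⟨S, h⟩ := h
  obtain ⟨n, hn⟩ := M.exists_val ht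
  exact ⟨n • S, fun g hg => (hn _ _ (h g hg)).congr (by rw [smul_comm g n S, nsmul_sub]) rfl⟩

theorem Mot.sm_cd (M : Mot P) {S : P} (h : ∀ g ∈ D, M.Cd m (g • S - S) (c g)) : Sm D c :=
  (((M.smP S).mono le_top).comp fun y => M.crd m (y - S)).congr fun g hg => (h g hg).2

theorem KumP.coc (h : KumP M m D c) :
    Sm D c ∧ ∀ g ∈ D, ∀ k ∈ D, c (g * k) = c g + mred m (M.ρ g) *ᵥ c k := by
  obtain ⟨S, h⟩ := h
  refine ⟨M.sm_cd h, fun g hg k hk => (h _ (mul_mem hg hk)).uniq ?_⟩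
  exact ((h g hg).add ((h k hk).smul g)).congr (by rw [mul_smul, smul_sub]; abel) rfl

/-- Conjugation. -/
theorem KumP.conj (h : KumP M m D c) (s : Gam) (e : ∀ g ∈ D', s⁻¹ * g * s ∈ D) :
    KumP M m D' fun g => mred m (M.ρ s) *ᵥ c (s⁻¹ * g * s) := by
  obtain ⟨S, h⟩ := h
  exact ⟨s • S, fun g hg => ((h _ (e g hg)).smul s).congr (by
    rw [smul_sub, mul_smul, mul_smul, smul_inv_smul]) rfl⟩

theorem Mot.Ell.cob (hM : M.Ell) (v : Fin 2 → ZMod (3 ^ m)) :
    KumP M m D fun g => mred m (M.ρ g) *ᵥ v - v := by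
  obtain ⟨x, hx⟩ := hM.surj m v
  exact ⟨x, fun g _ => (hx.smul g).sub hx⟩

theorem Mot.Ell.three (hM : M.Ell) (hw : w.p = 3) (h : KumP M m (Ine w) c)
    (e : ∀ σ ∈ Ine w, 3 • c σ = 0) {σ : Gam} (hσ : σ ∈ Ine w) : c σ 1 = 0 := by
  obtain ⟨S, h⟩ := h
  have h1 : ∀ σ ∈ Ine w, 3 ^ 1 • (σ • S - S) = 0 := fun σ hσ =>
    (((h σ hσ).nsmul 3).congr rfl (e σ hσ).symm).eq_zero
  have h2 := hM.ine w (fun σ => M.crd 1 (σ • S - S)) hw ⟨S, fun σ hσ => M.cd (h1 σ hσ)⟩ σ hσ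
  cases m with
  | zero => exact Subsingleton.elim (α := ZMod 1) _ _
  | succ m =>
    rw [congrFun ((h σ hσ).uniq ((M.cd (h1 σ hσ)).up (add_comm 1 m))) 1, h2, ZMod.val_zero,
      Nat.cast_zero, mul_zero]

end

section

variable {B B' : Type} [AddCommGroup B] [AddCommGroup B'] {c c' : Gam → Fin 2 → B}

theorem KumC.zero : KumC M D (0 : Gam → Fin 2 → B) := fun _ f =>
  KumP.zero.congr fun _ _ => funext fun _ => map_zero f

theorem KumC.add (h : KumC M D c) (k : KumC M D c') : KumC M D (c + c') := fun m f =>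
  ((h m f).add (k m f)).congr fun _ _ => funext fun _ => map_add f _ _

theorem KumC.neg (h : KumC M D c) : KumC M D (-c) := fun m f =>
  (h m f).neg.congr fun _ _ => funext fun _ => map_neg f _

theorem KumC.sub (h : KumC M D c) (k : KumC M D c') : KumC M D (c - c') := by
  simpa only [sub_eq_add_neg] using h.add k.neg

theorem KumC.congr (h : KumC M D c) (k : ∀ g ∈ D, c' g = c g) : KumC M D c' := fun m f =>
  (h m f).congr fun g hg => by rw [k g hg]

theorem KumC.map (h : KumC M D c) (φ : B →+ B') : KumC M D fun g i => φ (c g i) :=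
  fun m f => h m (f.comp φ)

theorem KumC.of_smul {x : Gam → Fin 2 → ZMod (3 ^ m)} (h : KumP M m D x) {e : B}
    (he : 3 ^ m • e = 0) : KumC M D fun g i => (x g i).val • e := fun _ f =>
  (h.smul_val (t := f e) (by rw [← map_nsmul, he, map_zero])).congr fun _ _ =>
    funext fun _ => map_nsmul f _ _

theorem KumC.sum {ι : Type*} (s : Finset ι) {c : ι → Gam → Fin 2 → B}
    (h : ∀ i ∈ s, KumC M D (c i)) : KumC M D fun g j => ∑ i ∈ s, c i g j :=
  (sum_induction c (KumC M D) (fun _ _ => KumC.add) KumC.zero h).congr fun g _ => by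
    ext j
    simp only [Finset.sum_apply]

theorem KumP.kumC {x : Gam → Fin 2 → ZMod (3 ^ m)} (h : KumP M m D x) : KumC M D x :=
  (KumC.of_smul h (e := (1 : ZMod (3 ^ m))) (by rw [nsmul_one, ZMod.natCast_self])).congr
    fun _ _ => funext fun _ => by rw [nsmul_one, ZMod.natCast_zmod_val]

theorem KumC.kumP {x : Gam → Fin 2 → ZMod (3 ^ m)} (h : KumC M D x) : KumP M m D x :=
  h m (AddMonoidHom.id _)

/-- Complex conjugation. -/
theorem KumC.conj_cc (h : KumC M D c) (e : ∀ g ∈ D', cc * g * cc ∈ D) :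
    KumC M D' fun g => ![-c (cc * g * cc) 0, c (cc * g * cc) 1] := fun m f =>
  ((h m f).conj cc (by simpa only [cc_inv] using e)).neg.congr fun g _ => by
    ext i
    fin_cases i <;> simp [M.conj, cc_inv, mred, tauM, mulVec, dotProduct]

/-- Classes that are killed by three have values in the line of roots of unity on inertia. -/
theorem Mot.Ell.kumC_three [Finite B] (hM : M.Ell) (hw : w.p = 3) (hB : ∀ x : B, 3 ^ k • x = 0)
    (h : KumC M (Ine w) c) (e : ∀ σ ∈ Ine w, 3 • c σ = 0) {σ : Gam} (hσ : σ ∈ Ine w) :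
    c σ 1 = 0 := km_sep hB fun m f => by
  rw [map_zero]
  exact hM.three hw (h m f) (fun σ hσ => funext fun i => by
    rw [Pi.smul_apply, ← map_nsmul, ← Pi.smul_apply, e σ hσ, Pi.zero_apply, map_zero,
      Pi.zero_apply]) hσ

end

section

variable {B : Type} [CommRing B] {ρ : Gam →* M3} {j : ℤ_[3] →+* B} {ψ : Gam → B} {t : B} {N : ℕ}

theorem Mot.Ell.kumC_cob (hM : M.Ell) (e : ∀ g ∈ D, ψ g = 1) (x : Fin 2 → B) :
    KumC M D (H3.cob (tact M.ρ j ψ) x) := fun m f =>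
  (hM.cob fun i => f (x i)).congr fun g hg => by
    rw [← map_j_mulVec (j := j)]
    funext i
    rw [H3.cob, tact_apply, e g hg, one_smul, Pi.sub_apply, map_sub, Pi.sub_apply]

theorem KumC.mul {c : Gam → Fin 2 → B} (h : KumC M D c) (b : B) : KumC M D fun g => b • c g :=
  h.map (AddMonoidHom.mulLeft b)

theorem sm_map_j {ε : ZMod (3 ^ 1)} (R : Rp ε) (j : ℤ_[3] →+* B) (hk : (3 : B) ^ k = 0) :
    Sm D fun g => (R.ρ g).map j :=
  (((R.sm k).mono le_top).comp fun A => A.map fun z => (z.val : B)).congr fun g _ => by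
    ext a b
    simp only [map_apply, mred, j_eq j hk]

theorem sm_tact {ε : ZMod (3 ^ 1)} (R : Rp ε) (hk : (3 : B) ^ k = 0) (h : Sm D ψ) :
    Sm D (tact R.ρ j ψ) :=
  h.comp₂ (sm_map_j R j hk) fun a A => (Matrix.mulVecLin (a • A)).toAddMonoidHom

theorem det_map_j {ε : ZMod (3 ^ 1)} (R : Rp ε) (j : ℤ_[3] →+* B) (g : Gam) :
    ((R.ρ g).map j).det = j (cyc g) := by
  rw [← R.det]
  exact (RingHom.map_det j _).symm

/-- Vectors that are fixed modulo three by inertia at three. -/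
theorem fix_three (R : Rp 1) (hw : w.p = 3) {x : Fin 2 → B}
    (h : ∀ σ ∈ Ine w, ∀ i, 3 ∣ ((R.ρ σ).map j *ᵥ x - x) i) (i : Fin 2) : 3 ∣ x i := by
  have h1 : ∀ σ ∈ Ine w, ∀ a b, ∃ u, j (R.ρ σ a b) =
      ((!![cy 1 σ, 1 * km 1 σ; 0, 1] a b).val : ℕ) + 3 * u := fun σ hσ a b => by
    obtain ⟨u, hu⟩ := exists_j j 1 (R.ρ σ a b)
    exact ⟨u, by rw [← R.md' (ine3_GM hw hσ), hu, pow_one (3 : B)]; rfl⟩
  have h2 : ∀ σ ∈ Ine w, 3 ∣ (((cy 1 σ).val : B) - 1) * x 0 + (km 1 σ).val * x 1 := fun σ hσ => by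
    obtain ⟨u, hu⟩ := h1 σ hσ 0 0
    obtain ⟨u', hu'⟩ := h1 σ hσ 0 1
    obtain ⟨s, hs⟩ := h σ hσ 0
    simp only [Pi.sub_apply, mulVec, dotProduct, Fin.sum_univ_two, map_apply, hu, hu', of_apply,
      cons_val', cons_val_zero, cons_val_one, one_mul] at hs
    exact ⟨s - u * x 0 - u' * x 1, by linear_combination hs⟩
  obtain ⟨a, a1, a2⟩ := exists_z1 hw
  obtain ⟨b, b1, b2, b3⟩ := exists_z2 hw
  have h3 := h2 a a1
  have h4 := h2 b b1
  have h5 : ∀ q : ZMod (3 ^ 1), q ≠ 0 → q.val = 1 ∨ q.val = 2 := by decide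
  rw [b2, show (1 : ZMod (3 ^ 1)).val = 1 from rfl, Nat.cast_one, sub_self, zero_mul,
    zero_add] at h4
  have h6 : 3 ∣ x 1 := by
    obtain ⟨s, hs⟩ := h4
    rcases h5 _ b3 with e | e <;> rw [e] at hs <;> push_cast at hs
    exacts [⟨s, by linear_combination hs⟩, ⟨x 1 - s, by linear_combination -hs⟩]
  rw [a2, show (-1 : ZMod (3 ^ 1)).val = 2 from rfl] at h3
  obtain ⟨s, hs⟩ := (dvd_add_left (h6.mul_left _)).1 h3
  have h7 : 3 ∣ x 0 := ⟨s, by push_cast at hs; linear_combination hs⟩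
  fin_cases i
  exacts [h7, h6]

end

section

variable {n c c' : ℕ}

theorem Adm.of_dvd (h : Adm n c') (k : c ∣ c') : Adm n c :=
  ⟨h.1.squarefree_of_dvd k, fun l hl k' => h.2 l hl (k'.trans k)⟩

theorem adm_one (n : ℕ) : Adm n 1 :=
  ⟨squarefree_one, fun _ hl k => absurd (Nat.dvd_one.1 k) hl.ne_one⟩

theorem Adm.mul {p : ℕ} (h : Adm n c) (hp : p.Prime) (h1 : ¬ p ∣ c) (h2 : Adm n p) :
    Adm n (c * p) :=
  ⟨(Nat.squarefree_mul ((Nat.coprime_comm.1 (hp.coprime_iff_not_dvd.2 h1)))).2 ⟨h.1, hp.squarefree⟩,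
    fun l hl k => (hl.dvd_mul.1 k).elim (h.2 l hl) (h2.2 l hl)⟩

theorem Adm.m3 (h : Adm n w.p) : w.p % 3 = 2 := (h.2 _ w.prime dvd_rfl).1

theorem Adm.ne3 (h : Adm n w.p) : w.p ≠ 3 := fun e => by
  have := h.m3
  omega

theorem Adm.ne2 (h : Adm n w.p) : w.p ≠ 2 := (h.2 _ w.prime dvd_rfl).2.1

theorem Adm.jac (h : Adm n w.p) : J(-n | w.p) = -1 := (h.2 _ w.prime dvd_rfl).2.2.1

theorem Adm.nd (h : Adm n w.p) : ¬ (w.p : ℤ) ∣ 2 * -n :=
  B4c_not_dvd h.ne2 (by rw [h.jac]; decide)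

theorem Adm.ine (h : Adm n w.p) : Ine w ≤ GK n := fun _ hg => B4c_mem.2 (chi_ine h.nd hg)

theorem Adm.out (h : Adm n w.p) {φ : Gam} (hφ : IsFrob w w.p φ) : φ ∉ GK n := fun k => by
  have := chi_frob h.nd hφ
  rw [B4c_mem.1 k, h.jac] at this
  exact absurd this (by decide)

theorem Adm.fq_mem (h : Adm n w.p) : fq w ∈ GK n :=
  mul_mem_GK (h.out (fr_spec w)) (h.out (fr_spec w))

theorem Adm.gn_ine (h : Adm n w.p) : gn w ∈ Ine w := (gn_spec h.ne3).1

theorem Adm.gn_mem (h : Adm n w.p) : gn w ∈ GK n := h.ine h.gn_ine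

theorem Adm.jam (h : Adm n w.p) : J(-TwD.m | w.p) = 1 := (h.2 _ w.prime dvd_rfl).2.2.2

theorem Adm.ndm (h : Adm n w.p) : ¬ (w.p : ℤ) ∣ 2 * -TwD.m :=
  B4c_not_dvd h.ne2 (by rw [h.jam]; decide)

theorem Adm.ine_GM (h : Adm n w.p) : Ine w ≤ GM := fun _ hg => B4c_mem.2 (chi_ine h.ndm hg)

theorem Adm.frob_GM (h : Adm n w.p) {φ : Gam} (hφ : IsFrob w w.p φ) : φ ∈ GM :=
  B4c_mem.2 (Units.ext ((chi_frob h.ndm hφ).trans h.jam))

theorem Adm.dec_GM (h : Adm n w.p) : Dec w ≤ GM := fun _ hg => B4c_mem.2 (chi_dec h.ndm h.jam hg)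

theorem Adm.gn_inm (h : Adm n w.p) : gn w ∈ Inm w := ⟨h.gn_ine, h.ine_GM h.gn_ine⟩

theorem Adm.not_three (h : Adm n c) (hw : w.p = 3) : ¬ w.p ∣ c := fun e => by
  have := (h.2 _ w.prime e).1
  omega

end

end Pool.Agent.H3.T
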