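import Pool.Agent.Lib.MP_23455a_nt.H3.D3
import Pool.Agent.Lib.MP_23455a_nt.H4.D1b
import Pool.Agent.Lib.MP_23455a_nt.H4.D2
import Pool.Agent.Lib.MP_23455a_nt.H4.KM

/-! The statements at the trivial character, the choice of the prime of the tower, and the main
statement in terms of decomposition groups. -/

set_option autoImplicit false
set_option linter.unusedSectionVars false

open scoped NNReal Classical
open Finset Matrix NumberTheorySymbols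

namespace Pool.Agent.H3.T
open Pool.Agent.Lib.MP_696deb_nt.B2
open Pool.Agent.Lib.MP_23455a_nt (pm)

variable [TwD]

/-- The `h`-th power of every prime ideal of the fixed field of `H` is principal. -/
def PrinH (H : Subgroup Gam) (h : ℕ) : Prop := h ≠ 0 ∧ ∀ w : Plc, ∃ π, Fx H π ∧
  w.V π = ((w.p : ℝ≥0) ^ h)⁻¹ ∧ ∀ v, Away H {w} v → v.V π = 1

/-- The elements that act trivially at level `K`. -/
noncomputable def Np (ρ : Gam →* M3) (n K : ℕ) : Subgroup Gam := H3.Np ρ n K ⊓ GM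

theorem mem_Np {ρ : Gam →* M3} {n K : ℕ} {g : Gam} :
    g ∈ Np ρ n K ↔ g ∈ GK n ∧ mred K (ρ g) = 1 ∧ km K g = 0 ∧ g ∈ GM :=
  ⟨fun h => ⟨h.1.1, h.1.2.1, h.1.2.2, h.2⟩, fun h => ⟨⟨h.1, h.2.1, h.2.2.1⟩, h.2.2.2⟩⟩

/-- The cocycle is seen by the primes that are deep. -/
def Seen (ρ : Gam →* M3) (n e : ℕ) {m : ℕ} (c : Gam → Fin 2 → ZMod (3 ^ m)) : Prop :=
  ∀ K, ∃ s ∈ Np ρ n K, 3 ^ e • (c s + c (tg s)) ≠ 0

/-- The choice of the prime of the tower. -/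
def TWStmt : Prop := ∀ (n h e m : ℕ) (S : RC n) (ρ : Rp 1) (c c' : Gam → Fin 2 → ZMod (3 ^ m)),
  Nk n → Prin n h → ordProj[3] h = 3 ^ e → Fintype.card (S.C 1) = 3 ^ e →
  Coc (GK n) (act0 ρ.ρ m) c → Seen ρ.ρ n e c →
  Coc (GK n) (act0 (rpK 1).ρ m) c' → Seen ρ.ρ n e c' →
  ∀ k s, 4 * k ≤ s → ∃ (lam : Plc) (ν : S.C lam.p →* Multiplicative (ZMod (3 ^ s))),
    Twr S ρ.ρ k s lam ν ∧ c (fq lam) ≠ 0 ∧ c' (fq lam) ≠ 0

/-- The data at the trivial character for the multiplicative group. -/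
def ZRStmt : Prop := ∀ (n e0 f : ℕ) (S : RC n) (ρ : Rp 1) (M : Mot (Tz PR)) (Y : HP S M),
  Nk n → M.IsR → ClassD n f → ValU n f (toT.symm Y.tot).val →
  ∃ b : ℕ, ∀ e, b ≤ e → ∃ c : Gam → Fin 2 → ZMod (3 ^ e), Coc (GK n) (act0 (rpK 1).ρ e) c ∧
    Seen ρ.ρ n e0 c ∧
    ∀ (k s : ℕ) (lam : Plc) (ν : S.C lam.p →* Multiplicative (ZMod (3 ^ s)))
      (j : ℤ_[3] →+* Ak k) (κ : Finset Plc → Gam → Fin 2 → Ak k), e ≤ k →
      Twr S ρ.ρ k s lam ν → c (fq lam) ≠ 0 → KCl Y k lam ν j (tk k) κ →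
      Nonempty (ZR M n k e f 0 lam (κ ∅))

/-- The data at the trivial character for the curve. -/
def ZEStmt : Prop := ∀ (n e0 σ : ℕ) (μ : ℤ) (P : Type) [AddCommGroup P] [DistribMulAction Gam P]
  (S : RC n) (M : Mot P) (Y : HP S M) (x : P), Nk n → M.Ell → Rk1 n x →
  IsOfFinAddOrder (Y.tot - μ • x) → Nat.card (ShaD P n) = 3 ^ σ →
  ∃ b : ℕ, ∀ e, b ≤ e → ∃ c : Gam → Fin 2 → ZMod (3 ^ e), Coc (GK n) (act0 M.ρ e) c ∧
    Seen M.ρ n e0 c ∧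
    ∀ (k s : ℕ) (lam : Plc) (ν : S.C lam.p →* Multiplicative (ZMod (3 ^ s)))
      (j : ℤ_[3] →+* Ak k) (κ : Finset Plc → Gam → Fin 2 → Ak k), e ≤ k →
      Twr S M.ρ k s lam ν → c (fq lam) ≠ 0 → KCl Y k lam ν j (tk k) κ →
      Nonempty (ZE M n k e σ μ lam (κ ∅))

/-- The main statement in terms of decomposition groups. -/
def CoreStmt : Prop := ∀ (n c : ℕ) (r μ : ℤ) (ψ : CM.Pc n c →* ℤˣ) (P : Type) [AddCommGroup P]
  [DistribMulAction Gam P] (φ : PW →+ P) (x : Tz P), Nk n → 108 ∣ r ^ 2 + n → Gch n c ψ →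
  Isog φ → Rk1 n x → IsOfFinAddOrder (toT (φ (yTw n c r ψ)) - μ • x) → Finite (ShaD (Tz P) n) →
  μ ≠ 0 ∧ Nat.card (ShaD (Tz P) n) = 9 ^ padicValInt 3 μ

end Pool.Agent.H3.T
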