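import Pool.Agent.Lib.MP_23455a_nt.H3.ZVb
import Pool.Agent.Lib.MP_23455a_nt.H3.CFc
import Pool.Agent.Lib.MP_23455a_nt.H4.D3

/-! Class group and units of the biquadratic field. -/

set_option autoImplicit false
set_option linter.unusedSectionVars false

open scoped NNReal Classical
open Finset Matrix NumberTheorySymbols

namespace Pool.Agent.H3.T
open Pool.Agent.Lib.MP_696deb_nt.B2

variable [TwD]

variable {n h : ℕ} {H : Subgroup Gam} {w : Plc}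

theorem op_GB (n : ℕ) : Op (GB n) := (op_GK n).inf op_GM

theorem normal_GB (n : ℕ) : (GB n).Normal :=
  @Subgroup.normal_inf_normal _ _ _ _ (normal_GK n) normal_GM

theorem GB_le (n : ℕ) : GB n ≤ GK n := inf_le_left

theorem mem_GB {g : Gam} : g ∈ GB n ↔ g ∈ GK n ∧ g ∈ GM := Iff.rfl

theorem ine3_GB (hn : Nk n) (hw : w.p = 3) : Ine w ≤ GB n := le_inf (hn.ine_le hw) (ine3_GM hw)

theorem index_GB (hn : Nk n) : (GB n).index = 4 := by
  have h1 : GM.relIndex (GK n) = 2 := Subgroup.index_eq_two_iff.2 ⟨⟨ga, hn.gm⟩, fun b => by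
    by_cases hb : b.1 ∈ GM
    · exact Or.inr ⟨hb, fun h => ga_GM ((mul_mem_cancel_left hb).1 h)⟩
    · exact Or.inl ⟨mul_mem_GM hb ga_GM, hb⟩⟩
  rw [← Subgroup.relIndex_mul_index (GB_le n), GB, Subgroup.inf_relIndex_left, h1,
    index_GK hn.toNk.pos]

/-- The biquadratic field has no cube roots of unity. -/
theorem three_GB (hn : Nk n) {x : Qbar} (hx : Fx (GB n) x) {k : ℕ} (e : x ^ 3 ^ k = 1) : x = 1 := by
  induction k with
  | zero => simpa using e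
  | succ k ih =>
    refine ih ?_
    rw [pow_succ, pow_mul] at e
    obtain ⟨a, ha⟩ := exists_zeta_val (m := 1) e
    have h1 : z1 (x ^ 3 ^ k) = x ^ 3 ^ k := by rw [map_pow, hx _ (ine3_GB hn w3_p z1_spec.1)]
    rw [ha, smul_zeta_val, z1_spec.2, neg_one_mul, zva_neg, ← ha] at h1
    have h2 := mul_eq_one_iff_inv_eq₀ (ha ▸ b3b_ne 1 a) |>.2 h1
    linear_combination e - x ^ 3 ^ k * h2

open NumberField nonZeroDivisors Pool.Agent.Lib.MP_580eba_nt in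
/-- The finiteness of the class number. -/
theorem exists_prinH (hH : Op H) : ∃ h, PrinH H h := by
  have := nf_Kf hH
  let Q := (FractionalIdeal (𝓞 (Kf H))⁰ (Kf H))ˣ ⧸ (toPrincipalIdeal (𝓞 (Kf H)) (Kf H)).range
  have : Finite Q := Finite.of_equiv _ (ClassGroup.equiv (Kf H)).toEquiv
  refine ⟨Nat.card Q, Nat.card_pos.ne', fun w => ?_⟩
  obtain ⟨v, hv⟩ := exists_un (H := H) w
  have p0 : (w.p : Kf H) ≠ 0 := Nat.cast_ne_zero.2 w.prime.ne_zero
  let I : (FractionalIdeal (𝓞 (Kf H))⁰ (Kf H))ˣ :=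
    .mk0 v.asIdeal (FractionalIdeal.coeIdeal_ne_zero.2 v.ne_bot)
  obtain ⟨c, hc⟩ := (QuotientGroup.eq_one_iff (N := (toPrincipalIdeal (𝓞 (Kf H)) (Kf H)).range)
    (I ^ Nat.card Q)).1 (pow_card_eq_one' (G := Q) (x := QuotientGroup.mk I))
  have h1 : ∀ u, ord u c.1 = Nat.card Q * if v = u then 1 else 0 := fun u => by
    have h2 := congrArg (fun J : (FractionalIdeal (𝓞 (Kf H))⁰ (Kf H))ˣ =>
      FractionalIdeal.count (Kf H) u J.1) hc
    simp only [coe_toPrincipalIdeal, Units.val_pow_eq_pow_val, I, Units.val_mk0] at h2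
    rwa [count_eq_ord u c.ne_zero, FractionalIdeal.count_pow, FractionalIdeal.count_maximal] at h2
  have c0 : c.1 ^ ord v (w.p : Kf H) ≠ 0 := zpow_ne_zero _ c.ne_zero
  refine ⟨(c.1 ^ ord v (w.p : Kf H) : Kf H), fx_Kf _, ?_, fun u hu => ?_⟩
  · have h2 := (hv.eq_one _).1 ((ord_eq_zero_iff v (div_ne_zero c0 (pow_ne_zero (Nat.card Q) p0))).1
      (by rw [ord_div v c0 (pow_ne_zero _ p0), ord_zpow, ord_pow, h1, if_pos rfl]; ring))
    rw [← inv_pow, ← w.hV, ← map_pow]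
    refine eq_of_div_eq_one ?_
    rw [← map_div₀]
    exact_mod_cast h2
  · obtain ⟨v', hv'⟩ := exists_un (H := H) u
    refine (hv'.eq_one _).1 ((ord_eq_zero_iff v' c0).1 ?_)
    rw [ord_zpow, h1, if_neg, mul_zero, mul_zero]
    rintro rfl
    obtain ⟨g, hg, e⟩ := hv.conj hH hv'
    exact hu w (mem_singleton_self w) g hg e

set_option linter.unusedVariables false in
theorem un_pow (hH : Op H) (hp : PrinH H h) {a : Qbar} (ha : Fx H a) (a0 : a ≠ 0) {d N : ℕ}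
    (hd : d ≠ 0) (e : ∀ w : Plc, ∃ j : ℤ, w.V a ^ d = ((w.p : ℝ≥0) ^ (N * j))⁻¹) :
    ∃ y, Fx H y ∧ y ≠ 0 ∧ ∀ w : Plc, w.V (a ^ (d * h)) = w.V (y ^ N) := by
  choose π h1 h2 h3 using hp.2
  choose j hj using e
  obtain ⟨s, hs⟩ := finite_supp a0
  obtain ⟨t, t1, -, t2⟩ := exists_reps hH s
  have hy : Fx H (∏ w ∈ t, π w ^ j w) := fun g hg => by
    simp only [map_prod, map_zpow₀, fun w => h1 w g hg]
  refine ⟨_, hy, prod_ne_zero_iff.2 fun w _ => zpow_ne_zero _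
    (w.V.ne_zero_iff.1 (h2 w ▸ inv_ne_zero (pow_ne_zero _ (zva_p0 w)))), fun v => ?_⟩
  rw [map_pow, map_pow]
  by_cases hv : Away H t v
  · rw [map_prod, hs v fun k => t2 v k hv, prod_eq_one fun w hw => by
      rw [map_zpow₀, h3 w v fun u hu => mem_singleton.1 hu ▸ hv w hw, _root_.one_zpow]]
    simp
  · simp only [Away, not_forall, not_not] at hv
    obtain ⟨w, hw, g, hg, rfl⟩ := hv
    rw [zvb_V ha hg, zvb_V hy hg, map_prod, prod_eq_single_of_mem w hw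
      fun u hu k => by
        rw [map_zpow₀, h3 u w fun u' hu' g hg e => k (t1 u hu w hw g hg (mem_singleton.1 hu' ▸ e)),
          _root_.one_zpow], map_zpow₀, h2, pow_mul, hj]
    simp only [← zpow_natCast, ← _root_.zpow_neg, ← _root_.zpow_mul]
    congr 1
    ring

open NumberField in
/-- The group of units has rank one. -/
theorem un_rank (hn : Nk n) {u : Qbar} (hu : Fx (GB n) u) (h1 : ∀ w : Plc, w.V u = 1)
    (h2 : ∀ k : ℕ, k ≠ 0 → u ^ k ≠ 1) : ∃ N : ℕ, N ≠ 0 ∧ ∀ v, Fx (GB n) v →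
      (∀ w : Plc, w.V v = 1) → ∃ b : ℤ, v ^ N = u ^ b := by
  have := nf_Kf (op_GB n)
  have := tc_Kf (op_GB n) (tc_GM inf_le_right)
  have h3 : Units.rank (Kf (GB n)) = 1 := by
    have h4 := IsTotallyComplex.finrank (Kf (GB n))
    rw [finrank_Kf (op_GB n), index_GB hn] at h4
    rw [Units.rank, InfinitePlace.card_eq_nrRealPlaces_add_nrComplexPlaces,
      IsTotallyComplex.nrRealPlaces_eq_zero]
    omega
  have : Unique (Fin (Units.rank (Kf (GB n)))) := h3 ▸ inferInstance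
  let f : 𝓞 (Kf (GB n)) →+* Qbar := (algebraMap (Kf (GB n)) Qbar).comp (algebraMap _ _)
  have h4 : ∀ v, Fx (GB n) v → (∀ w : Plc, w.V v = 1) → ∃ b : ℤ,
      v ^ Units.torsionOrder (Kf (GB n)) = (Units.map f.toMonoidHom (Units.fundSystem _ default ^
        Units.torsionOrder (Kf (GB n))) ^ b : Qbarˣ) := fun v hv h => by
    have v0 : v ≠ 0 := w3.V.ne_zero_iff.1 (h w3 ▸ one_ne_zero)
    have i : ∀ x : Kf (GB n), (∀ w : Plc, w.V x = 1) → IsIntegral ℤ x := fun x hx =>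
      (isIntegral_algebraMap_iff (algebraMap (Kf (GB n)) Qbar).injective).1
        (isIntegral_of_V fun w => (hx w).le)
    let x : Kf (GB n) := ⟨v, b3a_fx.1 hv⟩
    have x0 : x ≠ 0 := fun e => v0 (congrArg Subtype.val e)
    let y : (𝓞 (Kf (GB n)))ˣ := .mkOfMulEqOne ⟨x, i x h⟩ ⟨x⁻¹, i _ fun w => by
      rw [IntermediateField.coe_inv, map_inv₀, h, inv_one]⟩ (Subtype.ext (mul_inv_cancel₀ x0))
    obtain ⟨⟨ζ, b⟩, e, -⟩ := Units.exist_unique_eq_mul_prod (Kf (GB n)) y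
    have h5 : ζ.1 ^ Units.torsionOrder (Kf (GB n)) = 1 :=
      congrArg Subtype.val (pow_card_eq_one' (x := ζ))
    refine ⟨b default, ?_⟩
    rw [← map_zpow, ← zpow_natCast (Units.fundSystem _ _), zpow_comm, zpow_natCast,
      ← one_mul (_ ^ _ : (𝓞 (Kf (GB n)))ˣ), ← h5, ← mul_pow, ← Fintype.prod_unique fun i =>
        Units.fundSystem (Kf (GB n)) i ^ b i, ← e, map_pow, Units.val_pow_eq_pow_val]
    rfl
  obtain ⟨a, ha⟩ := h4 u hu h1
  have t0 := Units.torsionOrder_ne_zero (Kf (GB n))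
  have a0 : a ≠ 0 := by
    rintro rfl
    exact h2 _ t0 (by rwa [zpow_zero] at ha)
  refine ⟨_, mul_ne_zero t0 (pow_ne_zero 2 (Int.natAbs_ne_zero.2 a0)), fun v hv h => ?_⟩
  obtain ⟨b, hb⟩ := h4 v hv h
  refine ⟨Units.torsionOrder (Kf (GB n)) * (a * b), ?_⟩
  rw [pow_mul, hb, _root_.zpow_mul, zpow_natCast, ha, ← Units.val_zpow_eq_zpow_val,
    ← Units.val_pow_eq_pow_val, ← zpow_natCast, ← _root_.zpow_mul, ← _root_.zpow_mul, Nat.cast_pow,
    Int.natAbs_sq]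
  congr 2
  ring

theorem un_step {D : Subgroup Gam} (hD : D ≤ Dec w) (q : ℕ) {r : Qbar} (hr : Fx (D ⊓ GK q) r) :
    ∃ y, Fx D y ∧ w.V y = w.V r ^ 2 := by
  have f : ∀ σ ∈ GK q, σ ∈ D → σ r = r := fun σ h1 h2 => hr σ ⟨h2, h1⟩
  by_cases hI : D ≤ GK q
  · exact ⟨r ^ 2, fun σ hσ => by rw [map_pow, f σ (hI hσ) hσ], map_pow _ _ _⟩
  obtain ⟨i, hi, hi'⟩ := SetLike.not_le_iff_exists.1 hI
  refine ⟨r * i r, fun σ hσ => ?_, by rw [map_mul, mem_Dec.1 (hD hi), sq]⟩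
  rw [map_mul]
  by_cases hs : σ ∈ GK q
  · rw [f σ hs hσ, zva_app, f _ (zva_conj hs i) (mul_mem (mul_mem (inv_mem hi) hσ) hi)]
  · have h1 := f _ (mul_mem_GK (fun k => hi' (inv_mem_iff.1 k)) hs) (mul_mem (inv_mem hi) hσ)
    have h2 := congrArg i h1
    rw [← AlgEquiv.mul_apply, mul_inv_cancel_left] at h2
    rw [h2, ← AlgEquiv.mul_apply σ, f _ (mul_mem_GK hs hi') (mul_mem hσ hi), mul_comm]

/-- Unramified Kummer classes have divisible valuations. -/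
theorem un_val {m : ℕ} {a : Qbar} {κ : Gam → ZMod (3 ^ m)} (hκ : Kum m (GB n) a κ)
    (e : ∀ σ ∈ GB n ⊓ Ine w, κ σ = 0) : ∃ j : ℤ, w.V a ^ 4 = ((w.p : ℝ≥0) ^ (3 ^ m * j))⁻¹ := by
  obtain ⟨r, r0, hr, h⟩ := hκ
  obtain ⟨y, h1, h2⟩ := un_step (D := Ine w ⊓ GK n) (inf_le_left.trans (Ine_le w)) TwD.m (r := r)
    fun σ hσ => by
      rw [h σ ⟨hσ.1.2, hσ.2⟩, e σ ⟨⟨hσ.1.2, hσ.2⟩, hσ.1.1⟩, ZMod.val_zero, pow_zero, mul_one]
  obtain ⟨x, h3, h4⟩ := un_step (Ine_le w) n h1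
  rw [h2, ← pow_mul] at h4
  obtain ⟨j, hj⟩ := V_of_fx_ine h3 (w.V.ne_zero_iff.1 (h4 ▸ pow_ne_zero _ (w.V.ne_zero_iff.2 r0)))
  exact ⟨j, by rw [← hr, map_pow, pow_right_comm, ← h4, hj, zva_pow, Nat.cast_pow, Nat.cast_ofNat]⟩

/-- Characters of the tame inertia group are multiples of the Kummer character of the prime. -/
theorem un_tame {m : ℕ} {κ κ' : Gam → ZMod (3 ^ m)} (hw : w.p ≠ 3) (h' : Kum m (GB n) w.p κ')
    (h1 : Sm (GB n ⊓ Ine w) κ) (h2 : IsHom (GB n ⊓ Ine w) κ) :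
    ∃ i : ZMod (3 ^ m), ∀ σ ∈ GB n ⊓ Ine w, κ σ = i * κ' σ := by
  obtain ⟨τ, -, hτ⟩ := tame_cyc (op_GB n) hw
  have h3 := hτ (Multiplicative (ZMod (3 ^ m) × ZMod (3 ^ m)))
    (fun g => Multiplicative.ofAdd (κ g, κ' g))
    (h1.comp₂ (h'.sm.mono inf_le_left) fun x y => Multiplicative.ofAdd (x, y))
    (fun g hg k hk => by
      beta_reduce
      rw [← ofAdd_add, Prod.mk_add_mk, h2 g hg k hk, h'.coc g hg.1 k hk.1, cy_ine hw hg.2, one_mul])
    fun g _ => ⟨m, by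
      rw [← ofAdd_nsmul, Prod.smul_mk, nsmul_eq_mul, nsmul_eq_mul, ZMod.natCast_self, zero_mul,
        zero_mul]
      rfl⟩
  have h4 : ∀ σ ∈ GB n ⊓ Ine w, ∃ k : ℕ, κ σ = k * κ τ ∧ κ' σ = k * κ' τ := fun σ hσ => by
    obtain ⟨k, hk⟩ := h3 σ hσ
    rw [← ofAdd_nsmul, Prod.smul_mk, nsmul_eq_mul, nsmul_eq_mul] at hk
    exact ⟨k, Prod.mk.inj (Multiplicative.ofAdd.injective hk)⟩
  have h5 : IsUnit (κ' τ) := by
    rcases Nat.eq_zero_or_pos m with rfl | hm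
    · exact isUnit_of_subsingleton (M := ZMod 1) _
    rw [← ZMod.natCast_zmod_val (κ' τ), ZMod.isUnit_iff_coprime]
    refine Nat.Coprime.pow_right m ((Nat.Prime.coprime_iff_not_dvd Nat.prime_three).2
      fun hd => ?_).symm
    obtain ⟨j, hj⟩ := un_val (w := w) (h'.zv_red (m := 1) hm) fun σ hσ => by
      obtain ⟨k, -, hk⟩ := h4 σ hσ
      rw [hk, map_mul, ZMod.castHom_apply (κ' τ), ← ZMod.natCast_val,
        (ZMod.natCast_eq_zero_iff _ (3 ^ 1)).2 hd, mul_zero]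
    rw [w.hV, ← zpow_one (w.p : ℝ≥0), zva_pow, zpow_one] at hj
    have := zva_exp hj
    omega
  obtain ⟨u, hu⟩ := h5.exists_right_inv
  refine ⟨κ τ * u, fun σ hσ => ?_⟩
  obtain ⟨k, e1, e2⟩ := h4 σ hσ
  rw [e1, e2]
  linear_combination -(k * κ τ) * hu

end Pool.Agent.H3.T
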