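import Pool.Agent.Lib.MP_23455a_nt.H4.CNs
import Pool.Agent.Lib.MP_23455a_nt.H4.UN

/-! Quadratic fields as fixed fields. -/

set_option autoImplicit false

open scoped NNReal Classical
open NumberField Finset

namespace Pool.Agent.H3.T
open Pool.Agent.Lib.MP_696deb_nt.B2

/-- The group of the field that is generated by the square root of `d`. -/
noncomputable def GQ (d : ℤ) : Subgroup Gam := (chi d).ker

theorem GK_eq (n : ℕ) : GK n = GQ (-n) := rfl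

theorem mem_GQ {d : ℤ} {g : Gam} : g ∈ GQ d ↔ chi d g = 1 := Iff.rfl

theorem op_GQ (d : ℤ) : Op (GQ d) := op_ker_chi d

theorem normal_GQ (d : ℤ) : (GQ d).Normal := MonoidHom.normal_ker _

instance (d : ℤ) : NumberField (Kf (GQ d)) := nf_Kf (op_GQ d)

variable {d : ℤ}

theorem mul_mem_GQ {g h : Gam} (hg : g ∉ GQ d) (hh : h ∉ GQ d) : g * h ∈ GQ d := by
  rw [mem_GQ, map_mul, (Int.units_eq_one_or _).resolve_left hg,
    (Int.units_eq_one_or _).resolve_left hh, neg_mul_neg, one_mul]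

theorem qd_GQ (hs : Squarefree d) (h4 : d % 4 = 1) (h1 : d ≠ 1) : Qd (Kf (GQ d)) d := by
  obtain ⟨g, hg⟩ := exists_chi_ne (a := d) fun ⟨r, hr⟩ => by
    rcases Int.isUnit_iff.1 (hs r hr.symm.dvd) with rfl | rfl <;> omega
  have h2 : g ∉ GQ d := fun h => by rw [mem_GQ.1 h] at hg; exact absurd hg (by decide)
  refine ⟨?_, hs, h4, h1, ⟨rt d, b3a_fx.1 fun _ h => chi_eq_one.1 h⟩, Subtype.ext ?_⟩
  · rw [finrank_Kf (op_GQ d)]
    refine Subgroup.index_eq_two_iff.2 ⟨g, fun b => ?_⟩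
    by_cases hb : b ∈ GQ d
    · exact Or.inr ⟨hb, fun h => h2 ((mul_mem_cancel_left hb).1 h)⟩
    · exact Or.inl ⟨mul_mem_GQ hb h2, hb⟩
  · simpa using rt_sq d

/-- The exponent of three in the class number. -/
noncomputable def vh (d : ℤ) : ℕ := padicValNat 3 (classNumber (Kf (GQ d)))

/-- There are `c` numbers, different modulo powers, whose ideals are powers. -/
def KumF (H : Subgroup Gam) (k c : ℕ) : Prop := ∃ (A : Type) (a : A → Qbar), c ≤ Nat.card A ∧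
  (∀ i, a i ≠ 0 ∧ Fx H (a i) ∧
    ∀ w : Plc, ∃ t : ℤ, w.V (a i) ^ 2 = ((w.p : ℝ≥0) ^ (3 ^ k * t))⁻¹) ∧
  ∀ i i' y, Fx H y → a i = a i' * y ^ 3 ^ k → i = i'

/-- There are `c` unramified characters. -/
def ChrF (H : Subgroup Gam) (k c : ℕ) : Prop := ∃ (A : Type) (η : A → Gam → ZMod (3 ^ k)),
  c ≤ Nat.card A ∧ (∀ i, Sm H (η i) ∧ IsHom H (η i) ∧ ∀ w : Plc, ∀ σ ∈ H ⊓ Ine w, η i σ = 0) ∧
  ∀ i i', (∀ g ∈ H, η i g = η i' g) → i = i'

/-- There are `c` characters of the class group, given by their values at split places. -/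
def ClF (H : Subgroup Gam) (k c : ℕ) : Prop := ∃ (A : Type) (t : Finset Plc)
  (lam : A → Plc → ZMod (3 ^ k)), c ≤ Nat.card A ∧ Apart H t ∧ (∀ w ∈ t, Dec w ≤ H) ∧
  (∀ (i : A) (a : Qbar) (v : Plc → ℤ), a ≠ 0 → Fx H a →
    (∀ w ∈ t, w.V a = ((w.p : ℝ≥0) ^ v w)⁻¹) →
    (∀ w : Plc, Dec w ≤ H → Away H t w → ∃ e : ℤ, w.V a = ((w.p : ℝ≥0) ^ (3 ^ k * e))⁻¹) →
    ∑ w ∈ t, lam i w * v w = 0) ∧
  ∀ i i', (∀ w ∈ t, lam i w = lam i' w) → i = i'

/-- The logarithms of the units of a real quadratic field. -/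
theorem cn_unit (hs : Squarefree d) (h4 : d % 4 = 1) (h1 : 1 < d) {y : Qbar} (hy : Fx (GQ d) y)
    (h : ∀ w : Plc, w.V y = 1) :
    ∃ k : ℤ, Real.log ‖jC y‖ = k * Units.regulator (Kf (GQ d)) := by
  obtain ⟨ε, h2, h3⟩ := (qd_GQ hs h4 h1.ne').fund (by omega)
    (jC.comp (algebraMap (Kf (GQ d)) Qbar))
  have v0 : y ≠ 0 := w3.V.ne_zero_iff.1 (h w3 ▸ one_ne_zero)
  have i : ∀ x : Kf (GQ d), (∀ w : Plc, w.V x = 1) → IsIntegral ℤ x := fun x hx =>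
    (isIntegral_algebraMap_iff (algebraMap (Kf (GQ d)) Qbar).injective).1
      (isIntegral_of_V fun w => (hx w).le)
  let x : Kf (GQ d) := ⟨y, b3a_fx.1 hy⟩
  have x0 : x ≠ 0 := fun e => v0 (congrArg Subtype.val e)
  let u : (𝓞 (Kf (GQ d)))ˣ := .mkOfMulEqOne ⟨x, i x h⟩ ⟨x⁻¹, i _ fun w => by
    rw [IntermediateField.coe_inv, map_inv₀, h, inv_one]⟩ (Subtype.ext (mul_inv_cancel₀ x0))
  let f : 𝓞 (Kf (GQ d)) →+* ℂ := (jC.comp (algebraMap (Kf (GQ d)) Qbar)).comp (algebraMap _ _)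
  obtain ⟨k, e⟩ := h3 u
  have h5 : ‖f (ε ^ k : (𝓞 (Kf (GQ d)))ˣ)‖ = ‖f ε‖ ^ k := by
    rw [← norm_zpow]
    exact congrArg norm ((congrArg Units.val (map_zpow (Units.map f.toMonoidHom) ε k)).trans
      (Units.val_zpow_eq_zpow_val _ _))
  refine ⟨k, ?_⟩
  change Real.log ‖f u‖ = _
  change Real.log ‖f ε‖ = _ at h2
  rcases e with e | e
  · rw [e, h5, Real.log_zpow, h2]
  · rw [e, Units.val_neg, map_neg, norm_neg, h5, Real.log_zpow, h2]

section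

variable [TwD] {n D : ℕ}

theorem GM_eq : GM = GQ (-TwD.m) := rfl

theorem chi_D (hn : Nk n) (e : n = TwD.m * D) (g : Gam) :
    chi D g = chi (-n) g * chi (-TwD.m) g := by
  have h1 := hn.toNk.pos
  have h2 := TwD.pos
  have h3 : D ≠ 0 := by
    rintro rfl
    omega
  rw [← chi_mul (by omega) (by omega), show (-n : ℤ) * -TwD.m = TwD.m ^ 2 * D by
    rw [e]; push_cast; ring, chi_mul (by positivity) (by omega), chi_sq, one_mul]

theorem GB_le_D (hn : Nk n) (e : n = TwD.m * D) : GB n ≤ GQ D := fun g hg => by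
  rw [mem_GQ, chi_D hn e, mem_GQ.1 hg.1, mem_GQ.1 hg.2, one_mul]

theorem cn_D (hn : Nk n) (e : n = TwD.m * D) : Squarefree (D : ℤ) ∧ D % 12 = 5 := by
  refine ⟨Int.squarefree_natCast.2 (hn.sqf.squarefree_of_dvd ⟨TwD.m, e.trans (mul_comm _ _)⟩), ?_⟩
  have h1 := hn.m12
  rw [e, Nat.mul_mod, hn.m7] at h1
  omega

end

end Pool.Agent.H3.T
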