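import Mathlib

/-! The limit formula of Kronecker: sums and integrals of negative powers of a norm. -/

set_option autoImplicit false

open Filter Topology Real MeasureTheory Set

namespace Pool.Agent.H3.T

variable {z τ : ℂ} {s y : ℝ}

theorem cna1_summable (hτ : 0 < τ.im) (hs : 1 < s) :
    Summable fun p : ℤ × ℤ => Complex.normSq (p.1 * τ + p.2) ^ (-s) := by
  rw [← (finTwoArrowEquiv ℤ).summable_iff]
  refine ((EisensteinSeries.summable_one_div_norm_rpow (k := 2 * s) (by linarith)).mul_left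
    (EisensteinSeries.r ⟨τ, hτ⟩ ^ (-(2 * s)))).of_nonneg_of_le
    (fun _ => rpow_nonneg (Complex.normSq_nonneg _) _) fun x => ?_
  refine le_of_eq_of_le ?_ (EisensteinSeries.summand_bound ⟨τ, hτ⟩ (by linarith) x)
  simp only [Function.comp_apply]
  rw [Complex.normSq_eq_norm_sq, ← rpow_natCast, ← rpow_mul (norm_nonneg _)]
  congr 1
  push_cast
  ring

theorem cna1_le (hs : 1 ≤ s) (t : ℝ) : ‖(t ^ 2 + 1) ^ (-s)‖ ≤ (1 + t ^ 2)⁻¹ := by
  rw [norm_of_nonneg (by positivity), add_comm 1, ← rpow_neg_one]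
  exact rpow_le_rpow_of_exponent_le (by nlinarith) (by linarith)

theorem cna1_cont (s : ℝ) : Continuous fun t : ℝ => (t ^ 2 + 1) ^ (-s) :=
  Continuous.rpow_const (by fun_prop) fun t => Or.inl (by positivity)

theorem cna1_one : ∫ t : ℝ, (t ^ 2 + 1) ^ (-(1 : ℝ)) = π := by
  rw [← integral_univ_inv_one_add_sq]
  simp only [rpow_neg_one, add_comm]

theorem cna1_lim : Tendsto (fun s : ℝ => ∫ t : ℝ, (t ^ 2 + 1) ^ (-s)) (𝓝[>] 1) (𝓝 π) := by
  rw [← cna1_one]
  refine tendsto_integral_filter_of_dominated_convergence (fun t => (1 + t ^ 2)⁻¹)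
    (Eventually.of_forall fun s => (cna1_cont s).aestronglyMeasurable) ?_
    integrable_inv_one_add_sq (Eventually.of_forall fun t => ?_)
  · filter_upwards [self_mem_nhdsWithin] with s hs using
      Eventually.of_forall (cna1_le (le_of_lt hs))
  · exact ((continuous_const_rpow (by positivity)).comp continuous_neg).continuousAt.tendsto.mono_left
      nhdsWithin_le_nhds

/-- The profile along a horizontal line. -/
noncomputable def cna1_f (y s u : ℝ) : ℝ := (u ^ 2 + y ^ 2) ^ (-s)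

theorem cna1_pos (y s u : ℝ) : 0 ≤ cna1_f y s u := rpow_nonneg (by positivity) _

theorem cna1_anti (hy : 0 < y) (hs : 1 ≤ s) : AntitoneOn (cna1_f y s) (Ici 0) :=
  fun _ hu _ _ h => rpow_le_rpow_of_nonpos (by positivity)
    (add_le_add_left (pow_le_pow_left₀ hu h 2) _) (by linarith)

theorem cna1_eq (hy : 0 < y) (s u : ℝ) :
    cna1_f y s u = y ^ (-(2 * s)) * ((u / y) ^ 2 + 1) ^ (-s) := by
  rw [cna1_f, ← mul_neg, rpow_mul hy.le, ← mul_rpow (by positivity) (by positivity), rpow_two]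
  congr 1
  field_simp

theorem cna1_int (hy : 0 < y) (hs : 1 ≤ s) : Integrable (cna1_f y s) := by
  rw [funext (cna1_eq hy s)]
  exact ((integrable_inv_one_add_sq.mono' (cna1_cont s).aestronglyMeasurable
    (Eventually.of_forall (cna1_le hs))).comp_div hy.ne').const_mul _

theorem cna1_val (hy : 0 < y) (s : ℝ) : 2 * ∫ u in Ioi 0, cna1_f y s u =
    (∫ t : ℝ, (t ^ 2 + 1) ^ (-s)) * y ^ (1 - 2 * s) := by
  rw [← integral_comp_abs]
  have h : ∀ u, cna1_f y s |u| = cna1_f y s u := fun u => by rw [cna1_f, cna1_f, sq_abs]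
  simp only [h, cna1_eq hy]
  rw [integral_const_mul, Measure.integral_comp_div (fun t : ℝ => (t ^ 2 + 1) ^ (-s)),
    abs_of_pos hy, sub_eq_add_neg, rpow_add hy, rpow_one, smul_eq_mul]
  ring

theorem cna1_half (hy : 0 < y) (hs : 1 ≤ s) {a : ℝ} (h0 : 0 ≤ a) (h1 : a ≤ 1) :
    (Summable fun n : ℕ => cna1_f y s (n + a)) ∧
      |∑' n : ℕ, cna1_f y s (n + a) - ∫ u in Ioi 0, cna1_f y s u| ≤ y ^ (-(2 * s)) := by
  have hA := cna1_anti hy hs
  have hI : IntegrableOn (cna1_f y s) (Ioi 0) := (cna1_int hy hs).integrableOn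
  have hP : ∀ t ∈ Ioi (0 : ℝ), 0 ≤ cna1_f y s t := fun t _ => cna1_pos y s t
  have s0 := hA.summable_of_integrableOn_Ioi_zero hI hP
  have k1 : ∀ n : ℕ, cna1_f y s (n + a) ≤ cna1_f y s n := fun n =>
    hA (Nat.cast_nonneg (α := ℝ) n) (add_nonneg (Nat.cast_nonneg n) h0) (by linarith)
  have k2 : ∀ n : ℕ, cna1_f y s (n + 1 : ℕ) ≤ cna1_f y s (n + a) := fun n =>
    hA (add_nonneg (Nat.cast_nonneg n) h0) (Nat.cast_nonneg (α := ℝ) _) (by push_cast; linarith)
  have s1 := s0.of_nonneg_of_le (fun n => cna1_pos _ _ _) k1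
  have k3 := s1.tsum_le_tsum k1 s0
  have k4 := ((summable_nat_add_iff 1).2 s0).tsum_le_tsum k2 s1
  have k5 := hA.tsum_le_integral hI hP
  have k6 := hA.integral_le_tsum s0 hP
  have k7 := s0.tsum_eq_zero_add
  have k8 : cna1_f y s 0 = y ^ (-(2 * s)) := by simp [cna1_eq hy]
  rw [Nat.cast_zero] at k7
  exact ⟨s1, abs_le.2 ⟨by linarith, by linarith⟩⟩

theorem cna1_sum (hz : 0 < z.im) (hs : 1 ≤ s) :
    HasSum (fun k : ℤ => Complex.normSq (z + k) ^ (-s))
      (∑' n : ℕ, cna1_f z.im s (n + Int.fract z.re) +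
        ∑' n : ℕ, cna1_f z.im s (n + (1 - Int.fract z.re))) := by
  rw [← (Equiv.subRight ⌊z.re⌋).hasSum_iff]
  have h0 := Int.fract_nonneg z.re
  have h1 := (Int.fract_lt_one z.re).le
  refine HasSum.of_nat_of_neg_add_one ?_ ?_
  · convert (cna1_half hz hs h0 h1).1.hasSum using 2 with n
    simp only [Function.comp_apply, Equiv.subRight_apply, cna1_f, Complex.normSq_apply]
    congr 1
    simp
    rw [Int.fract]
    ring
  · convert (cna1_half hz hs (sub_nonneg.2 h1) (sub_le_self _ h0)).1.hasSum using 2 with n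
    simp only [Function.comp_apply, Equiv.subRight_apply, cna1_f, Complex.normSq_apply]
    congr 1
    simp
    rw [Int.fract]
    ring

theorem cna1_var (hz : 0 < z.im) (hs : 1 ≤ s) :
    |∑' k : ℤ, Complex.normSq (z + k) ^ (-s) -
      (∫ t : ℝ, (t ^ 2 + 1) ^ (-s)) * z.im ^ (1 - 2 * s)| ≤ 2 * z.im ^ (-(2 * s)) := by
  have h0 := Int.fract_nonneg z.re
  have h1 := (Int.fract_lt_one z.re).le
  have k1 := abs_le.1 (cna1_half hz hs h0 h1).2
  have k2 := abs_le.1 (cna1_half hz hs (sub_nonneg.2 h1) (sub_le_self _ h0)).2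
  rw [(cna1_sum hz hs).tsum_eq, ← cna1_val hz]
  exact abs_le.2 ⟨by linarith, by linarith⟩

theorem cna1_slim (hz : 0 < z.im) :
    Tendsto (fun s : ℝ => ∑' k : ℤ, Complex.normSq (z + k) ^ (-s)) (𝓝[>] 1)
      (𝓝 (∑' k : ℤ, Complex.normSq (z + k) ^ (-(1 : ℝ)))) := by
  have hp : ∀ k : ℤ, 0 < Complex.normSq (z + k) := fun k => Complex.normSq_pos.2 fun h => by
    have := congrArg Complex.im h
    simp at this
    linarith
  refine tendsto_tsum_of_dominated_convergence
    ((cna1_sum hz le_rfl).summable.add (cna1_sum hz one_le_two).summable) (fun k => ?_) ?_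
  · exact ((continuous_const_rpow (hp k).ne').comp continuous_neg).continuousAt.tendsto.mono_left
      nhdsWithin_le_nhds
  · filter_upwards [Ioo_mem_nhdsGT one_lt_two] with s hs k
    rw [norm_of_nonneg (rpow_nonneg (hp k).le _)]
    rcases le_total 1 (Complex.normSq (z + k)) with h | h
    · exact (rpow_le_rpow_of_exponent_le h (neg_le_neg hs.1.le)).trans
        (le_add_of_nonneg_right (rpow_nonneg (hp k).le _))
    · exact (rpow_le_rpow_of_exponent_ge (hp k) h (neg_le_neg hs.2.le)).trans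
        (le_add_of_nonneg_left (rpow_nonneg (hp k).le _))

end Pool.Agent.H3.T
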