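import Pool.Agent.Lib.MP_696deb_nt.JFun

/-! The cotangent series on a horizontal line and the logarithm of the discriminant. -/

set_option autoImplicit false

open Filter Topology Real

namespace Pool.Agent.H3.T
open Pool.Agent.Lib.MP_696deb_nt

variable {z τ : ℂ}

theorem cna2_cot (hz : 0 < z.im) :
    ∑' k : ℤ, Complex.normSq (z + k) ^ (-(1 : ℝ)) - π / z.im = 2 * π / z.im *
    (Complex.exp (2 * π * Complex.I * z) / (1 - Complex.exp (2 * π * Complex.I * z))).re := by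
  have h0 : z ∈ Complex.integerComplement := by
    rintro ⟨n, rfl⟩
    simp at hz
  have h1 := (summable_cotTerm h0).hasSum
  rw [← cot_series_rep' h0] at h1
  obtain ⟨f, hf⟩ : ∃ f : ℤ → ℝ, ∀ k, f k = (Complex.normSq (z + k))⁻¹ := ⟨_, fun _ => rfl⟩
  have f0 : ∀ k, 0 ≤ f k := fun k => hf k ▸ inv_nonneg.2 (Complex.normSq_nonneg _)
  have f1 : ∀ k : ℤ, (1 / (z + k)).im * (-z.im⁻¹) = f k := fun k => by
    rw [hf, one_div, Complex.inv_im, Complex.add_im, Complex.intCast_im, add_zero]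
    field_simp
  have h2 : HasSum (fun n : ℕ => f (n + 1) + f (-(n + 1)))
      ((π * Complex.cot (π * z) - 1 / z).im * (-z.im⁻¹)) := by
    refine ((Complex.hasSum_im h1).mul_right (-z.im⁻¹)).congr_fun fun n => ?_
    rw [← f1, ← f1, cotTerm, Complex.add_im, add_mul, add_comm, sub_eq_add_neg]
    push_cast
    rfl
  have s1 : Summable fun n : ℕ => f (n + 1) :=
    h2.summable.of_nonneg_of_le (fun _ => f0 _) fun _ => le_add_of_nonneg_right (f0 _)
  have s2 : Summable fun n : ℕ => f (-(n + 1)) :=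
    h2.summable.of_nonneg_of_le (fun _ => f0 _) fun _ => le_add_of_nonneg_left (f0 _)
  have h3 : 1 - Complex.exp (2 * π * Complex.I * z) ≠ 0 := fun h => by
    have := norm_q1_lt hz
    rw [q1, ← sub_eq_zero.1 h] at this
    simp at this
  have h4 : Complex.cot (π * z) = -Complex.I * (1 + 2 * (Complex.exp (2 * π * Complex.I * z) /
      (1 - Complex.exp (2 * π * Complex.I * z)))) := by
    rw [Complex.cot_pi_eq_exp_ratio, mul_comm Complex.I, ← div_div, Complex.div_I]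
    field_simp
    ring
  simp only [rpow_neg_one, ← hf]
  rw [tsum_of_add_one_of_neg_add_one s1 s2, add_right_comm, ← s1.tsum_add s2, h2.tsum_eq, ← f1,
    h4]
  generalize Complex.exp _ / _ = w
  simp
  field_simp
  ring

theorem cna2_sum {q : ℂ} (hq : ‖q‖ < 1) :
    Summable fun p : ℕ × ℕ => (q ^ (p.2 + 1)) ^ (p.1 + 1) / (p.1 + 1 : ℂ) := by
  have hg := summable_geometric_of_lt_one (norm_nonneg _) hq
  have h : Summable fun p : ℕ × ℕ => ‖q‖ ^ p.1 * ‖q‖ ^ p.2 :=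
    hg.mul_of_nonneg hg (fun _ => by positivity) fun _ => by positivity
  refine Summable.of_norm_bounded h fun p => ?_
  rw [norm_div, ← pow_mul, norm_pow, ← pow_add, ← Nat.cast_succ, Complex.norm_natCast]
  refine (div_le_self (by positivity) (by simp)).trans
    (pow_le_pow_of_le_one (norm_nonneg _) hq.le ?_)
  nlinarith [Nat.zero_le (p.1 * p.2)]

theorem cna2_eul {q : ℂ} (hq : ‖q‖ < 1) : ∃ S : ℂ,
    HasSum (fun m : ℕ => 1 / (m + 1 : ℂ) * (q ^ (m + 1) / (1 - q ^ (m + 1)))) S ∧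
      eul q = Complex.exp (-S) := by
  have h0 : ∀ m : ℕ, ‖q ^ (m + 1)‖ < 1 := fun m => by
    rw [norm_pow]
    exact pow_lt_one₀ (norm_nonneg _) hq m.succ_ne_zero
  obtain ⟨S, hS⟩ := cna2_sum hq
  have h1 : HasSum (fun p : ℕ × ℕ => (q ^ (p.1 + 1)) ^ (p.2 + 1) / (p.2 + 1 : ℂ)) S :=
    (Equiv.prodComm ℕ ℕ).hasSum_iff.1 hS
  have h2 : ∀ m : ℕ, HasSum (fun k : ℕ => (q ^ (k + 1)) ^ (m + 1) / (m + 1 : ℂ))
      (1 / (m + 1 : ℂ) * (q ^ (m + 1) / (1 - q ^ (m + 1)))) := fun m => by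
    rw [div_eq_mul_inv (q ^ _), ← mul_assoc]
    refine ((hasSum_geometric_of_norm_lt_one (h0 m)).mul_left
      (1 / (m + 1 : ℂ) * q ^ (m + 1))).congr_fun fun k => ?_
    ring
  have h3 : ∀ k : ℕ, HasSum (fun m : ℕ => (q ^ (k + 1)) ^ (m + 1) / (m + 1 : ℂ))
      (-Complex.log (1 - q ^ (k + 1))) := fun k => Complex.hasSum_taylorSeries_neg_log' (h0 k)
  have h4 : HasSum (fun k : ℕ => Complex.log (1 - q ^ (k + 1))) (-S) := by
    simpa only [neg_neg] using (h1.prod_fiberwise h3).neg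
  refine ⟨S, hS.prod_fiberwise h2, (Complex.hasProd_of_hasSum_log (fun k h => ?_) h4).tprod_eq⟩
  have := h0 k
  rw [← sub_eq_zero.1 h] at this
  simp at this

theorem cna2_log (hτ : 0 < τ.im) : HasSum (fun m : ℕ => 1 / (m + 1 : ℝ) *
    (Complex.exp (2 * π * Complex.I * ((m + 1 : ℕ) * τ)) /
      (1 - Complex.exp (2 * π * Complex.I * ((m + 1 : ℕ) * τ)))).re)
    (-(log ‖Dl τ‖ + 2 * π * τ.im) / 24) := by
  obtain ⟨S, h2, h4⟩ := cna2_eul (norm_q1_lt hτ)
  have h5 : -(log ‖Dl τ‖ + 2 * π * τ.im) / 24 = S.re := by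
    rw [Dl_eq, norm_mul, norm_pow, h4, norm_q1, Complex.norm_exp, ← exp_nat_mul, ← exp_add, log_exp,
      Complex.neg_re]
    push_cast
    ring
  rw [h5]
  refine (Complex.hasSum_re h2).congr_fun fun m => ?_
  rw [mul_left_comm, Complex.exp_nat_mul, ← Complex.re_ofReal_mul, q1]
  push_cast
  rfl

end Pool.Agent.H3.T
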