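import Pool.Agent.Lib.MP_696deb_nt.JFun
import Pool.Agent.Lib.MP_23455a_nt.H4.CNa1
import Pool.Agent.Lib.MP_23455a_nt.H4.CNa2

/-! The limit formula of Kronecker: the pieces. -/

set_option autoImplicit false

open Filter Topology Real MeasureTheory

namespace Pool.Agent.H3.T
open Pool.Agent.Lib.MP_696deb_nt (Dl)

/-- The real analytic Eisenstein series. -/
noncomputable def Ez (τ : ℂ) (s : ℝ) : ℝ :=
  ∑' p : ℤ × ℤ, τ.im ^ s * Complex.normSq (p.1 * τ + p.2) ^ (-s)

/-- The logarithm of the invariant absolute value of the discriminant. -/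
noncomputable def Lam (τ : ℂ) : ℝ := log (τ.im ^ 6 * ‖Dl τ‖)

/-- The integral in the constant term. -/
noncomputable def klI (s : ℝ) : ℝ := ∫ t : ℝ, (t ^ 2 + 1) ^ (-s)

/-- The sum over a line. -/
noncomputable def klS (z : ℂ) (s : ℝ) : ℝ := ∑' k : ℤ, Complex.normSq (z + k) ^ (-s)

variable {z τ : ℂ} {s : ℝ}

theorem kl_summable (hτ : 0 < τ.im) (hs : 1 < s) :
    Summable fun p : ℤ × ℤ => Complex.normSq (p.1 * τ + p.2) ^ (-s) :=
  cna1_summable hτ hs

theorem klI_lim : Tendsto klI (𝓝[>] 1) (𝓝 π) := cna1_lim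

theorem klI_one : klI 1 = π := cna1_one

/-- The sum differs from the integral by at most the total variation. -/
theorem kl_var (hz : 0 < z.im) (hs : 1 ≤ s) :
    |klS z s - klI s * z.im ^ (1 - 2 * s)| ≤ 2 * z.im ^ (-(2 * s)) := cna1_var hz hs

theorem klS_lim (hz : 0 < z.im) : Tendsto (klS z) (𝓝[>] 1) (𝓝 (klS z 1)) := cna1_slim hz

theorem kl_cot (hz : 0 < z.im) : klS z 1 - π / z.im = 2 * π / z.im *
    (Complex.exp (2 * π * Complex.I * z) / (1 - Complex.exp (2 * π * Complex.I * z))).re :=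
  cna2_cot hz

theorem kl_log (hτ : 0 < τ.im) : HasSum (fun m : ℕ => 1 / (m + 1 : ℝ) *
    (Complex.exp (2 * π * Complex.I * ((m + 1 : ℕ) * τ)) /
      (1 - Complex.exp (2 * π * Complex.I * ((m + 1 : ℕ) * τ)))).re)
    (-(log ‖Dl τ‖ + 2 * π * τ.im) / 24) := cna2_log hτ

end Pool.Agent.H3.T
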