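import Pool.Agent.Lib.MP_23455a_nt.H4.CNa

/-! The limit formula of Kronecker. -/

set_option autoImplicit false

open Filter Topology Real

namespace Pool.Agent.H3.T

variable {τ : ℂ} {s : ℝ}

theorem klb_even {f : ℤ → ℝ} (hf : Summable f) (he : ∀ n, f (-n) = f n) :
    ∑' n, f n = f 0 + 2 * ∑' n : ℕ, f (n + 1) := by
  have h1 : Summable fun n : ℕ => f (n + 1) :=
    hf.comp_injective (i := fun n : ℕ => (n + 1 : ℤ)) fun a b h => by simpa using h
  rw [tsum_of_add_one_of_neg_add_one h1 (by simpa only [he] using h1)]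
  simp only [he]
  ring

theorem klb_neg (z : ℂ) (s : ℝ) : klS (-z) s = klS z s := by
  rw [klS, klS, ← (Equiv.neg ℤ).tsum_eq]
  refine tsum_congr fun k => ?_
  rw [Equiv.neg_apply, Int.cast_neg, ← neg_add, Complex.normSq_neg]

theorem klb_sum (hτ : 0 < τ.im) (hs : 1 < s) : Summable fun m : ℤ => klS (m * τ) s :=
  (kl_summable hτ hs).prod

theorem klb_sum' (hτ : 0 < τ.im) (hs : 1 < s) : Summable fun m : ℕ => klS ((m + 1 : ℕ) * τ) s := by
  have := (klb_sum hτ hs).comp_injective (i := fun n : ℕ => ((n + 1 : ℕ) : ℤ))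
    fun a b h => by simpa using h
  simpa only [Function.comp_def, Int.cast_natCast] using this

theorem klb_pow {a : ℝ} (ha : a < -1) : Summable fun m : ℕ => (m + 1 : ℝ) ^ a := by
  have := (summable_nat_add_iff 1).2 (Real.summable_nat_rpow.2 ha)
  simpa only [Nat.cast_add, Nat.cast_one] using this

theorem klb_im (τ : ℂ) (m : ℕ) : (((m + 1 : ℕ) : ℂ) * τ).im = (m + 1) * τ.im := by simp

theorem klb_le : 𝓝[>] (1 : ℝ) ≤ 𝓝 1 := nhdsWithin_le_nhds

theorem klb_rpow {y : ℝ} (hy : 0 < y) {f : ℝ → ℝ} (hf : Continuous f) :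
    Tendsto (fun s : ℝ => y ^ f s) (𝓝[>] 1) (𝓝 (y ^ f 1)) :=
  (((Real.continuous_const_rpow hy.ne').comp hf).tendsto 1).mono_left klb_le

theorem klb_two : Tendsto (fun s : ℝ => ∑' k : ℕ, (k + 1 : ℝ) ^ (-(2 * s))) (𝓝[>] 1)
    (𝓝 (π ^ 2 / 6)) := by
  have h : HasSum (fun k : ℕ => (k + 1 : ℝ) ^ (-(2 * (1 : ℝ)))) (π ^ 2 / 6) := by
    have := (hasSum_nat_add_iff' 1).2 hasSum_zeta_two
    simp only [Finset.range_one, Finset.sum_singleton, Nat.cast_zero, ne_eq, OfNat.ofNat_ne_zero,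
      not_false_eq_true, zero_pow, div_zero, sub_zero] at this
    have e : (fun k : ℕ => (k + 1 : ℝ) ^ (-(2 * (1 : ℝ)))) = fun n : ℕ => 1 / ((n + 1 : ℕ) : ℝ) ^ 2 :=
      funext fun k => by
        rw [mul_one, Real.rpow_neg (by positivity), Real.rpow_two, one_div, Nat.cast_succ]
    rw [e]
    exact this
  rw [← h.tsum_eq]
  refine tendsto_tsum_of_dominated_convergence h.summable
    (fun k => klb_rpow (by positivity) (by fun_prop)) ?_
  filter_upwards [self_mem_nhdsWithin] with s (hs : 1 < s) k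
  rw [Real.norm_of_nonneg (by positivity)]
  exact Real.rpow_le_rpow_of_exponent_le (by simp) (by linarith)

theorem kl_split (hτ : 0 < τ.im) (hs : 1 < s) : Ez τ s = 2 * τ.im ^ s *
    (∑' k : ℕ, (k + 1 : ℝ) ^ (-(2 * s)) + ∑' m : ℕ, klS ((m + 1 : ℕ) * τ) s) := by
  have h := kl_summable hτ hs
  have e1 : ∑' p : ℤ × ℤ, Complex.normSq (p.1 * τ + p.2) ^ (-s) = ∑' m : ℤ, klS (m * τ) s :=
    h.tsum_prod
  have e2 : klS (((0 : ℤ) : ℂ) * τ) s = 2 * ∑' k : ℕ, (k + 1 : ℝ) ^ (-(2 * s)) := by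
    rw [klS, klb_even (h.prod_factor 0) fun n => by simp]
    have : Complex.normSq (((0 : ℤ) : ℂ) * τ + ((0 : ℤ) : ℂ)) ^ (-s) = 0 := by
      simp only [Int.cast_zero, zero_mul, add_zero, map_zero]
      exact Real.zero_rpow (by linarith)
    rw [this, zero_add]
    congr 1
    refine tsum_congr fun k => ?_
    rw [Int.cast_zero, zero_mul, zero_add, Complex.normSq_intCast, neg_mul_eq_mul_neg,
      Real.rpow_mul (by positivity), Real.rpow_two, sq]
    push_cast
    rfl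
  rw [Ez, tsum_mul_left, e1, klb_even (klb_sum hτ hs)
    fun n => by rw [Int.cast_neg, neg_mul, klb_neg], e2]
  push_cast
  ring

theorem kl_zeta {y : ℝ} (hy : 0 < y) : Tendsto
    (fun s : ℝ => (y ^ (1 - s) - 1) * ∑' m : ℕ, (m + 1 : ℝ) ^ (1 - 2 * s)) (𝓝[>] 1)
    (𝓝 (-log y / 2)) := by
  have h1 : Tendsto (fun s : ℝ => 2 * s - 1) (𝓝[>] 1) (𝓝[>] 1) := by
    refine tendsto_nhdsWithin_iff.2 ⟨?_, ?_⟩
    · have : Continuous fun s : ℝ => 2 * s - 1 := by fun_prop
      exact (this.tendsto' 1 1 (by norm_num)).mono_left klb_le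
    · filter_upwards [self_mem_nhdsWithin] with s (hs : 1 < s)
      change 1 < 2 * s - 1
      linarith
  have h2 := tendsto_sub_mul_tsum_nat_rpow.comp h1
  have h3 : HasDerivAt (fun s : ℝ => y ^ (1 - s)) (-log y) 1 := by
    have := ((hasDerivAt_id (1 : ℝ)).const_sub 1).const_rpow hy
    simpa using this
  have h4 := (hasDerivAt_iff_tendsto_slope.1 h3).mono_left (nhdsGT_le_nhdsNE 1)
  have h5 := (h4.mul h2).div_const 2
  rw [mul_one] at h5
  refine h5.congr' ?_
  filter_upwards [self_mem_nhdsWithin] with s (hs : 1 < s)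
  have e : ∑' n : ℕ, 1 / (n : ℝ) ^ (2 * s - 1) = ∑' m : ℕ, (m + 1 : ℝ) ^ (1 - 2 * s) := by
    rw [(Real.summable_one_div_nat_rpow.2 (by linarith)).tsum_eq_zero_add, Nat.cast_zero,
      Real.zero_rpow (by linarith), div_zero, zero_add]
    refine tsum_congr fun m => ?_
    rw [one_div, ← Real.rpow_neg (by positivity), neg_sub]
    push_cast
    rfl
  have : s - 1 ≠ 0 := by linarith
  simp only [Function.comp_apply, slope_def_field, e, sub_self, Real.rpow_zero]
  field_simp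
  ring

theorem kl_rest (hτ : 0 < τ.im) : Tendsto (fun s : ℝ => ∑' m : ℕ,
    (klS ((m + 1 : ℕ) * τ) s - klI s * ((m + 1) * τ.im) ^ (1 - 2 * s))) (𝓝[>] 1)
    (𝓝 (2 * π / τ.im * (-(log ‖Lib.MP_696deb_nt.Dl τ‖ + 2 * π * τ.im) / 24))) := by
  have him : ∀ m : ℕ, 0 < (((m + 1 : ℕ) : ℂ) * τ).im := fun m => by
    rw [klb_im]
    positivity
  have h := (kl_log hτ).mul_left (2 * π / τ.im)
  rw [← h.tsum_eq]
  refine tendsto_tsum_of_dominated_convergence
    (bound := fun m : ℕ => 2 * (τ.im ^ (-(2 * (1 : ℝ))) + 1) * (m + 1 : ℝ) ^ (-2 : ℝ))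
    ((klb_pow (by norm_num)).mul_left _) (fun m => ?_) ?_
  · have a1 := (klS_lim (him m)).sub (klI_lim.mul (klb_rpow (y := (m + 1) * τ.im) (by positivity)
      (f := fun s => 1 - 2 * s) (by fun_prop)))
    convert a1 using 2
    have a2 := kl_cot (him m)
    rw [klb_im] at a2
    rw [show (1 : ℝ) - 2 * 1 = -1 by norm_num, Real.rpow_neg_one, ← div_eq_mul_inv, a2]
    have : (m + 1 : ℝ) ≠ 0 := by positivity
    field_simp
  · have a1 := (klb_rpow hτ (f := fun s => -(2 * s)) (by fun_prop)).eventually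
      (eventually_le_nhds (lt_add_one _))
    filter_upwards [self_mem_nhdsWithin, a1] with s (hs : 1 < s) h2 m
    have a2 := kl_var (him m) hs.le
    rw [klb_im] at a2
    refine a2.trans ?_
    rw [Real.mul_rpow (by positivity) hτ.le, mul_assoc, mul_comm (_ + 1 : ℝ)]
    refine mul_le_mul_of_nonneg_left (mul_le_mul ?_ h2 (by positivity) (by positivity)) zero_le_two
    exact Real.rpow_le_rpow_of_exponent_le (by simp) (by linarith)

/-- The limit formula. -/
theorem klf (hτ : 0 < τ.im) : Tendsto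
    (fun s : ℝ => Ez τ s - 2 * klI s * ∑' m : ℕ, (m + 1 : ℝ) ^ (1 - 2 * s)) (𝓝[>] 1)
    (𝓝 (-(π / 6) * Lam τ)) := by
  have h1 := klb_rpow hτ (f := fun s => s) continuous_id
  have h := ((h1.const_mul 2).mul (klb_two.add (kl_rest hτ))).add
    ((klI_lim.const_mul 2).mul (kl_zeta hτ))
  have e : -(π / 6) * Lam τ = 2 * τ.im ^ (1 : ℝ) * (π ^ 2 / 6 + 2 * π / τ.im *
      (-(log ‖Lib.MP_696deb_nt.Dl τ‖ + 2 * π * τ.im) / 24)) + 2 * π * (-log τ.im / 2) := by
    rw [Lam, Real.log_mul (by positivity) (norm_ne_zero_iff.2 (Lib.MP_696deb_nt.Dl_ne hτ)),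
      Real.log_pow, Real.rpow_one]
    field_simp
    push_cast
    ring
  rw [e]
  refine h.congr' ?_
  filter_upwards [self_mem_nhdsWithin] with s (hs : 1 < s)
  have a1 : Summable fun m : ℕ => (m + 1 : ℝ) ^ (1 - 2 * s) := klb_pow (by linarith)
  have a2 : ∀ m : ℕ, klI s * ((m + 1) * τ.im) ^ (1 - 2 * s) =
      klI s * τ.im ^ (1 - 2 * s) * (m + 1 : ℝ) ^ (1 - 2 * s) := fun m => by
    rw [Real.mul_rpow (by positivity) hτ.le]
    ring
  have a3 : τ.im ^ (1 - s) = τ.im ^ s * τ.im ^ (1 - 2 * s) := by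
    rw [← Real.rpow_add hτ]
    congr 1
    ring
  simp only [a2]
  rw [(klb_sum' hτ hs).tsum_sub (a1.mul_left _), tsum_mul_left, kl_split hτ hs, a3]
  ring

/-- The limit formula for a combination of degree zero. -/
theorem klf_sum {ι : Type} [Fintype ι] (a : ι → ℝ) (t : ι → ℂ) (ha : ∑ i, a i = 0)
    (ht : ∀ i, 0 < (t i).im) : Tendsto (fun s : ℝ => ∑ i, a i * Ez (t i) s) (𝓝[>] 1)
    (𝓝 (-(π / 6) * ∑ i, a i * Lam (t i))) := by
  have h := tendsto_finsetSum Finset.univ fun i _ => (klf (ht i)).const_mul (a i)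
  convert h using 2 with s
  · simp only [mul_sub, Finset.sum_sub_distrib, ← Finset.sum_mul, ha, zero_mul, sub_zero]
  · rw [Finset.mul_sum]
    exact Finset.sum_congr rfl fun i _ => by ring

end Pool.Agent.H3.T
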