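import Pool.Agent.Lib.MP_23455a_nt.H4.CNk

/-! Unramified characters of a quadratic field. -/

set_option autoImplicit false

open scoped NNReal Classical
open NumberField Finset

namespace Pool.Agent.H3.T
open Pool.Agent.Lib.MP_696deb_nt.B2

variable {d : ℤ} {k c n : ℕ}

theorem cnc_mul {g h : Gam} (hg : g ∉ GQ d) (hh : h ∉ GQ d) : g * h ∈ GQ d := by
  rw [mem_GQ] at hg hh ⊢
  rw [map_mul, (Int.units_eq_one_or _).resolve_left hg, (Int.units_eq_one_or _).resolve_left hh]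
  simp

/-- All places above a prime that does not split are conjugate. -/
theorem cnc_conj {w w' : Plc} (h : ¬ Dec w ≤ GQ d) (e : w.p = w'.p) : ∃ g ∈ GQ d, g • w = w' := by
  obtain ⟨τ, h1, h2⟩ := SetLike.not_le_iff_exists.1 h
  obtain ⟨g, rfl⟩ := plc_conj e
  by_cases hg : g ∈ GQ d
  · exact ⟨g, hg, rfl⟩
  · exact ⟨g * τ, cnc_mul hg h2, by rw [mul_smul, show τ • w = w from h1]⟩

theorem cnc_two {x : ZMod (3 ^ k)} (h : x + x = 0) : x = 0 := by
  have h2 : IsUnit ((2 : ℕ) : ZMod (3 ^ k)) :=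
    (ZMod.isUnit_iff_coprime _ _).2 (Nat.Coprime.pow_right k (by norm_num))
  exact h2.mul_right_eq_zero.1 (by rw [← h]; push_cast; ring)

section Cl
open nonZeroDivisors Pool.Agent.Lib.MP_580eba_nt

variable {K : Type} [Field K] [NumberField K]

/-- A prime as a nonzero ideal. -/
def cncI (v : Pl K) : (Ideal (𝓞 K))⁰ := ⟨v.asIdeal, mem_nonZeroDivisors_of_ne_zero v.ne_bot⟩

theorem cnc_gen {G : Type} [CommGroup G] {χ χ' : ClassGroup (𝓞 K) →* G}
    (h : ∀ v : Pl K, χ (ClassGroup.mk0 (cncI v)) = χ' (ClassGroup.mk0 (cncI v))) : χ = χ' := by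
  ext x
  obtain ⟨⟨I, hI⟩, rfl⟩ := ClassGroup.mk0_surjective x
  induction I using UniqueFactorizationMonoid.induction_on_prime with
  | h₁ => simp at hI
  | h₂ I hu =>
    rw [(ClassGroup.mk0_eq_one_iff hI).2 (by rw [Ideal.isUnit_iff.1 hu]; infer_instance), map_one,
      map_one]
  | h₃ I P h0 hP ih =>
    have e : (⟨P * I, hI⟩ : (Ideal (𝓞 K))⁰) = cncI ⟨P, Ideal.isPrime_of_prime hP, hP.ne_zero⟩ *
      ⟨I, mem_nonZeroDivisors_of_ne_zero h0⟩ := rfl
    rw [e, map_mul, map_mul, map_mul, h, ih]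

/-- The divisor of a number has the trivial class. -/
theorem cnc_sum {A : Type} [AddCommGroup A] (χ : ClassGroup (𝓞 K) →* Multiplicative A) {a : K}
    (a0 : a ≠ 0) (T : Finset (Pl K))
    (h : ∀ v ∉ T, ord v a • (χ (ClassGroup.mk0 (cncI v))).toAdd = 0) :
    ∑ v ∈ T, ord v a • (χ (ClassGroup.mk0 (cncI v))).toAdd = 0 := by
  have hf := FractionalIdeal.finite_factors (FractionalIdeal.spanSingleton (𝓞 K)⁰ a)
  rw [Filter.eventually_cofinite] at hf
  rw [sum_subset (subset_union_left (s₂ := hf.toFinset)) fun v _ => h v]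
  have h1 : ∏ v ∈ T ∪ hf.toFinset, FractionalIdeal.mk0 K (cncI v) ^ ord v a =
      toPrincipalIdeal (𝓞 K) K (Units.mk0 a a0) := Units.ext (by
    refine Eq.trans ?_ ((FractionalIdeal.finprod_heightOneSpectrum_factorization' K
      (FractionalIdeal.spanSingleton_ne_zero_iff.2 a0)).trans (coe_toPrincipalIdeal
        (Units.mk0 a a0)).symm)
    rw [finprod_eq_prod_of_mulSupport_subset (s := T ∪ hf.toFinset) _ fun v hv => by
      refine mem_coe.2 (mem_union_right _ (hf.mem_toFinset.2 fun e => hv ?_))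
      simp only [e, zpow_zero], Units.coe_prod]
    exact prod_congr rfl fun v _ => by
      rw [count_eq_ord v a0, Units.val_zpow_eq_zpow_val]
      rfl)
  have h2 := congrArg (fun I => (χ (ClassGroup.mk K I)).toAdd) h1
  rw [(ClassGroup.mk_eq_one_iff (I := toPrincipalIdeal (𝓞 K) K (Units.mk0 a a0))).2 (by
    rw [coe_toPrincipalIdeal, FractionalIdeal.coe_spanSingleton]
    exact ⟨_, rfl⟩), map_one, toAdd_one] at h2
  simpa only [map_prod, map_zpow, ClassGroup.mk_mk0, toAdd_prod, toAdd_zpow] using h2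

variable {H : Subgroup Gam} [NumberField (Kf H)] {w : Plc} {v : Pl (Kf H)}

/-- The order at an unramified prime of degree one. -/
theorem cnc_ord (hw : Ine w ≤ H) (h : Un w v) {a : Kf H} (a0 : a ≠ 0) :
    w.V (a : Qbar) = ((w.p : ℝ≥0) ^ ord v a)⁻¹ := by
  obtain ⟨π, p0, hπ⟩ := exists_ord_eq v 1
  obtain ⟨e, he⟩ := V_of_fx_ine (w := w) (x := π) (fun g hg => fx_Kf π g (hw hg))
    fun k => p0 (Subtype.ext k)
  have h1 : ∀ a : Kf H, a ≠ 0 → w.V (a : Qbar) = ((w.p : ℝ≥0) ^ (e * ord v a))⁻¹ := fun a a0 => by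
    have c0 : π ^ ord v a ≠ 0 := zpow_ne_zero _ p0
    have h2 := (h.eq_one _).1 ((ord_eq_zero_iff v (div_ne_zero a0 c0)).1
      (by rw [ord_div v a0 c0, ord_zpow, hπ]; ring))
    rw [_root_.zpow_mul, ← _root_.inv_zpow, ← he, ← map_zpow₀]
    refine eq_of_div_eq_one ?_
    rw [← map_div₀]
    exact_mod_cast h2
  have h3 := h1 w.p (Nat.cast_ne_zero.2 w.prime.ne_zero)
  rw [show ((w.p : Kf H) : Qbar) = w.p by norm_cast, w.hV] at h3
  have h4 := zva_exp ((congrArg (·⁻¹) (zpow_one (w.p : ℝ≥0))).trans h3)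
  have h5 : w.V (π : Qbar) < 1 := (cfa_lt h π).1 (by
    rw [val_eq_exp v p0, hπ, ← WithZero.exp_zero, WithZero.exp_lt_exp]
    norm_num)
  rw [he, inv_lt_one₀ (zpow_pos (zero_lt_one.trans (b2a_one_lt w)) _),
    one_lt_zpow_iff_right₀ (b2a_one_lt w)] at h5
  rw [h1 a a0, Int.eq_one_of_mul_eq_one_right h5.le h4.symm, one_mul]

theorem cnc_mem (h : Un w v) {p : ℕ} (hp : p.Prime) :
    (p : 𝓞 (Kf H)) ∈ v.asIdeal ↔ w.p = p := by
  rw [← val_int_lt, cfa_lt h, ← Nat.prime_dvd_prime_iff_eq w.prime hp, ← Int.natCast_dvd_natCast,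
    ← b2c_lt]
  norm_cast

/-- The class of a prime that does not split has order at most two. -/
theorem cnc_sq (hq : Qd (Kf (GQ d)) d) {v : Pl (Kf (GQ d))} (h : Un w v) (hw : ¬ Dec w ≤ GQ d) :
    ClassGroup.mk0 (cncI v) * ClassGroup.mk0 (cncI v) = 1 := by
  have p0 : (w.p : 𝓞 (Kf (GQ d))) ≠ 0 := Nat.cast_ne_zero.2 w.prime.ne_zero
  have h1 : ∀ P : Ideal (𝓞 (Kf (GQ d))), P.IsMaximal → P ∣ Ideal.span {(w.p : 𝓞 (Kf (GQ d)))} →
      P = v.asIdeal := fun P hP hd => by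
    rw [Ideal.dvd_span_singleton] at hd
    let v' : Pl (Kf (GQ d)) := ⟨P, hP.isPrime, fun e => p0 (by simpa [e] using hd)⟩
    obtain ⟨w', hw'⟩ := exists_over v'
    obtain ⟨g, hg, rfl⟩ := cnc_conj hw ((cnc_mem hw' w.prime).1 hd).symm
    exact congrArg (·.asIdeal) (hw'.uniq (h.smul hg))
  rcases hq.cases w.prime with ⟨-, P, Q, a, b, ne, e, -⟩ | ⟨-, a⟩ | ⟨-, P, a, e, -⟩
  · exact (ne ((h1 P a ⟨Q, e.symm⟩).trans (h1 Q b ⟨P, by rw [← e, mul_comm]⟩).symm)).elim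
  · rw [cncI, (ClassGroup.mk0_eq_one_iff _).2 (h1 _ a dvd_rfl ▸ ⟨_, rfl⟩), mul_one]
  · rw [← map_mul]
    rw [h1 P a ⟨P, e.symm⟩] at e
    exact (ClassGroup.mk0_eq_one_iff _).2 ⟨_, e⟩

end Cl

open Pool.Agent.Lib.MP_580eba_nt in
theorem clF (hs : Squarefree d) (h4 : d % 4 = 1) (h1 : d ≠ 1) (h : vh d ≤ k) :
    ClF (GQ d) k (3 ^ vh d) := by
  have hq := qd_GQ hs h4 h1
  let A := ClassGroup (𝓞 (Kf (GQ d))) →* Multiplicative (ZMod (3 ^ k))
  have : Finite A := Finite.of_injective _ DFunLike.coe_injective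
  choose un hun using fun w => exists_un (H := GQ d) w
  let φ : A → Pl (Kf (GQ d)) → ZMod (3 ^ k) := fun χ v => (χ (ClassGroup.mk0 (cncI v))).toAdd
  have kill : ∀ χ w v, Un w v → ¬ Dec w ≤ GQ d → φ χ v = 0 := fun χ w v hv hw =>
    cnc_two (by rw [← toAdd_mul, ← map_mul, cnc_sq hq hv hw, map_one, toAdd_one])
  have sep : ∀ x : A × A, ∃ w, x.1 ≠ x.2 → φ x.1 (un w) ≠ φ x.2 (un w) := fun x => by
    by_cases e : x.1 = x.2
    · exact ⟨w3, fun k => (k e).elim⟩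
    · obtain ⟨v, hv⟩ := not_forall.1 (mt cnc_gen e)
      obtain ⟨w, hw⟩ := exists_over v
      exact ⟨w, fun _ k => hv (Multiplicative.toAdd.injective ((hun w).uniq hw ▸ k))⟩
  choose W hW using sep
  obtain ⟨t, t1, -, t2⟩ := exists_reps (op_GQ d) (Set.finite_range fun x => (W x).p).toFinset
  have e : classNumber (Kf (GQ d)) = Nat.card (ClassGroup (𝓞 (Kf (GQ d)))) :=
    Nat.card_eq_fintype_card.symm
  refine ⟨A, t.filter fun w => Dec w ≤ GQ d, fun χ w => φ χ (un w), ?_,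
    fun v hv w hw => t1 v (mem_filter.1 hv).1 w (mem_filter.1 hw).1,
    fun w hw => (mem_filter.1 hw).2, fun χ a v a0 ha h2 h3 => ?_, fun χ χ' h2 => ?_⟩
  · rw [vh, e] at h ⊢
    exact (cnk_card h).2
  · let x : Kf (GQ d) := ⟨a, b3a_fx.1 ha⟩
    have x0 : x ≠ 0 := fun e => a0 (congrArg Subtype.val e)
    have h5 := cnc_sum χ x0 ((t.filter fun w => Dec w ≤ GQ d).image un) fun u hu => by
      obtain ⟨w, hw⟩ := exists_over u
      by_cases hd : Dec w ≤ GQ d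
      · obtain ⟨j, hj⟩ := h3 w hd fun w' hw' g hg e =>
          hu (mem_image.2 ⟨w', hw', ((hun w').smul hg).uniq (e ▸ hw)⟩)
        rw [zva_exp ((cnc_ord ((Ine_le w).trans hd) hw x0).symm.trans hj), zsmul_eq_mul]
        rw [Int.cast_mul, show (((3 : ℤ) ^ k : ℤ) : ZMod (3 ^ k)) = 0 by
          exact_mod_cast ZMod.natCast_self (3 ^ k), zero_mul, zero_mul]
      · exact (congrArg _ (kill χ w u hw hd)).trans (smul_zero _)
    rw [sum_image fun w hw w' hw' e => by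
      obtain ⟨g, hg, e'⟩ := (hun w).conj (op_GQ d) (e ▸ hun w')
      exact t1 w (mem_filter.1 hw).1 w' (mem_filter.1 hw').1 g hg e'] at h5
    refine (sum_congr rfl fun w hw => ?_).trans h5
    rw [zva_exp ((cnc_ord ((Ine_le w).trans (mem_filter.1 hw).2) (hun w) x0).symm.trans (h2 w hw)),
      zsmul_eq_mul, mul_comm]
  · by_contra ne
    have h3 := hW (χ, χ') ne
    have h5 := t2 (W (χ, χ')) ((Set.Finite.mem_toFinset _).2 ⟨_, rfl⟩)
    simp only [Away, not_forall, not_not] at h5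
    obtain ⟨w, hw, g, hg, e⟩ := h5
    have h6 : un w = un (W (χ, χ')) := ((hun w).smul hg).uniq (by rw [e]; exact hun _)
    rw [← h6] at h3
    by_cases hd : Dec w ≤ GQ d
    · exact h3 (h2 w (mem_filter.2 ⟨hw, hd⟩))
    · exact h3 ((kill _ w _ (hun w) hd).trans (kill _ w _ (hun w) hd).symm)

theorem cnc_three (h3 : d % 3 = 2) {w : Plc} (hw : w.p = 3) : ¬ Dec w ≤ GQ d := fun h => by
  have h1 := chi_frob (a := d) (w := w) (by rw [hw]; omega) (fr_spec w)
  rw [mem_GQ.1 (h (fr_spec w).1), hw, jacobiSym.mod_left, show d % (3 : ℕ) = 2 by omega] at h1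
  norm_num at h1

theorem cnc_cy {g : Gam} (hg : g ∈ GK 3) : cy k (g ^ 3 ^ k) = 1 := by
  have h1 : ∀ j : ℕ, cyc (g ^ j) = cyc g ^ j := fun j => by
    induction j with
    | zero => rw [pow_zero, pow_zero, cyc_one]
    | succ j ih => rw [pow_succ, cyc_mul, ih, pow_succ]
  have h2 := (cle_eq_iff 1 (cyc g) 1).1 (by rw [map_one]; exact mem_GK3.1 hg)
  have h3 := dvd_sub_pow_of_dvd_sub (p := 3) (by simpa using h2) k
  rw [cy, h1, ← map_one (PadicInt.toZModPow k), cle_eq_iff]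
  exact (pow_dvd_pow _ k.le_succ).trans (by simpa using h3)

theorem cnc_om (k : ℕ) (w : Plc) : ∃ ω : Gam → ZMod (3 ^ k), Sm (Dec w) ω ∧
    IsHom (Dec w) ω ∧ ω (fr w) = 1 ∧ ∀ σ ∈ Ine w, ω σ = 0 := by
  obtain ⟨ω, o1, o2, o3⟩ := exists_deg w
  refine ⟨fun g => PadicInt.toZModPow k (ω g),
    Sm.of_continuousOn (closed_Dec w) ((cle_cont k).comp_continuousOn o1),
    fun g hg h hh => by simp only [o2 g hg h hh, map_add], ?_, fun σ hσ => ?_⟩
  · simp only [o3 1 (fr w) (by simpa using fr_spec w), Nat.cast_one, map_one]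
  · simp only [o3 0 σ ⟨hσ.1, by simpa using hσ.2⟩, Nat.cast_zero, map_zero]

variable [TwD]

theorem cnc_dual (k : ℕ) (H : Subgroup Gam) : Dual k H (fun _ => AddMonoidHom.id (ZMod (3 ^ k)))
    (fun g => AddMonoidHom.mulLeft (cy k g)) AddMonoidHom.mul where
  act := ⟨Sm.const _, fun _ => rfl, fun _ _ _ _ _ => rfl, fun _ _ _ _ => ⟨0, fun _ => rfl⟩⟩
  act' := ⟨(sm_cy k).comp AddMonoidHom.mulLeft, fun x => by simp [cy_one],
    fun g _ h _ x => by simp [cy_mul, mul_assoc],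
    fun g _ h _ => ⟨k, fun x => by simp [cnc_cy h]⟩⟩
  eqv g _ x y := by simp [mul_left_comm]
  left x h := by simpa using h 1
  right y h := by simpa using h 1

set_option linter.unusedVariables false in
/-- The existence theorem. -/
theorem chrF_of {F : CFT} (pt : PTStmt F) (hn : Nk n) (h3 : d % 3 = 2) (hG : GB n ≤ GQ d)
    (h : ClF (GQ d) k c) : ChrF (GQ d) k c := by
  obtain ⟨A, t, lam, hc, t1, t2, t3, t4⟩ := h
  have hH := op_GQ d
  have n3 : ∀ w : Plc, Dec w ≤ GQ d → w.p ≠ 3 := fun w hw e => cnc_three h3 e hw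
  have w3t : w3 ∉ t := fun h => n3 _ (t2 _ h) w3_p
  have ap : Apart (GQ d) (insert w3 t) := fun v hv w hw g hg e => by
    have e' : v.p = w.p := by rw [← e, smul_p]
    rcases mem_insert.1 hv with rfl | hv <;> rcases mem_insert.1 hw with rfl | hw
    · rfl
    · exact (n3 _ (t2 _ hw) (e' ▸ w3_p)).elim
    · exact (n3 _ (t2 _ hv) (e' ▸ w3_p)).elim
    · exact t1 v hv w hw g hg e
  have aw : ∀ w, Away (GQ d) (insert w3 t) w → w.p ≠ 3 := fun w hw e => by
    obtain ⟨g, hg, e'⟩ := cnc_conj (cnc_three h3 w3_p) (w3_p.trans e.symm)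
    exact hw w3 (mem_insert_self _ _) g hg e'
  choose ω o1 o2 o3 o4 using cnc_om k
  let x : A → Plc → Gam → ZMod (3 ^ k) := fun i w g => (if w ∈ t then lam i w else 0) * ω w g
  have x1 : ∀ i w, Sm (GQ d ⊓ Dec w) (x i w) := fun i w =>
    ((o1 w).mono inf_le_right).comp fun y => (if w ∈ t then lam i w else 0) * y
  have x2 : ∀ i w, IsHom (GQ d ⊓ Dec w) (x i w) := fun i w g hg h hh => by
    simp only [x, o2 w g hg.2 h hh.2, mul_add]
  have x3 : ∀ i w, ∀ σ ∈ Ine w, x i w σ = 0 := fun i w σ hσ => by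
    simp only [x, o4 w σ hσ, mul_zero]
  have x4 : ∀ i, ∀ w ∈ t, x i w (fr w) = lam i w := fun i w hw => by
    simp only [x, o3 w, if_pos hw, mul_one]
  have key : ∀ i, ∃ η ∈ Zu (GQ d) (fun _ => AddMonoidHom.id (ZMod (3 ^ k))) (insert w3 t),
      ∀ w ∈ insert w3 t, IsCob (GQ d ⊓ Dec w) (fun _ => AddMonoidHom.id (ZMod (3 ^ k)))
        (η - x i w) := fun i => by
    refine (pt k _ _ _ _ _ _ _ hH (normal_GQ d) (cnc_dual k _) ap
      fun w hw => ⟨aw w hw, fun _ _ _ => rfl⟩).2 (x i) (fun w _ => ⟨x1 i w, x2 i w⟩)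
      fun κ hκ => ?_
    obtain ⟨a, ha⟩ := kum_surj hH.closed hκ.1.1.1 hκ.1.1.2
    have val : ∀ w : Plc, ∃ j : ℤ, Dec w ≤ GQ d → w.V a = ((w.p : ℝ≥0) ^ j)⁻¹ := fun w => by
      by_cases hw : Dec w ≤ GQ d
      · exact (V_of_fx_ine (fun g hg => ha.fx.2 g (hw (Ine_le w hg))) ha.fx.1).imp fun _ e _ => e
      · exact ⟨0, fun k => (hw k).elim⟩
    choose v hv using val
    have e : ∀ w, cupb AddMonoidHom.mul (fun g => AddMonoidHom.mulLeft (cy k g)) (x i w) κ =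
        cup k (x i w) κ := fun w => by
      funext g h
      simp [cupb, cup, mul_assoc]
    simp only [e]
    have hk : ∀ w : Plc, Kum k (GQ d ⊓ Dec w) a κ := fun w => ha.mono inf_le_left
    rw [sum_insert w3t, F.unr hH (c2_cup (x1 i w3) (x2 i w3) (hk w3).sm (hk w3).coc)
      fun g _ h _ σ _ σ' _ => by simp [cup, x, w3t], zero_add]
    refine (sum_congr rfl fun w hw => ?_).trans
      (t3 i a v ha.fx.1 ha.fx.2 (fun w hw => hv w (t2 w hw)) fun w hw hw' => ?_)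
    · rw [F.kum (v w) hH ((Ine_le w).trans (t2 w hw)) (t2 w hw (fr_spec w).1) (by
        rw [inf_eq_right.2 (t2 w hw), Subgroup.relIndex_self, pow_one]
        exact fr_spec w) (x1 i w) (x2 i w) (x3 i w) (hk w) (hv w (t2 w hw)), x4 i w hw]
    · obtain ⟨j, hj⟩ := un_val (w := w) (ha.mono hG) fun σ hσ =>
        hκ.2 w (fun u hu g hg e => by
          rcases mem_insert.1 hu with rfl | hu
          · exact n3 w hw (by rw [← e, smul_p, w3_p])
          · exact hw' u hu g hg e) σ ⟨hG hσ.1, hσ.2, hσ.1.2⟩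
      rw [hv w hw, zva_pow] at hj
      obtain ⟨j', hj'⟩ : (3 : ℤ) ^ k ∣ v w := IsCoprime.dvd_of_dvd_mul_left
        (IsCoprime.pow_left (by norm_num)) ⟨j, zva_exp hj⟩
      exact ⟨j', by rw [hv w hw, hj']⟩
  choose η h1 h2 using key
  have hom : ∀ i, IsHom (GQ d) (η i) := fun i => (h1 i).1.1.2
  have loc : ∀ i, ∀ w ∈ insert w3 t, ∀ g ∈ GQ d ⊓ Dec w, η i g = x i w g := fun i w hw g hg => by
    obtain ⟨y, hy⟩ := h2 i w hw
    exact sub_eq_zero.1 ((hy g hg).trans (sub_self y))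
  refine ⟨A, η, hc, fun i => ⟨(h1 i).1.1.1, hom i, fun w σ hσ => ?_⟩, fun i i' e => ?_⟩
  · by_cases hw : Away (GQ d) (insert w3 t) w
    · refine cnc_two ((hom i σ hσ.1 σ hσ.1).symm.trans ((h1 i).2 w hw _
        ⟨mul_mem hσ.1 hσ.1, mul_mem hσ.2 hσ.2, ?_⟩))
      exact (em (σ ∈ GM)).elim (fun k => mul_mem k k) fun k => mul_mem_GM k k
    · simp only [Away, not_forall, not_not] at hw
      obtain ⟨v, hv, g, hg, rfl⟩ := hw
      have a1 := mem_Ine_smul.1 hσ.2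
      have a2 : g⁻¹ * σ * g ∈ GQ d := mul_mem (mul_mem (inv_mem hg) hσ.1) hg
      have a3 := (loc i v hv _ ⟨a2, a1.1⟩).trans (x3 i v _ a1)
      have a4 := hom i g hg _ a2
      rw [a3, add_zero, ← mul_assoc, mul_inv_cancel_left, hom i σ hσ.1 g hg] at a4
      simpa using a4
  · refine t4 i i' fun w hw => ?_
    have a1 : fr w ∈ GQ d ⊓ Dec w := ⟨t2 w hw (fr_spec w).1, (fr_spec w).1⟩
    rw [← x4 i w hw, ← x4 i' w hw, ← loc i w (mem_insert_of_mem hw) _ a1,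
      ← loc i' w (mem_insert_of_mem hw) _ a1, e _ a1.1]

end Pool.Agent.H3.T
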