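import Pool.Agent.Lib.MP_23455a_nt.H4.D1b
import Pool.Agent.Lib.MP_696deb_nt.B2.CMf
import Pool.Agent.Lib.MP_696deb_nt.B2.CMc

/-! The existence of the data of the twist and of the genus character. -/

set_option autoImplicit false
set_option linter.unusedSectionVars false

open scoped NNReal Classical
open Finset NumberTheorySymbols

namespace Pool.Agent.H3.T
open Pool.Agent.Lib.MP_696deb_nt.B2 Pool.Agent.Lib.MP_696deb_nt.B2.CM

variable {n m : ℕ}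

theorem ex_one {p : ℕ} (hp : p.Prime) (h2 : p ≠ 2) (h3 : p ≠ 3) : ∃ τ : Gam,
    (∀ (ε : ZMod (3 ^ 1)) (R : H3.Rp ε), R.ρ τ = 1) ∧
    (∀ b, Ok b 1 → Squarefree b → p ∣ b → τ ∉ GK b) ∧ ∀ b, ¬ p ∣ b → τ ∈ GK b := by
  obtain ⟨w, rfl⟩ := exists_plc hp
  obtain ⟨τ, hτ⟩ := Pool.Agent.Lib.MP_696deb_nt.B2.exists_gen h2
  refine ⟨τ, fun ε R => R.unr w h3 τ hτ.1, fun b ok hs hb => (cmh_gen ok hs hb).2 τ hτ,
    fun b hb => B4c_mem.2 (chi_ine (fun k => ?_) hτ.1)⟩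
  rw [mul_neg, dvd_neg] at k
  rcases (hp.dvd_mul (m := 2) (n := b)).1 (by exact_mod_cast k) with k | k
  exacts [h2 ((Nat.prime_dvd_prime_iff_eq hp Nat.prime_two).1 k), hb k]

/-- A product of elements of inertia groups. -/
theorem ex_base (hn : H3.Nk n) (hm : Squarefree m) (h7 : m % 12 = 7) :
    ∃ g ∈ GK n, g ∉ GK m ∧ ∀ (ε : ZMod (3 ^ 1)) (R : H3.Rp ε), R.ρ g = 1 := by
  have h11 := hn.m12
  have okm : Ok m 1 := ⟨by omega, by omega, one_ne_zero⟩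
  have okn : Ok n 1 := ⟨by omega, by omega, one_ne_zero⟩
  by_cases h : ∃ p, p.Prime ∧ p ∣ m ∧ ¬ p ∣ n
  · obtain ⟨p, hp, h1, h2⟩ := h
    obtain ⟨τ, t1, t2, t3⟩ := ex_one hp (by rintro rfl; omega) (by rintro rfl; omega)
    exact ⟨τ, t3 n h2, t2 m okm hm h1, t1⟩
  push Not at h
  obtain ⟨p, hp, h1⟩ := Nat.exists_prime_and_dvd (by omega : m ≠ 1)
  obtain ⟨q, hq, h2, h3⟩ : ∃ q, q.Prime ∧ q ∣ n ∧ ¬ q ∣ m := by
    by_contra! k
    have := (Nat.Squarefree.ext_iff hm hn.sqf).2 fun p hp => ⟨h p hp, k p hp⟩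
    omega
  obtain ⟨τ, t1, t2, -⟩ := ex_one hp (by rintro rfl; omega) (by rintro rfl; omega)
  obtain ⟨σ, s1, s2, s3⟩ := ex_one hq (by rintro rfl; omega) (by rintro rfl; omega)
  exact ⟨τ * σ, mul_mem_GK (t2 n okn hn.sqf (h p hp h1)) (s2 n okn hn.sqf h2),
    fun k => t2 m okm hm h1 ((Subgroup.mul_mem_cancel_right _ (s3 m h3)).1 k),
    fun ε R => by rw [map_mul, t1, s1, one_mul]⟩

/-- A limit point of the powers with exponent a power of three. -/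
theorem ex_lim (g : Gam) : ∃ γ : Gam, ∀ U : Subgroup Gam, Op U → ∀ k : ℕ, ∃ s, k ≤ s ∧
    γ⁻¹ * g ^ 3 ^ s ∈ U := by
  obtain ⟨γ, hγ⟩ := exists_clusterPt_of_compactSpace
    (Filter.map (fun s : ℕ => g ^ 3 ^ s) Filter.atTop)
  refine ⟨γ, fun U hU k => ?_⟩
  have h1 := mapClusterPt_iff_frequently.1 hγ ((fun x => γ⁻¹ * x) ⁻¹' U)
    ((hU.preimage (continuous_const_mul _)).mem_nhds (by simp))
  exact Filter.frequently_atTop.1 h1 k

theorem exists_tw (hn : H3.Nk n) (hm : Squarefree m) (h7 : m % 12 = 7) :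
    ∃ t : TwD, TwD.m = m ∧ Nk n := by
  obtain ⟨g, g1, g2, g3⟩ := ex_base hn hm h7
  obtain ⟨γ, hγ⟩ := ex_lim g
  have h1 : γ ∈ GK n := by
    obtain ⟨s, -, hs⟩ := hγ _ (op_GK n) 0
    exact inv_mem_iff.1 ((Subgroup.mul_mem_cancel_right _ (pow_mem g1 _)).1 hs)
  refine ⟨⟨m, γ, by omega, by omega, fun k => ?_, fun ε R => ?_⟩, rfl,
    @Nk.mk (_) n hn hm h7 h1 fun G _ f f1 f2 f3 => ?_⟩
  · obtain ⟨s, -, hs⟩ := hγ _ (op_GK m) 0
    have h2 := B4c_mem.1 ((Subgroup.mul_mem_cancel_left _ (inv_mem k)).1 hs)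
    rw [map_pow, B4c_notMem.1 g2, Odd.neg_one_pow (Odd.pow (by decide))] at h2
    exact absurd h2 (by decide)
  · have h2 : ∀ j, mred j (R.ρ γ) = mred j 1 := fun j => by
      obtain ⟨U, u1, -, u3⟩ := R.sm j
      obtain ⟨s, -, hs⟩ := hγ U u1 0
      exact (u3 _ trivial _ trivial hs).trans (by simp only [map_pow, g3, one_pow])
    exact Matrix.ext fun i j => PadicInt.ext_of_toZModPow.1 fun k => congrFun (congrFun (h2 k) i) j
  · obtain ⟨U, u1, -, u3⟩ := f1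
    obtain ⟨k, hk⟩ := f3 g g1
    obtain ⟨s, s1, hs⟩ := hγ U u1 k
    have h2 : ∀ j : ℕ, f (g ^ j) = f g ^ j := fun j => by
      induction j with
      | zero => simpa using f2 1 (one_mem _) 1 (one_mem _)
      | succ j ih => rw [pow_succ, f2 _ (pow_mem g1 _) _ g1, ih, pow_succ]
    refine (u3 γ h1 _ (pow_mem g1 _) hs).trans ?_
    rw [h2, ← Nat.add_sub_cancel' s1, pow_add, pow_mul, hk, one_pow]

theorem ex_prim (hs : Squarefree n) {a b k : ℤ} (h : b ^ 2 + n * (1 : ℕ) ^ 2 = 4 * a * k) :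
    ∃ x y z : ℤ, x * a + y * b + z * k = 1 := by
  obtain ⟨g, x, y, z, m', b', k', e1, e2, e3, e4⟩ := cmb_gcd a b k
  obtain ⟨u, hu⟩ := (Int.squarefree_natCast.2 hs g ⟨4 * m' * k' - b' ^ 2, by
    rw [e2, e3, e4] at h
    push_cast at h
    linear_combination h⟩).exists_left_inv
  exact ⟨u * x, u * y, u * z, by linear_combination u * e1 + hu⟩

theorem ex_ne (ok : Ok n 1) {a : ℕ} {b k : ℤ} (h : b ^ 2 + n * (1 : ℕ) ^ 2 = 4 * a * k) :
    (0 : ℤ) < a := by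
  refine Nat.cast_pos.2 (Nat.pos_of_ne_zero ?_)
  rintro rfl
  have := ok.gt
  have := sq_nonneg b
  push_cast at h
  omega

/-- Equivalent forms represent the same numbers. -/
theorem ex_rep (ok : Ok n 1) (hs : Squarefree n) {a a' : ℕ} {b k b' k' : ℤ}
    (h : b ^ 2 + n * (1 : ℕ) ^ 2 = 4 * a * k) (h' : b' ^ 2 + n * (1 : ℕ) ^ 2 = 4 * a' * k')
    (he : cl (Oc n 1) (idl n 1 a b) = cl _ (idl n 1 a' b')) :
    ∃ x y : ℤ, 4 * a * a' = x ^ 2 + n * y ^ 2 := by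
  have a0 := ex_ne ok h
  have a1 := ex_ne ok h'
  have n0 : 0 < n := by have := ok.gt; omega
  obtain ⟨z, z0, hz⟩ := (cl_eq_iff (isIv_idl ok.m4 h a0.ne' (ex_prim hs h))
    (isIv_idl ok.m4 h' a1.ne' (ex_prim hs h'))).1 he
  obtain ⟨e, rfl⟩ : ∃ e, b' = b + 2 * e := by
    have k1 := two_dvd_sub ok.m4 (h.trans (mul_assoc _ _ _))
    have k2 := two_dvd_sub ok.m4 (h'.trans (mul_assoc _ _ _))
    exact ⟨(b' - b) / 2, by omega⟩
  rw [idl, idl, sc_sp2, cmc_be_add] at hz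
  have hb := cmb_sq h
  obtain ⟨x, y, e1⟩ := mem_sp2.1 (hz.le (left_mem_sp2 _ _))
  obtain ⟨u, v, e2⟩ := mem_sp2.1 (hz.le (right_mem_sp2 _ _))
  obtain ⟨s, t, e3⟩ := mem_sp2.1 (hz.ge (left_mem_sp2 _ _))
  obtain ⟨s', t', e4⟩ := mem_sp2.1 (hz.ge (right_mem_sp2 _ _))
  obtain ⟨k1, k2⟩ := be_indep (b := b) n0 one_ne_zero
    (x := (x * s + y * s' - 1) * (a' : ℤ) + (x * t + y * t') * e) (y := x * t + y * t') (by
      push_cast at e1 e3 e4 ⊢
      linear_combination -e1 - x * e3 - y * e4)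
  obtain ⟨k3, k4⟩ := be_indep (b := b) n0 one_ne_zero
    (x := (u * s + v * s') * (a' : ℤ) + (u * t + v * t' - 1) * e) (y := u * t + v * t' - 1) (by
      push_cast at e2 e3 e4 ⊢
      linear_combination -e2 - u * e3 - v * e4)
  obtain ⟨k5, k6⟩ := be_indep (b := b) n0 one_ne_zero
    (x := (e * x - y * k - (a' : ℤ) * u) * (a : ℤ))
    (y := x * (a : ℤ) + y * b + e * y - (a' : ℤ) * v)
    (mul_left_cancel₀ z0 (by
      push_cast at e1 e2 hb ⊢
      linear_combination a' * e2 - (be n 1 b + e) * e1 - z * y * hb))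
  rw [k2, zero_mul, add_zero, mul_eq_zero_iff_right a1.ne'] at k1
  rw [k4, zero_mul, add_zero, mul_eq_zero_iff_right a1.ne'] at k3
  rw [mul_eq_zero_iff_right a0.ne'] at k5
  have k7 : (x * v - y * u) * (s * t' - t * s') = 1 := by
    linear_combination (u * t + v * t') * k1 + k4 - (u * s + v * s') * k2
  have k8 : 4 * a * a' * (x * v - y * u) = (2 * a * x + b * y) ^ 2 + n * y ^ 2 := by
    push_cast at h
    linear_combination 4 * a * y * k5 - 4 * a * x * k6 - y ^ 2 * h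
  rcases Int.eq_one_or_neg_one_of_mul_eq_one k7 with k9 | k9
  · exact ⟨_, y, by rw [← k8, k9, mul_one]⟩
  · have : 0 ≤ (2 * a * x + b * y) ^ 2 + n * y ^ 2 := by positivity
    have := mul_pos a0 a1
    rw [k9] at k8
    linarith

theorem ex_jac (ok : Ok n 1) (hd : m ∣ n) {a a' : ℕ} (ha : a.Coprime m) (ha' : a'.Coprime m)
    {x y : ℤ} (h : 4 * a * a' = x ^ 2 + n * y ^ 2) : J(a | m) = J(a' | m) := by
  have h2 : Nat.Coprime 2 m := (Nat.coprime_two_left.2 (Odd.of_dvd_nat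
    (Nat.odd_iff.2 (by have := ok.m4; omega)) hd))
  have h3 : (4 * a * a' : ℤ) % m = x ^ 2 % m :=
    (Int.emod_emod_of_dvd _ dvd_rfl).symm.trans (by
      obtain ⟨c, rfl⟩ := hd
      rw [h, Int.emod_emod_of_dvd _ dvd_rfl, Nat.cast_mul, mul_assoc, Int.add_mul_emod_self_left])
  have h4 := jacobiSym.mod_left' h3
  have h5 := jacobiSym.sq_one' (a := 2) (b := m) h2
  have h6 := jacobiSym.eq_one_or_neg_one (a := a) (b := m) ha
  have h7 := jacobiSym.eq_one_or_neg_one (a := a') (b := m) ha'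
  rw [jacobiSym.mul_left, jacobiSym.mul_left, show (4 : ℤ) = 2 ^ 2 by norm_num, h5, one_mul,
    jacobiSym.pow_left] at h4
  have h8 := sq_nonneg J(x | m)
  rcases h6 with h6 | h6 <;> rcases h7 with h7 | h7 <;> rw [h6, h7] at h4 ⊢ <;> omega

/-- The genus character in terms of forms. -/
theorem ex_val (ok : Ok n 1) (hs : Squarefree n) (hd : m ∣ n) : ∃ ψ : Pc n 1 →* ℤˣ,
    ∀ (a : ℕ) (b k : ℤ), b ^ 2 + n * (1 : ℕ) ^ 2 = 4 * a * k → a.Coprime m →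
      (ψ (cl _ (idl n 1 a b)) : ℤ) = J(a | m) := by
  have m0 : m ≠ 0 := fun e => hs.ne_zero (Nat.eq_zero_of_zero_dvd (e ▸ hd))
  choose A B K a0 a1 a2 _ a4 using fun x : Pc n 1 =>
    exists_idl_coprime ok x (Int.natCast_ne_zero.2 m0)
  have key : ∀ (a : ℕ) (b k : ℤ), b ^ 2 + n * (1 : ℕ) ^ 2 = 4 * a * k → a.Coprime m →
      J(A (cl _ (idl n 1 a b)) | m) = J(a | m) := fun a b k h ha => by
    obtain ⟨x, y, e⟩ := ex_rep ok hs (a1 _) h (a4 _).symm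
    exact ex_jac ok hd (Nat.isCoprime_iff_coprime.1 (a2 _)) ha e
  have hmul : ∀ x y, J(A (x * y) | m) = J(A x | m) * J(A y | m) := fun x y => by
    obtain ⟨a, b, k, b0, b1, b2, -, rfl⟩ := exists_idl_coprime ok y (M := m * A x)
      (mul_ne_zero (Int.natCast_ne_zero.2 m0) (Int.natCast_ne_zero.2 (a0 x)))
    have b3 := Nat.isCoprime_iff_coprime.1 b2.of_mul_right_left
    obtain ⟨u, v, huv⟩ := b2.of_mul_right_right
    obtain ⟨e, he⟩ : ∃ e, B x = b + 2 * e := by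
      have k1 := two_dvd_sub ok.m4 (b1.trans (mul_assoc _ _ _))
      have k2 := two_dvd_sub ok.m4 ((a1 x).trans (mul_assoc _ _ _))
      exact ⟨(B x - b) / 2, by omega⟩
    have c1 : 2 * (a : ℤ) ∣ b + 2 * a * (u * e) - b := ⟨u * e, by ring⟩
    have c2 : 2 * (A x : ℤ) ∣ b + 2 * a * (u * e) - B x :=
      ⟨-(v * e), by linear_combination 2 * e * huv - he⟩
    obtain ⟨k', hk'⟩ : ∃ k' : ℤ, (b + 2 * a * (u * e)) ^ 2 + n * (1 : ℕ) ^ 2 =
        4 * (A x * a) * k' := by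
      obtain ⟨t, ht⟩ := c2
      have d1 : (b + 2 * a * (u * e)) ^ 2 + n * (1 : ℕ) ^ 2 =
          4 * a * (k + b * (u * e) + a * (u * e) ^ 2) := by linear_combination b1
      have d2 : (b + 2 * a * (u * e)) ^ 2 + n * (1 : ℕ) ^ 2 =
          4 * A x * (K x + B x * t + A x * t ^ 2) := by
        rw [eq_add_of_sub_eq ht]
        linear_combination a1 x
      refine ⟨u * (K x + B x * t + A x * t ^ 2) + v * (k + b * (u * e) + a * (u * e) ^ 2), ?_⟩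
      linear_combination u * a * d2 + v * A x * d1 -
        ((b + 2 * a * (u * e)) ^ 2 + n * (1 : ℕ) ^ 2) * huv
    have c3 := idl_mul hk' ⟨v, u, 0, by linear_combination huv⟩
    rw [idl_congr c1, idl_congr c2] at c3
    have c4 := cl_mul (isIv_idl ok.m4 (a1 x) (ex_ne ok (a1 x)).ne' (ex_prim hs (a1 x)))
      (isIv_idl ok.m4 b1 (ex_ne ok b1).ne' (ex_prim hs b1))
    rw [← c3, ← a4 x, ← Nat.cast_mul] at c4
    rw [← c4, key _ _ k' (by rw [Nat.cast_mul]; exact hk')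
      (Nat.Coprime.mul_left (Nat.isCoprime_iff_coprime.1 (a2 x)) b3), key a b k b1 b3,
      Nat.cast_mul, jacobiSym.mul_left]
  have hone : J(A 1 | m) = 1 := by
    have k1 := hmul 1 1
    rw [mul_one, ← sq] at k1
    exact k1.trans (jacobiSym.sq_one (Nat.isCoprime_iff_coprime.1 (a2 1)))
  exact ⟨MonoidHom.toHomUnits ⟨⟨fun x => J(A x | m), hone⟩, hmul⟩, key⟩

theorem ex_rec {p : ℕ} (hm : m % 4 = 3) (hp : Odd p) : J(-m | p) = J(p | m) := by
  rw [jacobiSym.neg _ hp]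
  rcases Nat.odd_mod_four_iff.1 (Nat.odd_iff.1 hp) with h | h
  · rw [ZMod.χ₄_nat_one_mod_four h, one_mul,
      jacobiSym.quadratic_reciprocity_one_mod_four h (Nat.odd_iff.2 (by omega))]
  · rw [ZMod.χ₄_nat_three_mod_four h, jacobiSym.quadratic_reciprocity_three_mod_four hm h]
    ring

variable [TwD]

theorem exists_gch (ch : ChebStmt) (hn : Nk n) (hd : TwD.m ∣ n) : ∃ ψ, Gch n 1 ψ := by
  have h11 := hn.m12
  have h7 := hn.m7
  have ok : Ok n 1 := ⟨by omega, by omega, one_ne_zero⟩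
  obtain ⟨ψ, hψ⟩ := ex_val ok hn.sqf hd
  refine ⟨ψ, by rw [one_mul, Nat.gcd_eq_left hd], fun g hg => ?_, hψ⟩
  let U : Subgroup Gam :=
    { carrier := {u | u ∈ GK n ∧ ψ (rho n 1 u) = chi (-TwD.m) u}
      one_mem' := ⟨one_mem _, by rw [rho_one ok, map_one, map_one]⟩
      mul_mem' := fun {a b} ha hb => ⟨mul_mem ha.1 hb.1, by
        rw [rho_mul ok ha.1, map_mul, map_mul, ha.2, hb.2]⟩
      inv_mem' := fun {a} ha => ⟨inv_mem ha.1, by rw [rho_inv ok ha.1, map_inv, map_inv, ha.2]⟩ }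
  have u1 : Op U := by
    obtain ⟨V, v1, -, v3⟩ := sm_rho ⊤ n 1
    refine Subgroup.isOpen_mono (H₁ := V ⊓ GK n ⊓ GK TwD.m) (fun u hu => ⟨hu.1.2, ?_⟩)
      ((v1.inf (op_GK n)).inf (op_GK _))
    rw [← v3 1 trivial u trivial (by simpa using hu.1.1), rho_one ok, map_one, B4c_mem.1 hu.2]
  have u2 : U.Normal := ⟨fun u hu t => ⟨(normal_GK n).conj_mem u hu.1 t, by
    rw [map_mul, map_mul, map_inv, mul_inv_cancel_comm, ← hu.2]
    by_cases ht : t ∈ GK n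
    · rw [rho_mul ok (mul_mem ht hu.1), rho_mul ok ht, rho_inv ok ht, mul_inv_cancel_comm]
    · rw [rho_conj ok ht hu.1, map_inv, Int.units_inv_eq_self]⟩⟩
  obtain ⟨w, φ, a, w1, w2, w3, w4, w5⟩ := ch U g 0 (2 * n).primeFactors u1 u2
    ⟨pow_mem hg _, by rw [rho_pow ok hg, map_pow, map_pow, pow_zero, mul_one, Int.units_sq,
      Int.units_sq]⟩
  have p1 : ¬ w.p ∣ 2 * n := fun k => w1 (Nat.mem_primeFactors.2 ⟨w.prime, k, by omega⟩)
  have p2 : w.p ≠ 2 := fun e => p1 (e ▸ dvd_mul_right _ _)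
  have p3 : ∀ q, q ∣ n → ¬ (w.p : ℤ) ∣ 2 * -q := fun q hq k => by
    rw [mul_neg, dvd_neg] at k
    exact p1 (Dvd.dvd.trans (by exact_mod_cast k) (Nat.mul_dvd_mul_left 2 hq))
  have f1 : φ ∈ GK n := inv_mem_iff.1 ((Subgroup.mul_mem_cancel_right _ (pow_mem hg a)).1 w4)
  have f2 : J(-n | w.p) = 1 := by
    rw [← chi_frob (p3 n dvd_rfl) w2, B4c_mem.1 f1, Units.val_one]
  obtain ⟨b, k, b1, b2, b3⟩ : ∃ b k : ℤ, b ^ 2 + n * (1 : ℕ) ^ 2 = 4 * w.p * k ∧ ¬ (w.p : ℤ) ∣ b ∧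
      w.V (beQ n 1 b) < 1 := by
    obtain ⟨b, k, b1, b2⟩ := exists_root_split (c := 1) ok.m4 w.prime p2 f2 w.prime.not_dvd_one
    rcases V_beQ_or ok.m4 b1 with h | h
    exacts [⟨b, k, b1, b2, h⟩, ⟨-b, k, by rw [neg_sq, b1], by rwa [dvd_neg], h⟩]
  have f3 : ψ (rho n 1 φ) = chi (-TwD.m) φ := Units.ext (by
    rw [rho_frob_split ok b1 b2 b3 w2, map_inv, Int.units_inv_eq_self, hψ _ b k b1
      (w.prime.coprime_iff_not_dvd.2 fun e => p1 ((e.trans hd).mul_left 2)),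
      chi_frob (p3 _ hd) w2, ex_rec (by omega) (w.prime.odd_of_ne_two p2)])
  have f4 : Odd a := Nat.coprime_two_right.1 (w3.coprime_dvd_right (by norm_num))
  rw [rho_mul ok (inv_mem f1), rho_inv ok f1, rho_pow ok hg, map_mul, map_mul, map_inv, map_inv,
    f3, mul_left_cancel_iff, map_pow, map_pow] at w5
  obtain ⟨j, rfl⟩ := f4
  rwa [pow_succ, pow_succ, pow_mul, pow_mul, Int.units_sq, Int.units_sq, one_pow, one_mul,
    one_mul] at w5

end Pool.Agent.H3.T
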