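import Pool.Agent.Lib.MP_23455a_nt.H4.CNb
import Pool.Agent.Lib.MP_23455a_nt.H4.EX

/-! Numbers of representations for the classes of an order. -/

set_option autoImplicit false

open Filter Topology Real NumberTheorySymbols
open scoped Classical

namespace Pool.Agent.H3.T
open Pool.Agent.Lib.MP_696deb_nt.B2.CM

/-- The first two coefficients of a form whose first coefficient is prime to the conductor. -/
def Fo (n c a : ℕ) (b : ℤ) : Prop := a.Coprime c ∧ ∃ k : ℤ, b ^ 2 + n * c ^ 2 = 4 * a * k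

/-- The number of representations by a form. -/
noncomputable def rq (n c a : ℕ) (b : ℤ) (k : ℕ) : ℕ :=
  Nat.card {z : ℂ // z ∈ idl n c a b ∧ Complex.normSq z = k * a}

/-- The number of representations by a class. -/
noncomputable def rP (n c : ℕ) (x : Pc n c) (k : ℕ) : ℕ :=
  if h : ∃ p : ℕ × ℤ, Fo n c p.1 p.2 ∧ cl _ (idl n c p.1 p.2) = x then
    rq n c h.choose.1 h.choose.2 k else 0

/-- The values of a character of the class group on forms. -/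
def GV (n c m : ℕ) (ψ : Pc n c →* ℤˣ) : Prop := ∀ (a : ℕ) (b k : ℤ),
  b ^ 2 + n * c ^ 2 = 4 * a * k → a.Coprime m → (ψ (cl _ (idl n c a b)) : ℤ) = J(a | m)

/-- A factorization of the discriminant of the order. -/
structure Fac (n c m D : ℕ) : Prop extends Ok n c where
  sqf : Squarefree n
  sqm : Squarefree m
  sqD : Squarefree D
  odd : Odd m ∧ Odd D
  eq : m * D = n * c ^ 2
  dvm : c ∣ m
  dvD : c ∣ D
  cop : c.Coprime n

variable {n c m D a a' k p : ℕ} {b b' : ℤ} {τ μ : ℂ} {s : ℝ} {ψ : Pc n c →* ℤˣ}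

theorem Fo.pos (ok : Ok n c) (h : Fo n c a b) : 0 < a := by
  obtain ⟨-, k, h⟩ := h
  refine Nat.pos_of_ne_zero ?_
  rintro rfl
  have h1 : 0 < n := by have := ok.gt; omega
  have h2 := ok.ne
  have : 0 < b ^ 2 + n * c ^ 2 := by positivity
  rw [h] at this
  simp at this

theorem Fo.isIv (ok : Ok n c) (hs : Squarefree n) (h : Fo n c a b) :
    IsIv (Oc n c) (idl n c a b) := by
  have a0 := h.pos ok
  obtain ⟨h1, k, h⟩ := h
  refine isIv_idl ok.m4 h (by omega) ?_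
  obtain ⟨g, x, y, z, m', b', k', e1, e2, e3, e4⟩ := cmb_gcd a b k
  have h2 : IsCoprime g c := (Nat.isCoprime_iff_coprime.2 h1).of_isCoprime_of_dvd_left ⟨m', e2⟩
  obtain ⟨u, hu⟩ := (Int.squarefree_natCast.2 hs g ((h2.mul_left h2).pow_right.dvd_of_dvd_mul_right
    ⟨4 * m' * k' - b' ^ 2, show (n : ℤ) * c ^ 2 = _ by
      rw [e2, e3, e4] at h
      linear_combination h⟩)).exists_left_inv
  exact ⟨u * x, u * y, u * z, by linear_combination u * e1 + hu⟩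

theorem exists_fo (ok : Ok n c) (x : Pc n c) {M : ℕ} (hM : M ≠ 0) :
    ∃ a b, Fo n c a b ∧ a.Coprime M ∧ cl _ (idl n c a b) = x := by
  obtain ⟨a, b, k, -, h1, h2, -, h3⟩ := exists_idl_coprime ok x (M := M * c)
    (by exact_mod_cast mul_ne_zero hM ok.ne)
  exact ⟨a, b, ⟨Nat.isCoprime_iff_coprime.1 h2.of_mul_right_right, k, h1⟩,
    Nat.isCoprime_iff_coprime.1 h2.of_mul_right_left, h3.symm⟩

theorem cnt_re (n c : ℕ) (b : ℤ) : (be n c b).re = b / 2 := by simp [be, dl]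

theorem cnt_im (n c : ℕ) (b : ℤ) : (be n c b).im = c * √n / 2 := by simp [be, dl]

theorem cnt_det {p q p' q' : ℂ} (h : sp2 p' q' ≤ sp2 p q) : ∃ j : ℤ,
    p'.re * q'.im - p'.im * q'.re = j * (p.re * q.im - p.im * q.re) := by
  obtain ⟨⟨x, y, rfl⟩, u, v, rfl⟩ := (sp2_le.1 h).imp mem_sp2.1 mem_sp2.1
  refine ⟨x * v - y * u, ?_⟩
  simp
  ring

theorem cnt_cov {p q : ℂ} (e : sp2 p q = sc μ (idl n c a b)) :
    |p.re * q.im - p.im * q.re| = Complex.normSq μ * a * (c * √n / 2) := by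
  rw [idl, sc_sp2] at e
  obtain ⟨i, hi⟩ := cnt_det e.le
  obtain ⟨j, hj⟩ := cnt_det e.ge
  have h1 : (μ * (a : ℤ)).re * (μ * be n c b).im - (μ * (a : ℤ)).im * (μ * be n c b).re =
      Complex.normSq μ * a * (c * √n / 2) := by
    simp [cnt_re, cnt_im, Complex.normSq_apply]
    ring
  have h2 : 0 ≤ Complex.normSq μ * a * (c * √n / 2) := by
    have := Complex.normSq_nonneg μ
    positivity
  rw [h1] at hi hj
  rw [hi] at hj ⊢
  rcases h2.eq_or_lt with h | h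
  · rw [← h, mul_zero, abs_zero]
  have h3 : i * j = 1 := by
    have : (i : ℝ) * j = 1 := mul_right_cancel₀ h.ne' (by linear_combination -hj)
    exact_mod_cast this
  rcases Int.eq_one_or_neg_one_of_mul_eq_one h3 with rfl | rfl <;> simp [abs_of_pos h]

set_option linter.unusedVariables false in
/-- The covolume. -/
theorem Fo.norm (ok : Ok n c) (h : Fo n c a b) (h' : Fo n c a' b')
    (e : idl n c a' b' = sc μ (idl n c a b)) : Complex.normSq μ * a = a' := by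
  have h1 := cnt_cov e
  have h2 : 0 < n := by have := ok.gt; omega
  have h3 := ok.ne
  have h4 : 0 < c * √n / 2 := by positivity
  simp only [zero_mul, sub_zero, cnt_im, Int.cast_natCast, Complex.natCast_re,
    Complex.natCast_im] at h1
  rw [abs_of_nonneg (by positivity)] at h1
  exact mul_right_cancel₀ h4.ne' h1.symm

set_option linter.unusedVariables false in
theorem Fo.im (ok : Ok n c) (h : Fo n c a b) (hτ : 0 < τ.im) (e : sp2 τ 1 = sc μ (idl n c a b)) :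
    τ.im = Complex.normSq μ * a * (c * √n / 2) := by
  simpa [abs_of_pos hτ] using cnt_cov e

theorem Fo.val (h : Fo n c a b) {z : ℂ} (hz : z ∈ idl n c a b) : ∃ (k : ℕ) (x y : ℤ),
    Complex.normSq z = k * a ∧ 4 * a * k = x ^ 2 + n * c ^ 2 * y ^ 2 := by
  obtain ⟨-, k, h⟩ := h
  obtain ⟨x, y, rfl⟩ := mem_sp2.1 hz
  obtain ⟨q, hq⟩ : ∃ q, q = a * x ^ 2 + b * x * y + k * y ^ 2 := ⟨_, rfl⟩
  have h1 : 4 * a * q = (2 * a * x + b * y) ^ 2 + n * c ^ 2 * y ^ 2 := by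
    rw [hq]
    linear_combination -y ^ 2 * h
  have h2 : (q.toNat : ℤ) * a = q * a := by
    rcases Nat.eq_zero_or_pos a with rfl | a0
    · simp
    · rw [Int.toNat_of_nonneg (nonneg_of_mul_nonneg_right (a := 4 * (a : ℤ))
        (by rw [h1]; positivity) (by positivity))]
  refine ⟨q.toNat, 2 * a * x + b * y, y, ?_, by linear_combination h1 + 4 * h2⟩
  have h3 : (q.toNat : ℝ) * a = q * a := by exact_mod_cast h2
  have h4 : (4 : ℝ) * a * q = (2 * a * x + b * y) ^ 2 + n * c ^ 2 * y ^ 2 := by exact_mod_cast h1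
  simp only [Complex.normSq_apply, Complex.add_re, Complex.add_im, Complex.mul_re, Complex.mul_im,
    Complex.intCast_re, Complex.intCast_im, cnt_re, cnt_im, h3]
  push_cast
  linear_combination -h4 / 4 + y ^ 2 * c ^ 2 / 4 * Real.sq_sqrt (Nat.cast_nonneg (α := ℝ) n)

theorem rP_eq (ok : Ok n c) (hs : Squarefree n) (h : Fo n c a b) (k : ℕ) :
    rP n c (cl _ (idl n c a b)) k = rq n c a b k := by
  have h1 : ∃ p : ℕ × ℤ, Fo n c p.1 p.2 ∧ cl _ (idl n c p.1 p.2) = cl (Oc n c) (idl n c a b) :=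
    ⟨(a, b), h, rfl⟩
  rw [rP, dif_pos h1]
  obtain ⟨h2, h3⟩ := h1.choose_spec
  generalize h1.choose = q at h2 h3
  obtain ⟨μ, μ0, e⟩ := (cl_eq_iff (h2.isIv ok hs) (h.isIv ok hs)).1 h3
  refine Nat.card_congr ((Equiv.mulLeft₀ μ μ0).subtypeEquiv fun z => ?_)
  change _ ↔ μ * z ∈ _ ∧ Complex.normSq (μ * z) = _
  rw [← h2.norm ok h e, e, mul_mem_sc μ0, map_mul, mul_left_comm,
    mul_right_inj' (Complex.normSq_pos.2 μ0).ne']

theorem Fo.rep (ok : Ok n c) (hs : Squarefree n) (h : Fo n c a b) (h' : Fo n c a' b')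
    (e : cl (Oc n c) (idl n c a b) = cl _ (idl n c a' b')) :
    ∃ x y : ℤ, 4 * a * a' = x ^ 2 + n * c ^ 2 * y ^ 2 := by
  obtain ⟨μ, -, e⟩ := (cl_eq_iff (h.isIv ok hs) (h'.isIv ok hs)).1 e
  obtain ⟨z, hz, h1⟩ := mem_sc.1 (e.le (left_mem_sp2 _ _))
  obtain ⟨k, x, y, h2, h3⟩ := h.val hz
  have h4 := congrArg Complex.normSq h1
  rw [map_mul, h2, mul_left_comm, h.norm ok h' e, Int.cast_natCast, Complex.normSq_natCast] at h4
  obtain rfl : k = a' := by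
    exact_mod_cast mul_right_cancel₀ (Nat.cast_ne_zero.2 (h'.pos ok).ne') h4
  exact ⟨x, y, h3⟩

theorem GV.symm (h : Fac n c m D) (hψ : GV n c m ψ) : GV n c D ψ := by
  intro a b k h1 h2
  have m0 := h.sqm.ne_zero
  have D0 := h.sqD.ne_zero
  have ok : Ok (m * D) 1 := by
    obtain ⟨t, ht⟩ := (Odd.of_dvd_nat h.odd.1 h.dvm)
    have := h.m4
    have := h.gt
    have h3 : n * c ^ 2 = 4 * (n * (t ^ 2 + t)) + n := by rw [ht]; ring
    exact ⟨by rw [h.eq]; omega, by rw [h.eq]; omega, one_ne_zero⟩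
  obtain ⟨a', b', k', -, h3, h4, h5, h6⟩ := exists_idl_coprime h.toOk (cl _ (idl n c a b))
    (M := (2 * (m * D) : ℕ)) (by positivity)
  rw [Nat.isCoprime_iff_coprime, Nat.coprime_mul_iff_right, Nat.coprime_mul_iff_right] at h4
  have e : (m * D : ℕ) = (n : ℤ) * c ^ 2 := by exact_mod_cast h.eq
  obtain ⟨x, y, h7⟩ := Fo.rep h.toOk h.sqf ⟨h2.coprime_dvd_right h.dvD, k, h1⟩
    ⟨h4.2.1.coprime_dvd_right h.dvm, k', h3⟩ h6
  rw [h6, hψ a' b' k' h3 h4.2.1, ex_jac ok (dvd_mul_left D m) h2 h4.2.2 (e ▸ h7)]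
  refine Int.eq_of_mul_eq_one ?_
  rw [← jacobiSym.mul_right' _ m0 D0, ← ex_rec ok.m4 (Nat.coprime_two_right.1 h4.1),
    ← jacobiSym.sq_one' (Int.isCoprime_iff_gcd_eq_one.1 h5.symm)]
  exact jacobiSym.mod_left' (Int.modEq_iff_dvd.2 ⟨4 * k', by rw [e]; linear_combination h3⟩)

/-- The Eisenstein series as a Dirichlet series. -/
theorem cnt_series (ok : Ok n c) (hs : Squarefree n) (hτ : 0 < τ.im)
    (hv : IsIv (Oc n c) (sp2 τ 1)) (h1 : 1 < s) :
    HasSum (fun k : ℕ => (c * √n / 2) ^ s * (rP n c (cl _ (sp2 τ 1)) k * (k : ℝ) ^ (-s)))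
      (Ez τ s) := by
  obtain ⟨a, b, h, -, e⟩ := exists_fo ok (cl _ (sp2 τ 1)) one_ne_zero
  obtain ⟨μ, μ0, e1⟩ := (cl_eq_iff (h.isIv ok hs) hv).1 e
  have a0 : (0 : ℝ) < a := Nat.cast_pos.2 (h.pos ok)
  have N0 := Complex.normSq_pos.2 μ0
  have h2 : ∀ p : ℤ × ℤ, μ⁻¹ * (p.1 * τ + p.2) ∈ idl n c a b := fun p => by
    rw [← mul_mem_sc μ0, ← e1, mul_inv_cancel_left₀ μ0]
    exact mem_sp2.2 ⟨p.1, p.2, by rw [mul_one]⟩
  choose g _ _ hg _ using fun p => h.val (h2 p)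
  refine Eq.mp (congrArg (HasSum · _) (funext fun k => Eq.symm ?_))
    (((kl_summable hτ h1).mul_left (τ.im ^ s)).hasSum.tsum_fiberwise g)
  rw [tsum_congr (g := fun _ => (c * √n / 2) ^ s * (k : ℝ) ^ (-s)) fun p => ?_, tsum_const,
    nsmul_eq_mul, mul_left_comm, ← e, rP_eq ok hs h, rq]
  · congr 2
    refine (Nat.card_eq_of_bijective (fun p : g ⁻¹' {k} => ⟨_, h2 p.1, (hg p.1).trans
      (by rw [p.2])⟩) ⟨fun p q e => ?_, fun ⟨z, h3, h4⟩ => ?_⟩).symm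
    · obtain ⟨h3, h4⟩ := tau_indep hτ.ne' (x := p.1.1 - q.1.1) (y := p.1.2 - q.1.2) (by
        push_cast
        linear_combination mul_left_cancel₀ (inv_ne_zero μ0) (Subtype.mk.inj e))
      exact Subtype.ext (Prod.ext (sub_eq_zero.1 h3) (sub_eq_zero.1 h4))
    · obtain ⟨x, y, h5⟩ := mem_sp2.1 (e1.ge ((mul_mem_sc μ0).2 h3))
      have h6 : μ⁻¹ * (x * τ + y) = z := by rw [← mul_one (y : ℂ), ← h5, inv_mul_cancel_left₀ μ0]
      refine ⟨⟨(x, y), ?_⟩, Subtype.ext h6⟩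
      have h7 := hg (x, y)
      rw [h6, h4] at h7
      exact_mod_cast (mul_right_cancel₀ a0.ne' h7).symm
  · have h3 := hg p.1
    rw [map_mul, map_inv₀, inv_mul_eq_iff_eq_mul₀ N0.ne', show g p.1 = k from p.2, mul_comm (k : ℝ),
      ← mul_assoc] at h3
    rw [h3, h.im ok hτ e1, Real.mul_rpow (by positivity) (by positivity),
      Real.mul_rpow (x := _ * _) (by positivity) (by positivity), Real.rpow_neg (by positivity),
      mul_mul_mul_comm, mul_inv_cancel₀ (by positivity), one_mul]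

theorem cnt_form (hp : p.Prime) (h2 : p ≠ 2) (hn : n % 4 = 3) (hd : ¬ p ∣ n) :
    ∃ x y : ℤ, J(nrm n x y | p) = -1 := by
  have := Fact.mk hp
  obtain ⟨a, ha⟩ := FiniteField.exists_nonsquare (F := ZMod p) (by rwa [ZMod.ringChar_zmod_n])
  obtain ⟨u, v, h⟩ := FiniteField.exists_root_sum_quadratic
    (Polynomial.degree_X_pow_sub_C two_pos a)
    (Polynomial.degree_C_mul_X_pow 2 (mt (ZMod.natCast_eq_zero_iff n p).1 hd))
    (by rw [ZMod.card]; exact hp.eq_two_or_odd.resolve_left h2)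
  obtain ⟨u, rfl⟩ := ZMod.intCast_surjective u
  obtain ⟨v, rfl⟩ := ZMod.intCast_surjective v
  refine ⟨u - v, 2 * v, ZMod.nonsquare_iff_jacobiSym_eq_neg_one.2 ?_⟩
  have e : nrm n (u - v) (2 * v) = u ^ 2 + n * v ^ 2 :=
    mul_left_cancel₀ four_ne_zero (by linear_combination four_nrm hn (u - v) (2 * v))
  simp only [Polynomial.eval_sub, Polynomial.eval_pow, Polynomial.eval_X, Polynomial.eval_C,
    Polynomial.eval_mul] at h
  rw [e]
  push_cast
  rwa [show (u : ZMod p) ^ 2 + n * (v : ZMod p) ^ 2 = a by linear_combination h]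

theorem cnt_el {m' : ℕ} (hp : p.Prime) (h2 : p ≠ 2) (hn : n % 4 = 3) (hd : ¬ p ∣ n)
    (hm : ¬ p ∣ m') : ∃ x y : ℤ, IsCoprime x y ∧ (m' : ℤ) ∣ y ∧ J(nrm n x y | m' * p) = -1 := by
  obtain ⟨x0, y0, h0⟩ := cnt_form hp h2 hn hd
  have m0 : m' ≠ 0 := fun e => hm (e ▸ dvd_zero p)
  obtain ⟨α, β, h1⟩ := Nat.isCoprime_iff_coprime.2 (hp.coprime_iff_not_dvd.2 hm)
  have k (s t : ℤ) : J(nrm n (x0 * β * m' + α * p + (m' * p : ℕ) * s)
      (y0 * β * m' + (m' * p : ℕ) * t) | m' * p) = -1 := by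
    have a1 : x0 * β * m' + α * p + (m' * p : ℕ) * s ≡ x0 [ZMOD p] :=
      Int.modEq_iff_dvd.2 ⟨x0 * α - α - m' * s, by push_cast; linear_combination (-x0) * h1⟩
    have a2 : y0 * β * m' + (m' * p : ℕ) * t ≡ y0 [ZMOD p] :=
      Int.modEq_iff_dvd.2 ⟨y0 * α - m' * t, by push_cast; linear_combination (-y0) * h1⟩
    have a3 : x0 * β * m' + α * p + (m' * p : ℕ) * s ≡ 1 [ZMOD m'] :=
      Int.modEq_iff_dvd.2 ⟨β - x0 * β - p * s, by push_cast; linear_combination (-1 : ℤ) * h1⟩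
    have a4 : y0 * β * m' + (m' * p : ℕ) * t ≡ 0 [ZMOD m'] :=
      Int.modEq_iff_dvd.2 ⟨-(y0 * β) - p * t, by push_cast; ring⟩
    have a5 {M x y x' y' : ℤ} (hx : x ≡ x' [ZMOD M]) (hy : y ≡ y' [ZMOD M]) :
        nrm n x y % M = nrm n x' y' % M :=
      ((hx.pow 2).add (hx.mul hy)).add ((hy.pow 2).mul_right _)
    rw [jacobiSym.mul_right' _ m0 hp.ne_zero, jacobiSym.mod_left' (a5 a1 a2),
      jacobiSym.mod_left' (a5 a3 a4), h0]
    simp [nrm]
  have k0 := k 0 0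
  simp only [mul_zero, add_zero] at k0
  have M0 := mul_ne_zero m0 hp.ne_zero
  obtain ⟨s, t, h3⟩ := Int.isCoprime_iff_gcd_eq_one.2 (not_not.1 fun h =>
    (by norm_num : (-1 : ℤ) ≠ 0) (k0.symm.trans (jacobiSym.eq_zero_iff.2 ⟨M0, h⟩)))
  obtain ⟨x, y, h4, ⟨u, h5⟩, ⟨v, h6⟩⟩ := exists_coprime_lift (x := x0 * β * m' + α * p)
    (y := y0 * β * m') (Int.natCast_ne_zero.2 M0) ⟨s * (x0 * β * m' + α * p + y0 * β * m'),
      s * (y0 * β * m') * ((n + 1) / 4), t, by rw [nrm] at h3; linear_combination h3⟩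
  obtain rfl := eq_add_of_sub_eq' h5
  obtain rfl := eq_add_of_sub_eq' h6
  exact ⟨_, _, h4, ⟨y0 * β + p * v, by push_cast; ring⟩, k u v⟩

/-- The character is primitive. -/
theorem cnt_prim {c' : ℕ} (h : Fac n c m D) (hψ : GV n c m ψ) (hp : p.Prime) (e : c = c' * p) :
    ∃ x, ψ x = -1 ∧ pj n c' c x = 1 := by
  subst e
  have ok := h.toOk
  have ok1 : Ok n 1 := ⟨ok.m4, ok.gt, one_ne_zero⟩
  obtain ⟨t, rfl⟩ := h.dvm
  have em : c' * p * t = c' * t * p := by ring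
  obtain ⟨x, y, h1, h2, h3⟩ := cnt_el (m' := c' * t) hp
    (by rintro rfl; exact absurd (em ▸ h.odd.1) (by simp)) ok.m4
    (fun d => hp.one_lt.ne' (Nat.eq_one_of_dvd_coprimes h.cop (dvd_mul_left _ _) d))
    fun d => hp.one_lt.ne' (Nat.isUnit_iff.1 (h.sqm p (em ▸ mul_dvd_mul_right d p)))
  rw [← em] at h3
  obtain ⟨b, k, h4, h5⟩ := exists_idl_el ok1 h1
  obtain ⟨N, hN⟩ := Int.eq_ofNat_of_zero_le (nrm_pos ok1 h1).le
  have h6 : N.Coprime (c' * p * t) := by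
    rw [hN] at h3
    exact not_not.1 fun d => (by norm_num : (-1 : ℤ) ≠ 0)
      (h3.symm.trans (jacobiSym.eq_zero_iff.2 ⟨h.sqm.ne_zero, d⟩))
  have h7 (l : ℕ) : (b * l) ^ 2 + n * l ^ 2 = 4 * N * (k * l ^ 2) := by
    rw [← hN]; linear_combination (l : ℤ) ^ 2 * h4
  have h8 : el n x y ≠ 0 := fun e => by
    have h0 := el_mul_el ok.m4 x y
    rw [e, zero_mul] at h0
    exact (nrm_pos ok1 h1).ne (by exact_mod_cast h0)
  refine ⟨cl _ (idl n (c' * p) N (b * (c' * p : ℕ))), Units.ext ((hψ _ _ _ (h7 _) h6).trans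
    (hN ▸ h3)), ?_⟩
  rw [pj_cl (dvd_mul_right _ _) (Fo.isIv ok h.sqf ⟨h6.coprime_mul_right_right, _, h7 _⟩),
    Nat.cast_mul, ← mul_assoc, idl_ext ok.m4 (h7 c') (Nat.isCoprime_iff_coprime.2
      h6.coprime_mul_right_right.coprime_mul_left_right), ← hN,
    idl_el ⟨ok.m4, ok.gt, left_ne_zero_of_mul ok.ne⟩ h5 h4
      ((Int.natCast_dvd_natCast.2 (dvd_mul_right _ _)).trans h2), cl_sc (isIv_one _) h8, cl_one]

theorem cnt_sc {I : Lt} (hμ : μ ≠ 0) (r : ℝ) :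
    Nat.card {z : ℂ // z ∈ sc μ I ∧ Complex.normSq z = Complex.normSq μ * r} =
      Nat.card {z : ℂ // z ∈ I ∧ Complex.normSq z = r} :=
  (Nat.card_congr ((Equiv.mulLeft₀ μ hμ).subtypeEquiv fun z => by
    rw [Equiv.mulLeft₀_apply, mul_mem_sc hμ, map_mul,
      mul_right_inj' (Complex.normSq_pos.2 hμ).ne'])).symm

theorem cnt_nsq (n c : ℕ) (u v b : ℤ) :
    4 * Complex.normSq (u + v * be n c b) = ((2 * u + v * b) ^ 2 + n * (c * v) ^ 2 : ℤ) := by
  have := Real.mul_self_sqrt (Nat.cast_nonneg n : (0 : ℝ) ≤ n)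
  simp only [Complex.normSq_apply, be, dl, Complex.add_re, Complex.mul_re, Complex.add_im,
    Complex.mul_im, Complex.div_ofNat_re, Complex.div_ofNat_im, Complex.intCast_re,
    Complex.intCast_im, Complex.natCast_re, Complex.natCast_im, Complex.ofReal_re,
    Complex.ofReal_im, Complex.I_re, Complex.I_im]
  push_cast
  linear_combination (c * v) ^ 2 * this

theorem cnt_down {c' : ℕ} (ok : Ok n (c' * p)) (hs : Squarefree n) (hp : p.Prime) (h2 : p ≠ 2)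
    (hk : p ∣ k) (x : Pc n (c' * p)) : ∃ a b, Fo n c' a b ∧
      pj n c' (c' * p) x = cl _ (idl n c' a b) ∧ rP n (c' * p) x k =
        Nat.card {z : ℂ // z ∈ sc p (idl n c' a b) ∧ Complex.normSq z = k * a} := by
  obtain ⟨a, b, hf, -, rfl⟩ := exists_fo ok x one_ne_zero
  have hp' := Nat.prime_iff_prime_int.1 hp
  have c1 : IsCoprime (a : ℤ) p := Nat.isCoprime_iff_coprime.2 hf.1.coprime_mul_left_right
  have c2 : IsCoprime (2 : ℤ) p :=
    Nat.isCoprime_iff_coprime.2 ((Nat.coprime_primes Nat.prime_two hp).2 h2.symm)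
  obtain ⟨s, t, h1⟩ := c2.mul_left c1
  obtain ⟨hc, l, hl⟩ := id hf
  have e1 : idl n (c' * p) a b = idl n (c' * p) a (b * t * p) :=
    idl_congr ⟨b * s, by linear_combination (-b) * h1⟩
  obtain ⟨l', hl'⟩ : 2 * (2 * (a : ℤ)) ∣ (b * t) ^ 2 + n * c' ^ 2 :=
    ((c2.mul_left (c2.mul_left c1)).pow_right (n := 2)).dvd_of_dvd_mul_left
      ⟨l - b ^ 2 * s + b ^ 2 * s ^ 2 * a, by
        push_cast at hl
        linear_combination hl + b ^ 2 * (t * p + 1 - 2 * s * a) * h1⟩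
  have hl2 : (b * t) ^ 2 + n * c' ^ 2 = 4 * a * l' := by linear_combination hl'
  refine ⟨a, b * t, ⟨hc.coprime_mul_right_right, l', hl2⟩, ?_, ?_⟩
  · rw [pj_cl (dvd_mul_right _ _) (hf.isIv ok hs), e1, idl_ext ok.m4 hl2 c1]
  · rw [rP_eq ok hs hf, rq, e1]
    refine Nat.card_congr (Equiv.subtypeEquivRight fun z => and_congr_left fun hz => ?_)
    rw [idl, idl, sc_sp2, ← be_mul, mem_sp2, mem_sp2]
    refine ⟨fun ⟨u, v, e⟩ => ?_, fun ⟨u, v, e⟩ => ⟨u * p, v, by rw [e]; push_cast; ring⟩⟩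
    have h3 := cnt_nsq n (c' * p) (u * a) v (b * t * p)
    rw [Int.cast_mul, ← e, hz] at h3
    have h4 : (4 * (k * a) : ℤ) =
        (2 * (u * a) + v * (b * t * p)) ^ 2 + n * ((c' * p : ℕ) * v) ^ 2 := by exact_mod_cast h3
    obtain ⟨k', rfl⟩ := hk
    obtain ⟨w, rfl⟩ : (p : ℤ) ∣ u := (c2.mul_left c1).symm.dvd_of_dvd_mul_left
      (hp'.dvd_of_dvd_pow (n := 2) ⟨4 * k' * a - 4 * u * a * v * b * t - (v * b * t) ^ 2 * p -
        n * (c' * v) ^ 2 * p, by push_cast at h4; linear_combination (-1 : ℤ) * h4⟩)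
    exact ⟨w, v, by rw [e]; push_cast; ring⟩

theorem cnt_fib {c' : ℕ} (ok : Ok n c) (hs : Squarefree n) (hc : Squarefree c) (hp : p.Prime)
    (h2 : p ≠ 2) (e : c = c' * p) (hk : p ∣ k) {x y : Pc n c} (hxy : pj n c' c x = pj n c' c y) :
    rP n c x k = rP n c y k := by
  subst e
  have ok' : Ok n c' := ⟨ok.m4, ok.gt, left_ne_zero_of_mul ok.ne⟩
  obtain ⟨a, b, h1, h2, h3⟩ := cnt_down ok hs hp h2 hk x
  obtain ⟨a', b', h1', h2', h3'⟩ := cnt_down ok hs hp ‹p ≠ 2› hk y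
  obtain ⟨μ, hμ, e⟩ := (cl_eq_iff (h1.isIv ok' hs) (h1'.isIv ok' hs)).1
    (h2.symm.trans (hxy.trans h2'))
  rw [h3, h3', ← h1.norm ok' h1' e, e, sc_sc p μ, mul_comm (p : ℂ) μ, ← sc_sc μ p,
    mul_left_comm (k : ℝ), cnt_sc hμ]

theorem cnt_zero [Fintype (Pc n c)] (h : Fac n c m D) (hψ : GV n c m ψ) (hk : ¬ k.Coprime c) :
    ∑ x, (ψ x : ℤ) * rP n c x k = 0 := by
  obtain ⟨p, hp, h1, c', e⟩ := Nat.Prime.not_coprime_iff_dvd.1 hk
  rw [mul_comm] at e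
  obtain ⟨y, h2, h3⟩ := cnt_prim h hψ hp e
  have h4 : p ≠ 2 := by
    rintro rfl
    exact h.odd.1.not_two_dvd_nat ((e ▸ dvd_mul_left 2 c' : 2 ∣ c).trans h.dvm)
  have h5 := Fintype.sum_equiv (Equiv.mulLeft y) (fun x => -((ψ x : ℤ) * rP n c x k))
    (fun x => (ψ x : ℤ) * rP n c x k) fun x => by
      rw [Equiv.coe_mulLeft, map_mul, h2, cnt_fib h.toOk h.sqf (h.sqm.squarefree_of_dvd h.dvm) hp
        h4 e h1 (x := y * x) (y := x) (by rw [map_mul, h3, one_mul])]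
      simp
  rw [Finset.sum_neg_distrib] at h5
  omega

end Pool.Agent.H3.T
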