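import Pool.Agent.Lib.MP_23455a_nt.H4.CN0
import Pool.Agent.Lib.MP_23455a_nt.H4.CNt

/-! The real quadratic subfield. -/

set_option autoImplicit false

namespace Pool.Agent.H3.T
open Pool.Agent.Lib.MP_696deb_nt.B2

variable [TwD] {n c D : ℕ}

theorem exists_fac (hn : Nk n) (h : c * TwD.m.gcd n = TwD.m) :
    ∃ D, Fac n c TwD.m D ∧ D % 12 = 5 := by
  have m7 := hn.m7
  have m12 := hn.m12
  obtain ⟨n', e⟩ := Nat.gcd_dvd_right TwD.m n
  have h1 : c.Coprime (TwD.m.gcd n) := Nat.coprime_of_squarefree_mul (h.symm ▸ hn.msq)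
  have hc : c ∣ TwD.m := ⟨_, h.symm⟩
  have h2 : c.Coprime n := by
    rw [Nat.Coprime, ← Nat.gcd_eq_left hc, Nat.gcd_assoc]
    exact h1
  have h3 : n' ∣ n := ⟨_, e.trans (mul_comm _ _)⟩
  have h4 : TwD.m * (c * n') = n * c ^ 2 := by
    generalize TwD.m.gcd n = g at h e
    rw [← h, e]
    ring
  have h5 : c % 2 = 1 := Nat.odd_iff.1 ((Nat.odd_iff.2 (by omega)).of_dvd_nat hc)
  have h6 : ¬ 3 ∣ c := fun k => absurd (k.trans hc) (by omega)
  have h7 : c ^ 2 % 12 = 1 := by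
    have : c % 12 = 1 ∨ c % 12 = 5 ∨ c % 12 = 7 ∨ c % 12 = 11 := by omega
    rcases this with k | k | k | k <;> rw [Nat.pow_mod, k]
  have h8 : c * n' % 12 = 5 := by
    have k := congrArg (· % 12) h4
    simp only [Nat.mul_mod TwD.m, Nat.mul_mod n, m7, m12, h7] at k
    omega
  exact ⟨c * n', ⟨⟨by omega, by omega, by omega⟩, hn.sqf, hn.msq,
    (Nat.squarefree_mul (h2.coprime_dvd_right h3)).2
      ⟨hn.msq.squarefree_of_dvd hc, hn.sqf.squarefree_of_dvd h3⟩,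
    ⟨Nat.odd_iff.2 (by omega), Nat.odd_iff.2 (by omega)⟩, h4, hc, dvd_mul_right _ _, h2⟩, h8⟩

theorem Fac.chi_eq (h : Fac n c TwD.m D) (g : Gam) :
    chi D g = chi (-n) g * chi (-TwD.m) g := by
  have h1 := h.gt
  have h2 := TwD.pos
  have h3 := h.sqD.ne_zero
  have h4 := h.ne
  have h5 : ((TwD.m : ℤ) ^ 2 * D) = (c : ℤ) ^ 2 * (-n * -TwD.m) := by
    have := congrArg (Nat.cast : ℕ → ℤ) h.eq
    push_cast at this
    linear_combination TwD.m * this
  have h6 := congrArg (fun a => chi a g) h5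
  rwa [chi_mul (by positivity) (by omega), chi_sq, one_mul, chi_mul (by positivity)
    (mul_ne_zero (by omega) (by omega)), chi_sq, one_mul, chi_mul (by omega) (by omega)] at h6

theorem Fac.le (h : Fac n c TwD.m D) : GB n ≤ GQ D := fun g hg => by
  rw [mem_GQ, h.chi_eq, mem_GQ.1 hg.1, mem_GQ.1 hg.2, one_mul]

end Pool.Agent.H3.T
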