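import Pool.Agent.Lib.MP_23455a_nt.H3.ZCa
import Pool.Agent.Lib.MP_23455a_nt.H4.CNf

/-! From the two quadratic fields to the biquadratic field. -/

set_option autoImplicit false

open scoped NNReal Classical
open NumberField Finset

namespace Pool.Agent.H3.T
open Pool.Agent.Lib.MP_696deb_nt.B2

theorem cnd_nat {N e : ℕ} (h0 : N ≠ 0) (h : ∀ p : ℕ, p.Prime → e ∣ padicValNat p N) :
    ∃ b : ℕ, b ^ e = N := by
  refine ⟨∏ p ∈ N.primeFactors, p ^ (N.factorization p / e), ?_⟩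
  conv_rhs => rw [← Nat.prod_factorization_pow_eq_self h0]
  rw [← prod_pow, Finsupp.prod, Nat.support_factorization]
  refine prod_congr rfl fun p hp => ?_
  have hp' := Nat.prime_of_mem_primeFactors hp
  rw [← pow_mul, Nat.div_mul_cancel (by rw [Nat.factorization_def _ hp']; exact h p hp')]

theorem cnd_q {r : ℚ} {e : ℕ} (he : Odd e) (h0 : r ≠ 0)
    (h : ∀ p : ℕ, p.Prime → (e : ℤ) ∣ padicValRat p r) : ∃ b : ℚ, b ^ e = r := by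
  have h1 : ∀ p : ℕ, p.Prime → e ∣ padicValNat p r.num.natAbs ∧ e ∣ padicValNat p r.den := by
    intro p hp
    have h2 := h p hp
    rw [padicValRat, padicValInt] at h2
    by_cases k : p ∣ r.den
    · have k1 : ¬ p ∣ r.num.natAbs := fun k' =>
        hp.one_lt.ne' (Nat.eq_one_of_dvd_coprimes r.reduced k' k)
      rw [padicValNat.eq_zero_of_not_dvd k1] at h2 ⊢
      rw [Nat.cast_zero, zero_sub, dvd_neg] at h2
      exact ⟨dvd_zero _, Int.natCast_dvd_natCast.1 h2⟩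
    · rw [padicValNat.eq_zero_of_not_dvd k] at h2 ⊢
      rw [Nat.cast_zero, sub_zero] at h2
      exact ⟨Int.natCast_dvd_natCast.1 h2, dvd_zero _⟩
  obtain ⟨b, hb⟩ := cnd_nat (Int.natAbs_ne_zero.2 (Rat.num_ne_zero.2 h0)) fun p hp => (h1 p hp).1
  obtain ⟨c, hc⟩ := cnd_nat r.den_nz fun p hp => (h1 p hp).2
  have hc' : (c : ℚ) ^ e = r.den := by exact_mod_cast hc
  have hb' : (b : ℤ) ^ e = (r.num.natAbs : ℤ) := by exact_mod_cast hb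
  rcases Int.natAbs_eq r.num with k | k
  · refine ⟨b / c, ?_⟩
    rw [div_pow, hc', ← Int.cast_natCast b, ← Int.cast_pow, hb', ← k, Rat.num_div_den]
  · refine ⟨-b / c, ?_⟩
    rw [div_pow, hc', he.neg_pow, ← Int.cast_natCast b, ← Int.cast_pow, hb', ← Int.cast_neg, ← k,
      Rat.num_div_den]

theorem cnd_three (k : ℕ) : Odd (3 ^ k) := Odd.pow ⟨1, rfl⟩

theorem cnd_out {d : ℤ} {g : Gam} : g ∉ GQ d ↔ chi d g = -1 := by
  rw [mem_GQ]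
  rcases Int.units_eq_one_or (chi d g) with h | h <;> simp [h]

theorem cnd_mul {d : ℤ} {g h : Gam} (hg : g ∉ GQ d) (hh : h ∉ GQ d) : g * h ∈ GQ d := by
  rw [cnd_out] at hg hh
  rw [mem_GQ, map_mul, hg, hh]
  simp

theorem cnd_inv {d : ℤ} {g : Gam} (hg : g ∉ GQ d) : g⁻¹ ∉ GQ d := fun k => hg (inv_mem_iff.1 k)

theorem cnd_two {k : ℕ} {x : ZMod (3 ^ k)} (h : x + x = 0) : x = 0 := by
  have h1 : IsUnit ((2 : ℕ) : ZMod (3 ^ k)) :=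
    (ZMod.isUnit_iff_coprime _ _).2 (Nat.Coprime.pow_right k (by norm_num))
  exact h1.mul_right_eq_zero.1 (by rw [Nat.cast_two, two_mul, h])

/-- Rational numbers whose valuations are divisible are powers. -/
theorem cnd_rat {a : Qbar} (ha : Fx ⊤ a) (a0 : a ≠ 0) {k : ℕ}
    (h : ∀ w : Plc, ∃ t : ℤ, w.V a ^ 2 = ((w.p : ℝ≥0) ^ (3 ^ k * t))⁻¹) :
    ∃ y, Fx ⊤ y ∧ a = y ^ 3 ^ k := by
  obtain ⟨r, rfl⟩ := fx_top ha
  have r0 : r ≠ 0 := fun e => a0 (by rw [e, Rat.cast_zero])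
  obtain ⟨b, hb⟩ := cnd_q (cnd_three k) r0 fun p hp => by
    obtain ⟨w, rfl⟩ := exists_plc hp
    obtain ⟨t, ht⟩ := h w
    rw [w.V_rat r0, inv_pow, inv_inj, ← zpow_natCast, ← zpow_mul] at ht
    have h1 := zpow_right_injective₀ (zero_lt_one.trans (b2a_one_lt w)) (b2a_one_lt w).ne' ht
    refine IsCoprime.dvd_of_dvd_mul_right (y := _) (z := ((2 : ℕ) : ℤ))
      (Nat.isCoprime_iff_coprime.2 (Nat.Coprime.pow_left k (by norm_num))) ?_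
    rw [h1]
    exact ⟨t, by push_cast; rfl⟩
  exact ⟨b, fun g _ => map_ratCast g b, by rw [← hb, Rat.cast_pow]⟩

/-- Unramified characters of a quadratic field are odd. -/
theorem cnd_odd (F : CFT) (ch : ChebStmt) {d : ℤ} {k : ℕ} {η : Gam → ZMod (3 ^ k)}
    (h1 : Sm (GQ d) η) (h2 : IsHom (GQ d) η) (h3 : ∀ w : Plc, ∀ σ ∈ GQ d ⊓ Ine w, η σ = 0)
    {t : Gam} (ht : t ∉ GQ d) : ∀ g ∈ GQ d, η (t * g * t⁻¹) = -η g := by
  have c1 : ∀ g ∈ GQ d, t * g * t⁻¹ ∈ GQ d := fun g hg => (normal_GQ d).conj_mem g hg t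
  have c2 : ∀ g ∉ GQ d, g * t⁻¹ ∈ GQ d := fun g hg => cnd_mul hg (cnd_inv ht)
  have c3 : ∀ g ∉ GQ d, t * g ∈ GQ d := fun g hg => cnd_mul ht hg
  have key := unr_top F ch
    (η := fun g => if g ∈ GQ d then η g + η (t * g * t⁻¹) else η (g * t⁻¹) + η (t * g)) ?_ ?_ ?_
  · intro g hg
    have h4 := key g
    rw [if_pos hg] at h4
    exact eq_neg_of_add_eq_zero_right h4
  · obtain ⟨U, u1, u2, u3⟩ := h1
    have := normal_GQ d
    refine ⟨U ⊓ GQ d, u1.inf (op_GQ d), inferInstance, fun g _ h _ e => ?_⟩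
    have e1 : g⁻¹ * h ∈ U := e.1
    have e2 : t * (g⁻¹ * h) * t⁻¹ ∈ U := u2.conj_mem _ e1 t
    by_cases hg : g ∈ GQ d
    · have hh : h ∈ GQ d := (mul_mem_cancel_left (inv_mem hg)).1 e.2
      simp only [if_pos hg, if_pos hh]
      rw [u3 g hg h hh e1, u3 _ (c1 g hg) _ (c1 h hh) (by convert e2 using 1; group)]
    · have hh : h ∉ GQ d := fun k => hg (inv_mem_iff.1 ((mul_mem_cancel_right k).1 e.2))
      simp only [if_neg hg, if_neg hh]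
      rw [u3 _ (c2 g hg) _ (c2 h hh) (by convert e2 using 1; group),
        u3 _ (c3 g hg) _ (c3 h hh) (by convert e1 using 1; group)]
  · intro g _ h _
    by_cases hg : g ∈ GQ d <;> by_cases hh : h ∈ GQ d
    · simp only [if_pos hg, if_pos hh, if_pos (mul_mem hg hh)]
      rw [show t * (g * h) * t⁻¹ = t * g * t⁻¹ * (t * h * t⁻¹) by group, h2 g hg h hh,
        h2 _ (c1 g hg) _ (c1 h hh)]
      abel
    · have k : g * h ∉ GQ d := fun k => hh ((mul_mem_cancel_left hg).1 k)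
      simp only [if_pos hg, if_neg hh, if_neg k]
      rw [show t * (g * h) = t * g * t⁻¹ * (t * h) by group, mul_assoc g, h2 g hg _ (c2 h hh),
        h2 _ (c1 g hg) _ (c3 h hh)]
      abel
    · have k : g * h ∉ GQ d := fun k => hg ((mul_mem_cancel_right hh).1 k)
      simp only [if_neg hg, if_pos hh, if_neg k]
      rw [show g * h * t⁻¹ = g * t⁻¹ * (t * h * t⁻¹) by group, ← mul_assoc t g h,
        h2 _ (c2 g hg) _ (c1 h hh), h2 _ (c3 g hg) h hh]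
      abel
    · simp only [if_neg hg, if_neg hh, if_pos (cnd_mul hg hh)]
      rw [show t * (g * h) * t⁻¹ = t * g * (h * t⁻¹) by group,
        show g * h = g * t⁻¹ * (t * h) by group, h2 _ (c2 g hg) _ (c3 h hh),
        h2 _ (c3 g hg) _ (c2 h hh)]
      abel
  · intro w σ hσ
    by_cases hg : σ ∈ GQ d
    · simp only [if_pos hg]
      rw [h3 w σ ⟨hg, hσ⟩, h3 (t • w) _ ⟨c1 σ hg, mem_Ine_smul.2 (by convert hσ using 1; group)⟩,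
        add_zero]
    · simp only [if_neg hg]
      rw [← h2 _ (c2 σ hg) _ (c3 σ hg), show σ * t⁻¹ * (t * σ) = σ * σ by group]
      exact h3 w _ ⟨cnd_mul hg hg, mul_mem hσ hσ⟩

theorem cnd_fx {d : ℤ} {H : Subgroup Gam} {y : Qbar} (hy : ∀ g ∈ H, g ∈ GQ d → g y = y) {s : Gam}
    (hs : s ∈ H) (hs' : s ∉ GQ d) : Fx H (y * s y) := by
  intro g hg
  have e : ∀ x, g x = s ((s⁻¹ * g) x) := fun x => by
    rw [← AlgEquiv.mul_apply, mul_inv_cancel_left]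
  rw [map_mul]
  by_cases k : g ∈ GQ d
  · rw [hy g hg k, e, ← AlgEquiv.mul_apply _ s, hy _ (mul_mem (mul_mem (inv_mem hs) hg) hs)
      (by simpa using (normal_GQ d).conj_mem g k s⁻¹)]
  · rw [e y, hy _ (mul_mem (inv_mem hs) hg) (cnd_mul (cnd_inv hs') k), ← AlgEquiv.mul_apply g s,
      hy _ (mul_mem hg hs) (cnd_mul k hs'), mul_comm]

theorem cnd_val {k : ℕ} {a b : Qbar} {w : Plc}
    (h : ∃ t : ℤ, w.V a ^ 2 = ((w.p : ℝ≥0) ^ (3 ^ k * t))⁻¹)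
    (h' : ∃ t : ℤ, w.V b ^ 2 = ((w.p : ℝ≥0) ^ (3 ^ k * t))⁻¹) :
    ∃ t : ℤ, w.V (a * b) ^ 2 = ((w.p : ℝ≥0) ^ (3 ^ k * t))⁻¹ := by
  obtain ⟨t, ht⟩ := h
  obtain ⟨t', ht'⟩ := h'
  exact ⟨t + t', by rw [map_mul, mul_pow, ht, ht', mul_add,
    zpow_add₀ (zero_lt_one.trans (b2a_one_lt w)).ne', mul_inv]⟩

theorem cnd_norm {d : ℤ} {k : ℕ} {a : Qbar} (h : a ≠ 0 ∧ Fx (GQ d) a ∧
    ∀ w : Plc, ∃ t : ℤ, w.V a ^ 2 = ((w.p : ℝ≥0) ^ (3 ^ k * t))⁻¹) {s : Gam} (hs : s ∉ GQ d) :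
    ∃ y, y ≠ 0 ∧ Fx ⊤ y ∧ a * s a = y ^ 3 ^ k := by
  have h0 : a * s a ≠ 0 := mul_ne_zero h.1 ((map_ne_zero s).2 h.1)
  obtain ⟨y, h1, h2⟩ := cnd_rat (cnd_fx (H := ⊤) (fun g _ hg => h.2.1 g hg) trivial hs) h0
    fun w => cnd_val (h.2.2 w) (h.2.2 (s⁻¹ • w))
  exact ⟨y, fun e => h0 (by rw [h2, e, zero_pow (cnd_three k).pos.ne']), h1, h2⟩

theorem cnd_inj {d : ℤ} {H : Subgroup Gam} {k : ℕ} {a a' b b' y : Qbar} (ha : Fx H a)
    (ha' : Fx H a') (a0 : a ≠ 0) (a0' : a' ≠ 0)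
    (hb : b ≠ 0 ∧ Fx (GQ d) b ∧ ∀ w : Plc, ∃ t : ℤ, w.V b ^ 2 = ((w.p : ℝ≥0) ^ (3 ^ k * t))⁻¹)
    (hb' : b' ≠ 0 ∧ Fx (GQ d) b' ∧ ∀ w : Plc, ∃ t : ℤ, w.V b' ^ 2 = ((w.p : ℝ≥0) ^ (3 ^ k * t))⁻¹)
    (hy : ∀ g ∈ H, g ∈ GQ d → g y = y) {s : Gam} (hs : s ∈ H) (hs' : s ∉ GQ d)
    (e : a * b = a' * b' * y ^ 3 ^ k) : ∃ u, Fx H u ∧ a = a' * u ^ 3 ^ k := by
  obtain ⟨z, z0, z1, z2⟩ := cnd_norm hb hs'
  obtain ⟨z', -, z1', z2'⟩ := cnd_norm hb' hs'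
  have e' := congrArg s e
  rw [map_mul, map_mul, map_mul, map_pow, ha s hs, ha' s hs] at e'
  obtain ⟨r, hr⟩ := cnd_three k
  have h1 : (a / a') ^ 2 = (z' * (y * s y) / z) ^ 3 ^ k := by
    rw [div_pow, div_pow, mul_pow, mul_pow, ← z2, ← z2',
      div_eq_div_iff (pow_ne_zero _ a0') (by rw [z2]; exact pow_ne_zero _ z0)]
    calc _ = a * b * (a * s b) := by ring
      _ = _ := by rw [e, e']; ring
  refine ⟨a / a' / (z' * (y * s y) / z) ^ r, fun g hg => ?_, ?_⟩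
  · rw [map_div₀, map_div₀, map_pow, map_div₀, map_mul, ha g hg, ha' g hg, z1 g trivial,
      z1' g trivial, cnd_fx hy hs hs' g hg]
  · rw [div_pow, ← pow_mul, mul_comm r, pow_mul, ← h1, ← pow_mul, hr]
    have := div_ne_zero a0 a0'
    rw [pow_succ, mul_div_cancel_left₀ _ (pow_ne_zero _ this), mul_div_cancel₀ _ a0']

theorem cnd_inj' (F : CFT) (ch : ChebStmt) {d : ℤ} {H : Subgroup Gam} {k : ℕ}
    {η η' θ θ' : Gam → ZMod (3 ^ k)} (h : IsHom H η) (h' : IsHom H η')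
    (k1 : Sm (GQ d) θ ∧ IsHom (GQ d) θ ∧ ∀ w : Plc, ∀ σ ∈ GQ d ⊓ Ine w, θ σ = 0)
    (k2 : Sm (GQ d) θ' ∧ IsHom (GQ d) θ' ∧ ∀ w : Plc, ∀ σ ∈ GQ d ⊓ Ine w, θ' σ = 0)
    {s : Gam} (hs : s ∈ H) (hs' : s ∉ GQ d)
    (e : ∀ g ∈ H, g ∈ GQ d → η g + θ g = η' g + θ' g) : ∀ g ∈ H, η g = η' g := by
  have c1 : ∀ η : Gam → ZMod (3 ^ k), IsHom H η → ∀ g ∈ H, η (s * g * s⁻¹) = η g := by
    intro η h g hg
    have h1 := h _ (mul_mem (mul_mem hs hg) (inv_mem hs)) s hs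
    rw [inv_mul_cancel_right, h s hs g hg, add_comm] at h1
    exact (add_right_cancel h1).symm
  have c2 : ∀ g ∈ H, g ∈ GQ d → η g = η' g := by
    intro g hg hg'
    have h1 := e _ (mul_mem (mul_mem hs hg) (inv_mem hs)) ((normal_GQ d).conj_mem g hg' s)
    rw [c1 η h g hg, c1 η' h' g hg, cnd_odd F ch k1.1 k1.2.1 k1.2.2 hs' g hg',
      cnd_odd F ch k2.1 k2.2.1 k2.2.2 hs' g hg'] at h1
    exact sub_eq_zero.1 (cnd_two (by linear_combination h1 + e g hg hg'))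
  intro g hg
  by_cases hg' : g ∈ GQ d
  · exact c2 g hg hg'
  · have h1 := c2 _ (mul_mem hg hg) (cnd_mul hg' hg')
    rw [h g hg g hg, h' g hg g hg] at h1
    exact sub_eq_zero.1 (cnd_two (by linear_combination h1))

variable [TwD] {n D j c c' c0 : ℕ}

theorem cnd_mem (hn : Nk n) (e : Fac n c0 TwD.m D) {g : Gam} (h : g ∈ GQ D) (h' : g ∈ GM) :
    g ∈ GB n := by
  have h1 := e.chi_eq g
  rw [mem_GQ.1 h, B4c_mem.1 h', mul_one] at h1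
  exact ⟨B4c_mem.2 h1.symm, h'⟩

theorem cnd_ga (hn : Nk n) (e : Fac n c0 TwD.m D) : ga ∉ GQ D := by
  rw [cnd_out, e.chi_eq, B4c_mem.1 hn.gm, B4c_notMem.1 ga_GM, one_mul]

theorem cnd_cc (hn : Nk n) (e : Fac n c0 TwD.m D) : cc ∈ GQ D := by
  have h1 := hn.m12
  rw [mem_GQ, e.chi_eq, B4c_notMem.1 (cc_notMem (by omega)), B4c_notMem.1 cc_GM]
  simp

theorem cnd_gc (hn : Nk n) (e : Fac n c0 TwD.m D) : ga * cc ∉ GQ D := fun k =>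
  cnd_ga hn e ((mul_mem_cancel_right (cnd_cc hn e)).1 k)

theorem cnd_kum (hn : Nk n) (e : Fac n c0 TwD.m D) (h : KumF (GQ D) j c) (h' : KumF GM j c') :
    ∃ (A : Type) (a : A → Qbar), c * c' ≤ Nat.card A ∧
    (∀ i, a i ≠ 0 ∧ Fx (GB n) (a i) ∧ (∃ y, Fx (GB n) y ∧ a i * ga (a i) = y ^ 3 ^ j) ∧
      ∀ w : Plc, ∃ t : ℤ, w.V (a i) ^ 2 = ((w.p : ℝ≥0) ^ (3 ^ j * t))⁻¹) ∧
    ∀ i i' y, Fx (GB n) y → a i = a i' * y ^ 3 ^ j → i = i' := by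
  obtain ⟨A, a, h1, h2, h3⟩ := h
  obtain ⟨A', a', h1', h2', h3'⟩ := h'
  refine ⟨A × A', fun i => a i.1 * a' i.2, ?_, fun i => ⟨mul_ne_zero (h2 _).1 (h2' _).1,
    fun g hg => ?_, ?_, fun w => cnd_val ((h2 _).2.2 w) ((h2' _).2.2 w)⟩, fun i i' y hy k => ?_⟩
  · rw [Nat.card_prod]
    exact Nat.mul_le_mul h1 h1'
  · rw [map_mul, (h2 _).2.1 g (e.le hg), (h2' _).2.1 g hg.2]
  · obtain ⟨y, -, y1, y2⟩ := cnd_norm (h2 i.1) (cnd_ga hn e)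
    obtain ⟨z, -, z1, z2⟩ := cnd_norm (d := -TwD.m) (h2' i.2) ga_GM
    refine ⟨y * z, fun g _ => by rw [map_mul, y1 g trivial, z1 g trivial], ?_⟩
    rw [mul_pow, ← y2, ← z2, map_mul]
    ring
  · obtain ⟨u, u1, u2⟩ := cnd_inj (d := -TwD.m) (h2 i.1).2.1 (h2 i'.1).2.1 (h2 _).1 (h2 _).1
      (h2' i.2) (h2' i'.2) (fun g hg hg' => hy g (cnd_mem hn e hg hg')) (cnd_cc hn e) cc_GM k
    obtain ⟨v, v1, v2⟩ := cnd_inj (h2' i.2).2.1 (h2' i'.2).2.1 (h2' _).1 (h2' _).1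
      (h2 i.1) (h2 i'.1) (fun g hg hg' => hy g (cnd_mem hn e hg' hg)) gc_GM (cnd_gc hn e)
      (by rw [mul_comm (a' _), mul_comm (a' _)]; exact k)
    exact Prod.ext (h3 _ _ u u1 u2) (h3' _ _ v v1 v2)

theorem cnd_chr (F : CFT) (ch : ChebStmt) (hn : Nk n) (e : Fac n c0 TwD.m D) (h : ChrF (GQ D) j c)
    (h' : ChrF GM j c') : ∃ (A : Type) (η : A → Gam → ZMod (3 ^ j)), c * c' ≤ Nat.card A ∧
    (∀ i, Sm (GB n) (η i) ∧ IsHom (GB n) (η i) ∧ (∀ w : Plc, ∀ σ ∈ GB n ⊓ Ine w, η i σ = 0) ∧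
      ∀ g ∈ GB n, η i (ga * g * ga⁻¹) = -η i g) ∧
    ∀ i i', (∀ g ∈ GB n, η i g = η i' g) → i = i' := by
  obtain ⟨A, a, h1, h2, h3⟩ := h
  obtain ⟨A', a', h1', h2', h3'⟩ := h'
  have l1 := e.le
  have l2 : GB n ≤ GM := inf_le_right
  refine ⟨A × A', fun i g => a i.1 g + a' i.2 g, ?_, fun i =>
    ⟨((h2 _).1.mono l1).comp₂ ((h2' _).1.mono l2) (· + ·), fun g hg k hk => ?_,
      fun w σ hσ => ?_, fun g hg => ?_⟩, fun i i' k => Prod.ext (h3 _ _ ?_) (h3' _ _ ?_)⟩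
  · rw [Nat.card_prod]
    exact Nat.mul_le_mul h1 h1'
  · beta_reduce
    rw [(h2 _).2.1 g (l1 hg) k (l1 hk), (h2' _).2.1 g (l2 hg) k (l2 hk)]
    abel
  · beta_reduce
    rw [(h2 _).2.2 w σ ⟨l1 hσ.1, hσ.2⟩, (h2' _).2.2 w σ ⟨l2 hσ.1, hσ.2⟩, add_zero]
  · beta_reduce
    rw [cnd_odd F ch (h2 _).1 (h2 _).2.1 (h2 _).2.2 (cnd_ga hn e) g (l1 hg),
      cnd_odd F ch (d := -TwD.m) (h2' _).1 (h2' _).2.1 (h2' _).2.2 ga_GM g (l2 hg)]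
    abel
  · exact cnd_inj' F ch (d := -TwD.m) (h2 _).2.1 (h2 _).2.1 (h2' i.2) (h2' i'.2) (cnd_cc hn e)
      cc_GM fun g hg hg' => k g (cnd_mem hn e hg hg')
  · exact cnd_inj' F ch (h2' _).2.1 (h2' _).2.1 (h2 i.1) (h2 i'.1) gc_GM (cnd_gc hn e)
      fun g hg hg' => by rw [add_comm, add_comm (a' _ _)]; exact k g (cnd_mem hn e hg' hg)

end Pool.Agent.H3.T
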