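import Pool.Agent.Lib.MP_23455a_nt.H4.CN0

/-! The class group of a quadratic field: Kummer theory and characters. -/

set_option autoImplicit false

open scoped NNReal Classical
open NumberField Finset

namespace Pool.Agent.H3.T
open Pool.Agent.Lib.MP_696deb_nt.B2

variable {d : ℤ} {k : ℕ}

theorem cnk_syl {G : Type} [CommGroup G] [Finite G] (h : padicValNat 3 (Nat.card G) ≤ k) :
    3 ^ padicValNat 3 (Nat.card G) ≤ Nat.card {c : G // c ^ 3 ^ k = 1} := by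
  have : Fact (Nat.Prime 3) := ⟨Nat.prime_three⟩
  obtain ⟨P, hP⟩ := Sylow.exists_subgroup_card_pow_prime (G := G) 3
    (pow_padicValNat_dvd (p := 3) (n := Nat.card G))
  refine hP ▸ Nat.card_le_card_of_injective (fun x : P => ⟨x.1, ?_⟩)
    fun x y e => Subtype.ext (Subtype.mk.inj e)
  obtain ⟨j, rfl⟩ := Nat.exists_eq_add_of_le h
  rw [pow_add, pow_mul, ← hP, ← Subgroup.coe_pow, pow_card_eq_one', Subgroup.coe_one, one_pow]

theorem cnk_card {G : Type} [CommGroup G] [Finite G] (h : padicValNat 3 (Nat.card G) ≤ k) :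
    3 ^ padicValNat 3 (Nat.card G) ≤ Nat.card {c : G // c ^ 3 ^ k = 1} ∧
      3 ^ padicValNat 3 (Nat.card G) ≤ Nat.card (G →* Multiplicative (ZMod (3 ^ k))) := by
  refine ⟨cnk_syl h, ?_⟩
  have : NeZero (Monoid.exponent G) := ⟨Monoid.exponent_ne_zero_of_finite⟩
  have e := CommGroup.card_monoidHom_of_hasEnoughRootsOfUnity G ℂ
  have : Finite (G →* ℂˣ) := Nat.finite_of_card_ne_zero (e ▸ Nat.card_pos.ne')
  have : Finite (G →* Multiplicative (ZMod (3 ^ k))) := DFunLike.finite _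
  let φ : rootsOfUnity (3 ^ k) ℂ ≃* Multiplicative (ZMod (3 ^ k)) := mulEquivOfCyclicCardEq (by
    rw [Complex.card_rootsOfUnity]
    simp)
  rw [← e] at h ⊢
  refine (cnk_syl h).trans (Nat.card_le_card_of_injective (fun χ => φ.toMonoidHom.comp
    (χ.1.codRestrict _ fun g => DFunLike.congr_fun χ.2 g)) fun χ ψ e => ?_)
  exact Subtype.ext (MonoidHom.ext fun g =>
    congrArg Subtype.val (φ.injective (DFunLike.congr_fun e g)))

/-- Generators of powers of ideals. -/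
theorem cnk_sel (K : Type) [Field K] [NumberField K] {N : ℕ} (hN : N ≠ 0) :
    ∃ a : {c : ClassGroup (𝓞 K) // c ^ N = 1} → 𝓞 K,
      (∀ c, a c ≠ 0 ∧ ∃ I : Ideal (𝓞 K), Ideal.span {a c} = I ^ N) ∧
      ∀ c c' (u u' : (𝓞 K)ˣ) (y : K), ((u * a c : 𝓞 K) : K) = (u' * a c' : 𝓞 K) * y ^ N →
        c = c' ∧ ∃ v : (𝓞 K)ˣ, u = u' * v ^ N := by
  choose I hI using ClassGroup.mk0_surjective (R := 𝓞 K)
  have h1 : ∀ c : {c : ClassGroup (𝓞 K) // c ^ N = 1}, ∃ a : 𝓞 K,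
      Ideal.span {a} = (I c.1).1 ^ N := fun c => by
    have := (ClassGroup.mk0_eq_one_iff (I c.1 ^ N).2).1 (by rw [Subtype.coe_eta, map_pow, hI, c.2])
    exact ⟨_, this.span_singleton_generator⟩
  choose a ha using h1
  have a0 : ∀ c, a c ≠ 0 := fun c h => pow_ne_zero N (nonZeroDivisors.coe_ne_zero (I c.1))
    (by rw [← ha, h, Ideal.span_singleton_zero, Ideal.zero_eq_bot])
  refine ⟨a, fun c => ⟨a0 c, _, ha c⟩, fun c c' u u' y e => ?_⟩
  obtain ⟨r, s, hs, rfl⟩ := IsFractionRing.div_surjective (A := 𝓞 K) y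
  have s0 := nonZeroDivisors.ne_zero hs
  have s1 : algebraMap (𝓞 K) K s ≠ 0 := RingOfIntegers.coe_ne_zero_iff.2 s0
  have e1 : u * a c * s ^ N = u' * a c' * r ^ N := by
    rw [div_pow, ← mul_div_assoc, eq_div_iff (pow_ne_zero _ s1)] at e
    exact RingOfIntegers.coe_injective (by simpa only [map_mul, map_pow] using e)
  have r0 : r ≠ 0 := by
    rintro rfl
    rw [zero_pow hN, mul_zero] at e1
    exact mul_ne_zero (mul_ne_zero u.ne_zero (a0 c)) (pow_ne_zero _ s0) e1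
  have e2 : Ideal.span {s} * (I c.1).1 = Ideal.span {r} * (I c'.1).1 := by
    refine pow_left_injective hN ?_
    have := congrArg (fun x => Ideal.span {x}) e1
    simp only [← Ideal.span_singleton_mul_span_singleton, ← Ideal.span_singleton_pow,
      Ideal.span_singleton_eq_top.2 (Units.isUnit _), Ideal.top_mul, ha] at this
    simp only [mul_pow]
    rw [mul_comm, this, mul_comm]
  obtain rfl : c = c' := Subtype.ext
    ((hI _).symm.trans ((ClassGroup.mk0_eq_mk0_iff.2 ⟨s, r, s0, r0, e2⟩).trans (hI _)))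
  obtain ⟨v, rfl⟩ := Ideal.span_singleton_eq_span_singleton.1
    (mul_right_cancel₀ (nonZeroDivisors.coe_ne_zero _) e2)
  refine ⟨rfl, v, Units.ext (mul_right_cancel₀ (mul_ne_zero (a0 c) (pow_ne_zero N s0)) ?_)⟩
  push_cast
  linear_combination e1

theorem cnk_step (w : Plc) {r : Qbar} (hr : Fx (GQ d) r) (r0 : r ≠ 0) :
    ∃ t : ℤ, w.V r ^ 2 = ((w.p : ℝ≥0) ^ t)⁻¹ := by
  suffices h : ∃ y, Fx (Dec w) y ∧ w.V y = w.V r ^ 2 by
    obtain ⟨y, h1, h2⟩ := h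
    exact h2 ▸ b3a_dec h1 (w.V.ne_zero_iff.1 (h2 ▸ pow_ne_zero _ (w.V.ne_zero_iff.2 r0)))
  by_cases hI : Dec w ≤ GQ d
  · exact ⟨r ^ 2, fun σ hσ => by rw [map_pow, hr σ (hI hσ)], map_pow _ _ _⟩
  obtain ⟨i, hi, hi'⟩ := SetLike.not_le_iff_exists.1 hI
  refine ⟨r * i r, fun σ _ => ?_, by rw [map_mul, mem_Dec.1 hi, sq]⟩
  rw [map_mul]
  by_cases hs : σ ∈ GQ d
  · rw [hr σ hs, zva_app, hr _ ((normal_GQ d).conj_mem' σ hs i)]
  · have h2 := congrArg i (hr _ (mul_mem_GQ (fun k => hi' (inv_mem_iff.1 k)) hs))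
    rw [← AlgEquiv.mul_apply, mul_inv_cancel_left] at h2
    rw [h2, ← AlgEquiv.mul_apply σ, hr _ (mul_mem_GQ hs hi'), mul_comm]

theorem cnk_val {N : ℕ} {a : 𝓞 (Kf (GQ d))} (a0 : a ≠ 0) {I : Ideal (𝓞 (Kf (GQ d)))}
    (h : Ideal.span {a} = I ^ N) (w : Plc) :
    ∃ t : ℤ, w.V ((a : Kf (GQ d)) : Qbar) ^ 2 = ((w.p : ℝ≥0) ^ (N * t))⁻¹ := by
  let f : 𝓞 (Kf (GQ d)) →+* Qbar := (algebraMap (Kf (GQ d)) Qbar).comp (algebraMap _ _)
  let V := w.V.comap f
  have V1 : ∀ x, V x ≤ 1 := fun x =>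
    w.V_le_one_of_isIntegral (x.isIntegral_coe.map (IsScalarTower.toAlgHom ℤ (Kf (GQ d)) Qbar))
  have Vm : ∀ x y, V (x * y) ≤ V y := fun x y => by
    rw [map_mul]
    exact mul_le_of_le_one_left' (V1 x)
  let J : ℝ≥0 → Ideal (𝓞 (Kf (GQ d))) := fun r =>
    { carrier := {x | V x ≤ r}
      add_mem' := V.map_add_le
      zero_mem' := (map_zero V).trans_le zero_le
      smul_mem' := fun c x hx => (Vm c x).trans hx }
  obtain ⟨s, rfl⟩ := IsNoetherian.noetherian I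
  obtain ⟨b, hb, hm⟩ := exists_max_image (insert 0 s) V (insert_nonempty _ _)
  have h1 : Submodule.span _ (s : Set (𝓞 (Kf (GQ d)))) ≤ J (V b) :=
    Submodule.span_le.2 fun x hx => hm x (mem_insert_of_mem hx)
  have h2 : ∀ n : ℕ, J (V b) ^ n ≤ J (V b ^ n) := fun n => by
    induction n with
    | zero => exact fun x _ => (V1 x).trans_eq (pow_zero _).symm
    | succ n ih =>
      rw [pow_succ, pow_succ]
      exact Ideal.mul_le.2 fun x hx y hy => (map_mul V x y).trans_le (mul_le_mul' (ih hx) hy)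
  have h3 : V a ≤ V b ^ N :=
    h2 N (Ideal.pow_right_mono h1 N (h ▸ Ideal.mem_span_singleton_self a))
  have h4 : b ^ N ∈ Ideal.span {a} := h ▸ Ideal.pow_mem_pow (by
    rcases mem_insert.1 hb with rfl | hb
    exacts [zero_mem _, Submodule.subset_span hb]) N
  obtain ⟨c, hc⟩ := Ideal.mem_span_singleton'.1 h4
  have h5 : V a = V b ^ N := le_antisymm h3 (by rw [← map_pow, ← hc]; exact Vm c a)
  change ∃ t : ℤ, V a ^ 2 = _
  rcases eq_or_ne N 0 with rfl | hN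
  · exact ⟨0, by simp [h5]⟩
  obtain ⟨t, ht⟩ := cnk_step w (fx_Kf (b : Kf (GQ d))) fun e => by
    obtain rfl : b = 0 := by simpa using e
    rw [map_zero, zero_pow hN] at h5
    exact a0 (by simpa [f] using w.V.zero_iff.1 h5)
  exact ⟨t, by rw [h5, pow_right_comm, ← zva_pow, ← ht]; rfl⟩

theorem cnk_vh (h : vh d ≤ k) :
    3 ^ vh d ≤ Nat.card {c : ClassGroup (𝓞 (Kf (GQ d))) // c ^ 3 ^ k = 1} := by
  rw [vh, classNumber, ← Nat.card_eq_fintype_card] at h ⊢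
  exact cnk_syl h

theorem cnk_kum {A : Type} {c : ℕ} (hc : c ≤ Nat.card A) (a : A → 𝓞 (Kf (GQ d)))
    (h1 : ∀ i, a i ≠ 0 ∧ ∃ I, Ideal.span {a i} = I ^ 3 ^ k)
    (h2 : ∀ i j (y : Kf (GQ d)), (a i : Kf (GQ d)) = a j * y ^ 3 ^ k → i = j) : KumF (GQ d) k c := by
  refine ⟨A, fun i => (a i : Kf (GQ d)), hc, fun i => ⟨by simpa using (h1 i).1, fx_Kf _,
    fun w => ?_⟩, fun i j y hy e => h2 i j ⟨y, b3a_fx.1 hy⟩ (Subtype.ext e)⟩
  obtain ⟨a0, I, hI⟩ := h1 i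
  exact_mod_cast cnk_val a0 hI w

theorem kumF_neg (h : vh d ≤ k) : KumF (GQ d) k (3 ^ vh d) := by
  obtain ⟨a, h1, h2⟩ := cnk_sel (Kf (GQ d)) (N := 3 ^ k) (by positivity)
  exact cnk_kum (cnk_vh h) a h1 fun i j y e => (h2 i j 1 1 y (by simpa using e)).1

theorem kumF_pos (hs : Squarefree d) (h4 : d % 4 = 1) (h1 : 1 < d) (h : vh d ≤ k) :
    KumF (GQ d) k (3 ^ (k + vh d)) := by
  obtain ⟨a, h2, h3⟩ := cnk_sel (Kf (GQ d)) (N := 3 ^ k) (by positivity)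
  obtain ⟨ε, h5, h6⟩ := (qd_GQ hs h4 h1.ne').fund (by omega)
    (jC.comp (algebraMap (Kf (GQ d)) Qbar))
  let f : 𝓞 (Kf (GQ d)) →+* ℂ := (jC.comp (algebraMap (Kf (GQ d)) Qbar)).comp (algebraMap _ _)
  let L : (𝓞 (Kf (GQ d)))ˣ →* Multiplicative ℝ := MonoidHom.mk' (fun u => .ofAdd (Real.log ‖f u‖))
    fun u v => by
      rw [Units.val_mul, map_mul, norm_mul, Real.log_mul (norm_ne_zero_iff.2 (u.isUnit.map f).ne_zero)
        (norm_ne_zero_iff.2 (v.isUnit.map f).ne_zero), ofAdd_add]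
  have L1 : L ε = .ofAdd (Units.regulator (Kf (GQ d))) := congrArg Multiplicative.ofAdd h5
  have L2 : ∀ u, L (-u) = L u := fun u => by
    simp only [L, MonoidHom.mk'_apply, Units.val_neg, map_neg, norm_neg]
  refine cnk_kum (A := Fin (3 ^ k) × {c : ClassGroup (𝓞 (Kf (GQ d))) // c ^ 3 ^ k = 1})
    ?_ (fun i => (ε ^ i.1.1 : (𝓞 (Kf (GQ d)))ˣ) * a i.2) (fun i => ?_) fun i j y e => ?_
  · rw [Nat.card_prod, Nat.card_fin, pow_add]
    exact Nat.mul_le_mul_left _ (cnk_vh h)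
  · rw [Ideal.span_singleton_mul_left_unit (Units.isUnit _)]
    exact ⟨mul_ne_zero (Units.ne_zero _) (h2 _).1, (h2 _).2⟩
  obtain ⟨h7, v, h8⟩ := h3 _ _ _ _ y e
  obtain ⟨m, h9⟩ := h6 v
  have L3 : L v = L ε ^ m := by rcases h9 with rfl | rfl <;> simp only [L2, map_zpow]
  have L4 := congrArg (fun u => (L u).toAdd) h8
  simp only [map_mul, map_pow, L3, L1, toAdd_mul, toAdd_pow, toAdd_zpow, toAdd_ofAdd, nsmul_eq_mul,
    zsmul_eq_mul] at L4
  have L5 : (i.1.1 : ℤ) = j.1.1 + (3 ^ k : ℕ) * m := by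
    have := mul_right_cancel₀ (Units.regulator_ne_zero (Kf (GQ d)))
      (L4.trans (by rw [← mul_assoc, ← add_mul]))
    exact_mod_cast this
  refine Prod.ext (Fin.ext (Nat.ModEq.eq_of_lt_of_lt (Nat.modEq_iff_dvd.2 ⟨-m, ?_⟩) i.1.2 j.1.2)) h7
  rw [L5]
  ring

end Pool.Agent.H3.T
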