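import Mathlib

/-! The ring of integers, the discriminant and the prime ideals of a quadratic field of odd
discriminant. -/

set_option autoImplicit false

open NumberField IsDedekindDomain Polynomial Module NumberTheorySymbols
open scoped Classical

namespace Pool.Agent.H3.T

variable {K : Type} [Field K] [NumberField K] {d m : ℤ}

theorem cnq1_beta {δ : K} (hm : 4 * m = 1 - d) (hδ : δ ^ 2 = d) :
    ∃ β : 𝓞 K, β ^ 2 = β - m := by
  have h4 : (4 : K) * m = 1 - d := by exact_mod_cast congrArg (Int.cast : ℤ → K) hm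
  have h5 : ((1 + δ) / 2) ^ 2 = (1 + δ) / 2 - m := by linear_combination hδ / 4 + h4 / 4
  have h6 : IsIntegral ℤ ((1 + δ) / 2) := by
    refine ⟨X ^ 2 - X + C m, by monicity!, ?_⟩
    rw [eval₂_add, eval₂_sub, eval₂_X_pow, eval₂_X, eval₂_C, h5, eq_intCast]
    ring
  exact ⟨⟨_, h6⟩, Subtype.ext h5⟩

variable {β : 𝓞 K}

theorem cnq1_ind (hs : Squarefree d) (h1 : d ≠ 1) (hm : 4 * m = 1 - d) (hβ : β ^ 2 = β - m)
    {s t : ℤ} (h : s + t * β = 0) : s = 0 ∧ t = 0 := by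
  have h4 : (4 : 𝓞 K) * m = 1 - d := by exact_mod_cast congrArg (Int.cast : ℤ → 𝓞 K) hm
  have h2 : (((2 * s + t) ^ 2 - t ^ 2 * d : ℤ) : 𝓞 K) = 0 := by
    push_cast
    linear_combination (4 * s + 4 * t - 4 * t * β) * h + 4 * t ^ 2 * hβ - t ^ 2 * h4
  rw [Int.cast_eq_zero, sub_eq_zero] at h2
  have h3 : t = 0 := by
    by_contra e
    obtain ⟨r, hr⟩ := (Int.pow_dvd_pow_iff two_ne_zero).1 ⟨d, h2⟩
    rw [hr, mul_pow, mul_right_inj' (pow_ne_zero 2 e), sq] at h2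
    exact h1 (h2 ▸ Int.isUnit_mul_self (hs r h2.dvd))
  exact ⟨by simpa [h3] using h, h3⟩

theorem cnq1_bas (hs : Squarefree d) (h1 : d ≠ 1) (hm : 4 * m = 1 - d) (hK : finrank ℚ K = 2)
    (hβ : β ^ 2 = β - m) : discr K = d ∧ ∀ x : 𝓞 K, ∃ a b : ℤ, x = a + b * β := by
  let b := finBasisOfFinrankEq ℤ (𝓞 K) ((RingOfIntegers.rank K).trans hK)
  have t1 : Algebra.trace ℤ (𝓞 K) β = 1 := by
    have := Matrix.aeval_self_charpoly (Algebra.leftMulMatrix b β)
    rw [aeval_algHom_apply, map_eq_zero_iff _ (Algebra.leftMulMatrix_injective b),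
      Matrix.charpoly_fin_two, ← Algebra.trace_eq_matrix_trace] at this
    simp only [map_add, map_sub, map_mul, aeval_X, map_intCast, eq_intCast, map_pow] at this
    generalize (Algebra.leftMulMatrix b β).det = e at this
    have := (cnq1_ind hs h1 hm hβ (s := e - m)
      (t := 1 - Algebra.trace ℤ (𝓞 K) β) (by push_cast; linear_combination this - hβ)).2
    omega
  have t0 : ∀ a : ℤ, Algebra.trace ℤ (𝓞 K) a = 2 * a := fun a => by
    have := Algebra.trace_algebraMap_of_basis b a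
    simpa using this
  have d1 : Algebra.discr ℤ ![1, β] = d := by
    have := t0 1
    rw [Int.cast_one] at this
    simp only [Algebra.discr_def, Matrix.det_fin_two, Algebra.traceMatrix_apply,
      Algebra.traceForm_apply, Matrix.cons_val_zero, Matrix.cons_val_one, mul_one, one_mul, ← sq,
      hβ, map_sub, t0, t1, this, one_pow]
    omega
  have d2 := Algebra.discr_of_matrix_vecMul b (b.toMatrix ![1, β])
  rw [Basis.toMatrix_map_vecMul, d1, discr_eq_discr] at d2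
  have u : IsUnit (b.toMatrix ![1, β]).det := hs _ ⟨discr K, by linear_combination d2⟩
  refine ⟨by rcases Int.isUnit_iff.1 u with e | e <;> simp [d2, e], fun x => ?_⟩
  have := (b.is_basis_iff_det (v := ![1, β])).2 u
  obtain ⟨c, hc⟩ := (Submodule.mem_span_range_iff_exists_fun ℤ).1
    (this.2.ge (Submodule.mem_top (x := x)))
  exact ⟨c 0, c 1, by simp [← hc]⟩

theorem cnq1_basis {δ : K} (hK : finrank ℚ K = 2) (hs : Squarefree d) (h4 : d % 4 = 1)
    (h1 : d ≠ 1) (hδ : δ ^ 2 = d) : discr K = d ∧ ∃ β : 𝓞 K, (2 * β - 1) ^ 2 = d ∧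
      ∀ x : 𝓞 K, ∃ a b : ℤ, x = a + b * β := by
  obtain ⟨m, hm⟩ : ∃ m : ℤ, 4 * m = 1 - d := ⟨(1 - d) / 4, by omega⟩
  obtain ⟨β, hβ⟩ := cnq1_beta hm hδ
  have h5 : (4 : 𝓞 K) * m = 1 - d := by exact_mod_cast congrArg (Int.cast : ℤ → 𝓞 K) hm
  exact ⟨(cnq1_bas hs h1 hm hK hβ).1, β, by linear_combination 4 * hβ - h5,
    (cnq1_bas hs h1 hm hK hβ).2⟩

theorem cnq1_min (hs : Squarefree d) (h1 : d ≠ 1) (hm : 4 * m = 1 - d) (hβ : β ^ 2 = β - m) :
    minpoly ℤ β = X ^ 2 - X + C m := by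
  symm
  refine eq_of_monic_of_dvd_of_natDegree_le (minpoly.monic β.isIntegral) (by monicity!)
    (minpoly.isIntegrallyClosed_dvd β.isIntegral (by simp [hβ])) (le_trans (by compute_degree)
      ((minpoly.two_le_natDegree_iff β.isIntegral).2 ?_))
  rintro ⟨a, e⟩
  simpa using cnq1_ind hs h1 hm hβ (s := a) (t := -1) (by simp [← e])

/-- The prime ideals above a rational prime correspond to the factors of the minimal polynomial. -/
theorem cnq1_kd (hs : Squarefree d) (h1 : d ≠ 1) (hm : 4 * m = 1 - d) (hK : finrank ℚ K = 2)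
    (hβ : β ^ 2 = β - m) (p : ℕ) [Fact p.Prime] :
    ∃ e : (ZMod p)[X] → HeightOneSpectrum (𝓞 K) → Prop,
      (∀ v : HeightOneSpectrum (𝓞 K), (p : 𝓞 K) ∈ v.asIdeal ↔ ∃ Q, e Q v) ∧
      (∀ Q, Irreducible Q ∧ Q.Monic ∧ Q ∣ X ^ 2 - X + C (m : ZMod p) ↔ ∃ v, e Q v) ∧
      (∀ Q v Q' v', e Q v → e Q' v' → (Q = Q' ↔ v = v')) ∧
      ∀ Q v, e Q v → Ideal.absNorm v.asIdeal = p ^ Q.natDegree := by
  have hp : p.Prime := Fact.out
  have hq := Nat.prime_iff_prime_int.1 hp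
  have ht : Algebra.adjoin ℤ {β} = ⊤ := eq_top_iff.2 fun x _ => by
    obtain ⟨a, b, rfl⟩ := (cnq1_bas hs h1 hm hK hβ).2 x
    exact add_mem (intCast_mem _ _)
      (mul_mem (intCast_mem _ _) (Algebra.self_mem_adjoin_singleton ℤ β))
  have he : ¬ p ∣ RingOfIntegers.exponent β := by
    rw [RingOfIntegers.exponent_eq_one_iff.2 ht]
    exact hp.not_dvd_one
  let E := NumberField.Ideal.primesOverSpanEquivMonicFactorsMod he
  refine ⟨fun Q v => ∃ h, (E.symm ⟨Q, h⟩ : Ideal (𝓞 K)) = v.asIdeal, fun v => ⟨fun h => ?_, ?_⟩,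
    fun Q => ?_, ?_, ?_⟩
  · exact ⟨_, (E ⟨v.asIdeal, v.isPrime, (Ideal.liesOver_span_iff v.isPrime.ne_top hq).2
      (by simpa using h)⟩).2, by simp⟩
  · rintro ⟨Q, h, e⟩
    simpa [e] using (Ideal.liesOver_span_iff (E.symm ⟨Q, h⟩).2.1.ne_top hq).1 (E.symm ⟨Q, h⟩).2.2
  · have : Q ∈ RingOfIntegers.monicFactorsMod β p ↔
        Irreducible Q ∧ Q.Monic ∧ Q ∣ X ^ 2 - X + C (m : ZMod p) := by
      rw [Multiset.mem_toFinset, Polynomial.mem_normalizedFactors_iff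
        (map_monic_ne_zero (minpoly.monic β.isIntegral)), cnq1_min hs h1 hm hβ]
      simp
    rw [← this]
    exact ⟨fun h => ⟨⟨_, (E.symm ⟨Q, h⟩).2.1, Ideal.ne_bot_of_mem_primesOver
      (by simpa using hp.ne_zero) (E.symm ⟨Q, h⟩).2⟩, h, rfl⟩, fun h => h.choose_spec.1⟩
  · rintro Q v Q' v' ⟨h, e⟩ ⟨h', e'⟩
    rw [HeightOneSpectrum.ext_iff, ← e, ← e', Subtype.val_inj, E.symm.apply_eq_iff_eq,
      Subtype.mk.injEq]
  · rintro Q v ⟨h, e⟩
    have := (E.symm ⟨Q, h⟩).2.1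
    have := (E.symm ⟨Q, h⟩).2.2
    rw [← e, ← Ideal.pow_inertiaDeg p,
      NumberField.Ideal.inertiaDeg_primesOverSpanEquivMonicFactorsMod_symm_apply']

theorem cnq1_eq {I J : Ideal (𝓞 K)} (h : I ∣ J) (e : Ideal.absNorm I = Ideal.absNorm J)
    (h0 : Ideal.absNorm I ≠ 0) : I = J := by
  obtain ⟨L, rfl⟩ := h
  rw [map_mul, left_eq_mul₀ h0, Ideal.absNorm_eq_one_iff] at e
  rw [e, Ideal.mul_top]

/-- Reciprocity for a number that is one modulo four. -/
theorem cnq1_rec (h4 : d % 4 = 1) {p : ℕ} (hp : Odd p) : J(p | d.natAbs) = J(d | p) := by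
  obtain ⟨n, rfl | rfl⟩ := d.eq_nat_or_neg
  · rw [Int.natAbs_natCast, jacobiSym.quadratic_reciprocity_one_mod_four' hp (by omega)]
  · rw [Int.natAbs_neg, Int.natAbs_natCast, jacobiSym.neg _ hp]
    have hn : n % 4 = 3 := by omega
    rcases Nat.odd_mod_four_iff.1 (Nat.odd_iff.1 hp) with h | h
    · rw [ZMod.χ₄_nat_one_mod_four h, one_mul,
        jacobiSym.quadratic_reciprocity_one_mod_four h (Nat.odd_iff.2 (by omega))]
    · rw [ZMod.χ₄_nat_three_mod_four h, jacobiSym.quadratic_reciprocity_three_mod_four h hn,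
        neg_one_mul]

theorem cnq1_two : ∀ x : ZMod 2, (∃ c : ZMod 2, c ^ 2 - c + x = 0) ↔ x = 0 := by decide

theorem cnq1_jac (hm : 4 * m = 1 - d) {p : ℕ} [Fact p.Prime] (h : ¬ (p : ℤ) ∣ d) :
    J(p | d.natAbs) = if ∃ c : ZMod p, c ^ 2 - c + m = 0 then 1 else -1 := by
  have hp : p.Prime := Fact.out
  rcases hp.eq_two_or_odd' with rfl | ho
  · have e : (∃ c : ZMod 2, c ^ 2 - c + m = 0) ↔ 2 ∣ m := by
      rw [show (2 : ℤ) = (2 : ℕ) from rfl, ← ZMod.intCast_zmod_eq_zero_iff_dvd]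
      exact cnq1_two _
    rw [Nat.cast_ofNat, jacobiSym.at_two (Nat.odd_iff.2 (by omega)), ZMod.χ₈_nat_eq_if_mod_eight,
      if_neg (by omega)]
    exact if_congr (by rw [e]; omega) rfl rfl
  · have h4 : (4 : ZMod p) * m = 1 - d := by exact_mod_cast congrArg (Int.cast : ℤ → ZMod p) hm
    have t : (2 : ZMod p) ≠ 0 := fun e => by
      have := (Nat.prime_dvd_prime_iff_eq hp Nat.prime_two).1 ((ZMod.natCast_eq_zero_iff 2 p).1 e)
      rw [this] at ho
      exact absurd ho (by decide)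
    rw [cnq1_rec (by omega) ho, ← jacobiSym.legendreSym.to_jacobiSym]
    split_ifs with k
    · obtain ⟨c, hc⟩ := k
      exact (legendreSym.eq_one_iff p (mt (ZMod.intCast_zmod_eq_zero_iff_dvd d p).1 h)).2
        ⟨2 * c - 1, by linear_combination h4 - 4 * hc⟩
    · refine (legendreSym.eq_neg_one_iff p).2 fun ⟨s, e⟩ => k ⟨(1 + s) / 2, ?_⟩
      field_simp
      linear_combination h4 - e

/-- The decomposition of a rational prime: split, inert or ramified. -/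
theorem cnq1_cases {δ : K} (hK : finrank ℚ K = 2) (hs : Squarefree d) (h4 : d % 4 = 1)
    (h1 : d ≠ 1) (hδ : δ ^ 2 = d) {p : ℕ} (hp : p.Prime) :
    (J(p | d.natAbs) = 1 ∧ ∃ P Q : Ideal (𝓞 K), P.IsMaximal ∧ Q.IsMaximal ∧ P ≠ Q ∧
      P * Q = Ideal.span {(p : 𝓞 K)} ∧ Ideal.absNorm P = p ∧ Ideal.absNorm Q = p) ∨
    (J(p | d.natAbs) = -1 ∧ (Ideal.span {(p : 𝓞 K)}).IsMaximal) ∨
    ((p : ℤ) ∣ d ∧ ∃ P : Ideal (𝓞 K), P.IsMaximal ∧ P * P = Ideal.span {(p : 𝓞 K)} ∧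
      Ideal.absNorm P = p) := by
  have := Fact.mk hp
  obtain ⟨m, hm⟩ : ∃ m : ℤ, 4 * m = 1 - d := ⟨(1 - d) / 4, by omega⟩
  obtain ⟨β, hβ⟩ := cnq1_beta hm hδ
  obtain ⟨e, e1, e2, e3, e4⟩ := cnq1_kd hs h1 hm hK hβ p
  have h4' : (4 : ZMod p) * m = 1 - d := by exact_mod_cast congrArg (Int.cast : ℤ → ZMod p) hm
  have hN : Ideal.absNorm (Ideal.span {(p : 𝓞 K)}) = p ^ 2 := by
    rw [Ideal.absNorm_span_natCast, RingOfIntegers.rank, hK]
  set g : (ZMod p)[X] := X ^ 2 - X + C (m : ZMod p) with hg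
  have g1 : g.Monic := by rw [hg]; monicity!
  have g2 : g.natDegree = 2 := by rw [hg]; compute_degree!
  by_cases h : ∃ c : ZMod p, c ^ 2 - c + m = 0
  · obtain ⟨c, hc⟩ := id h
    have g3 : g = (X - C c) * (X - C (1 - c)) := by
      rw [hg, show (m : ZMod p) = c - c ^ 2 by linear_combination hc]
      simp only [map_sub, map_pow, map_one]
      ring
    have g4 : ∀ Q, (∃ v, e Q v) ↔ Q = X - C c ∨ Q = X - C (1 - c) := fun Q => by
      rw [← e2, g3]
      constructor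
      · rintro ⟨a, b, d⟩
        exact (a.prime.dvd_mul.1 d).imp
          (fun d => eq_of_monic_of_associated b (monic_X_sub_C _)
            (a.associated_of_dvd (irreducible_X_sub_C _) d))
          fun d => eq_of_monic_of_associated b (monic_X_sub_C _)
            (a.associated_of_dvd (irreducible_X_sub_C _) d)
      · rintro (rfl | rfl)
        · exact ⟨irreducible_X_sub_C _, monic_X_sub_C _, dvd_mul_right _ _⟩
        · exact ⟨irreducible_X_sub_C _, monic_X_sub_C _, dvd_mul_left _ _⟩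
    obtain ⟨v, hv⟩ := (g4 _).2 (.inl rfl)
    obtain ⟨w, hw⟩ := (g4 _).2 (.inr rfl)
    have g5 : ∀ u : HeightOneSpectrum (𝓞 K), (p : 𝓞 K) ∈ u.asIdeal ↔ u = v ∨ u = w := fun u => by
      rw [e1]
      constructor
      · rintro ⟨Q, hQ⟩
        exact ((g4 Q).1 ⟨u, hQ⟩).imp (e3 _ _ _ _ hQ hv).1 (e3 _ _ _ _ hQ hw).1
      · rintro (rfl | rfl)
        exacts [⟨_, hv⟩, ⟨_, hw⟩]
    have g6 : (d : ZMod p) = (2 * c - 1) * (2 * c - 1) := by linear_combination h4' - 4 * hc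
    have g7 : v = w ↔ (p : ℤ) ∣ d := by
      rw [← e3 _ _ _ _ hv hw, sub_right_inj, C_inj, ← ZMod.intCast_zmod_eq_zero_iff_dvd, g6,
        mul_self_eq_zero]
      constructor <;> intro k <;> linear_combination k
    have n1 := e4 _ _ hv
    have n2 := e4 _ _ hw
    rw [natDegree_X_sub_C, pow_one] at n1 n2
    have v1 := Ideal.dvd_span_singleton.2 ((g5 v).2 (.inl rfl))
    have w1 := Ideal.dvd_span_singleton.2 ((g5 w).2 (.inr rfl))
    by_cases k : (p : ℤ) ∣ d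
    · refine .inr (.inr ⟨k, v.asIdeal, v.isMaximal, ?_, n1⟩)
      obtain ⟨L, hL⟩ := v1
      have n3 : Ideal.absNorm L = p := by
        rw [hL, map_mul, n1, sq] at hN
        exact mul_left_cancel₀ hp.ne_zero hN
      obtain ⟨M, hM, hLM⟩ := L.exists_le_maximal fun k => hp.ne_one (by rw [← n3, k]; simp)
      have hpM : (p : 𝓞 K) ∈ M :=
        hLM (Ideal.dvd_span_singleton.1 (hL ▸ dvd_mul_left _ _))
      have hM0 : M ≠ ⊥ := fun k => hp.ne_zero (by simpa [k] using hpM)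
      have := (g5 ⟨M, hM.isPrime, hM0⟩).1 hpM
      rw [← g7.2 k, or_self] at this
      subst this
      rw [hL, ← cnq1_eq (Ideal.dvd_iff_le.2 hLM) (n1.trans n3.symm) (n1.trans_ne hp.ne_zero)]
    · have vw : v ≠ w := fun e => k (g7.1 e)
      refine .inl ⟨by rw [cnq1_jac hm k, if_pos h], v.asIdeal, w.asIdeal, v.isMaximal, w.isMaximal,
        fun e => vw (HeightOneSpectrum.ext e), cnq1_eq ((v.isCoprime_of_ne w vw).mul_dvd v1 w1)
          (by rw [map_mul, n1, n2, hN, sq]) ?_, n1, n2⟩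
      rw [map_mul, n1, n2]
      exact mul_ne_zero hp.ne_zero hp.ne_zero
  · have g3 : Irreducible g := by
      rw [irreducible_iff_roots_eq_zero_of_degree_le_three g2.ge (by omega),
        Multiset.eq_zero_iff_forall_notMem]
      exact fun c hc => h ⟨c, by simpa [hg] using ((mem_roots g1.ne_zero).1 hc).eq_zero⟩
    have k : ¬ (p : ℤ) ∣ d := fun k => by
      have t : (2 : ZMod p) ≠ 0 := fun e => by
        have := (Nat.prime_dvd_prime_iff_eq hp Nat.prime_two).1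
          ((ZMod.natCast_eq_zero_iff 2 p).1 e)
        rw [this] at k
        omega
      refine h ⟨1 / 2, ?_⟩
      field_simp
      linear_combination h4' - (ZMod.intCast_zmod_eq_zero_iff_dvd d p).2 k
    obtain ⟨v, hv⟩ := (e2 _).1 ⟨g3, g1, dvd_rfl⟩
    have n1 := e4 _ _ hv
    rw [g2] at n1
    refine .inr (.inl ⟨by rw [cnq1_jac hm k, if_neg h], ?_⟩)
    rw [← cnq1_eq (Ideal.dvd_span_singleton.2 ((e1 v).2 ⟨_, hv⟩)) (n1.trans hN.symm)
      (n1.trans_ne (pow_ne_zero 2 hp.ne_zero))]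
    exact v.isMaximal

end Pool.Agent.H3.T
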