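import Pool.Agent.Lib.MP_aed2da_nt.QCheb
import Pool.Agent.Lib.MP_23455a_nt.H4.CNq1

/-! Quadratic fields of odd discriminant: prime ideals, Dirichlet series, class number formula. -/

set_option autoImplicit false

open NumberField Filter Topology Real NumberTheorySymbols
open scoped Classical

namespace Pool.Agent.H3.T
open Pool.Agent.Lib.MP_aed2da_nt

/-- The field is quadratic of odd discriminant `d`. -/
structure Qd (K : Type) [Field K] [NumberField K] (d : ℤ) : Prop where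
  rank : Module.finrank ℚ K = 2
  sqf : Squarefree d
  m4 : d % 4 = 1
  ne : d ≠ 1
  root : ∃ δ : K, δ ^ 2 = d

/-- The Dirichlet series of a sequence of integers. -/
noncomputable def Ls (χ : ℕ → ℤ) (s : ℝ) : ℝ := ∑' k : ℕ, χ k * (k : ℝ) ^ (-s)

variable {K : Type} [Field K] [NumberField K] {d : ℤ}

theorem Qd.basis (h : Qd K d) : discr K = d ∧ ∃ β : 𝓞 K, (2 * β - 1) ^ 2 = d ∧
    ∀ x : 𝓞 K, ∃ a b : ℤ, x = a + b * β :=
  cnq1_basis h.rank h.sqf h.m4 h.ne h.root.choose_spec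

/-- The decomposition of a prime number. -/
theorem Qd.cases (h : Qd K d) {p : ℕ} (hp : p.Prime) :
    (J(p | d.natAbs) = 1 ∧ ∃ P Q : Ideal (𝓞 K), P.IsMaximal ∧ Q.IsMaximal ∧ P ≠ Q ∧
      P * Q = Ideal.span {(p : 𝓞 K)} ∧ Ideal.absNorm P = p ∧ Ideal.absNorm Q = p) ∨
    (J(p | d.natAbs) = -1 ∧ (Ideal.span {(p : 𝓞 K)}).IsMaximal) ∨
    ((p : ℤ) ∣ d ∧ ∃ P : Ideal (𝓞 K), P.IsMaximal ∧ P * P = Ideal.span {(p : 𝓞 K)} ∧
      Ideal.absNorm P = p) :=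
  cnq1_cases h.rank h.sqf h.m4 h.ne h.root.choose_spec hp

/-- A character of the ideals that belongs to a pair of characters of the integers. -/
structure Pair (K : Type) [Field K] [NumberField K] (d : ℤ) (Ψ : Ideal (𝓞 K) → ℤ)
    (χ χ' : ℕ → ℤ) : Prop where
  one : Ψ ⊤ = 1 ∧ χ 1 = 1 ∧ χ' 1 = 1
  mul : ∀ I I', I ≠ ⊥ → I' ≠ ⊥ → Ψ (I * I') = Ψ I * Ψ I'
  mul1 : ∀ a b, a ≠ 0 → b ≠ 0 → χ (a * b) = χ a * χ b
  mul2 : ∀ a b, a ≠ 0 → b ≠ 0 → χ' (a * b) = χ' a * χ' b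
  le : (∀ I, |Ψ I| ≤ 1) ∧ (∀ a, |χ a| ≤ 1) ∧ ∀ a, |χ' a| ≤ 1
  unr : ∀ p : ℕ, p.Prime → ¬ (p : ℤ) ∣ d → χ' p = J(p | d.natAbs) * χ p
  ram : ∀ p : ℕ, p.Prime → (p : ℤ) ∣ d → χ p * χ' p = 0
  deg1 : ∀ (p : ℕ) (P : Ideal (𝓞 K)), p.Prime → Ideal.absNorm P = p →
    Ψ P = if (p : ℤ) ∣ d then χ p + χ' p else χ p
  deg2 : ∀ p : ℕ, p.Prime → ¬ (p : ℤ) ∣ d → Ψ (Ideal.span {(p : 𝓞 K)}) = χ p ^ 2

variable {Ψ : Ideal (𝓞 K) → ℤ} {χ χ' : ℕ → ℤ}

theorem cnq_conv (mul1 : ∀ a b, a ≠ 0 → b ≠ 0 → χ (a * b) = χ a * χ b)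
    (mul2 : ∀ a b, a ≠ 0 → b ≠ 0 → χ' (a * b) = χ' a * χ' b) {p : ℕ} (hp : p.Prime) {k : ℕ}
    (hk : k ≠ 0) : ∑ x ∈ (p * k).divisorsAntidiagonal, χ x.1 * χ' x.2 =
      (χ p + χ' p) * ∑ x ∈ k.divisorsAntidiagonal, χ x.1 * χ' x.2 - χ p * χ' p *
        if p ∣ k then ∑ x ∈ (k / p).divisorsAntidiagonal, χ x.1 * χ' x.2 else 0 := by
  have h0 := hp.ne_zero
  have h1 : ∀ m : ℕ, m ≠ 0 → ∑ x ∈ (p * m).divisorsAntidiagonal with p ∣ x.1, χ x.1 * χ' x.2 =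
      χ p * ∑ x ∈ m.divisorsAntidiagonal, χ x.1 * χ' x.2 := fun m hm => by
    rw [Finset.mul_sum]
    refine (Finset.sum_nbij (fun x => (p * x.1, x.2)) (fun x hx => ?_) (fun x _ y _ h => ?_)
      (fun x hx => ?_) fun x hx => ?_).symm
    · simpa [hm, h0, mul_assoc] using hx
    · exact Prod.ext (mul_left_cancel₀ h0 (Prod.mk.inj h).1) (Prod.mk.inj h).2
    · obtain ⟨a, b⟩ := x
      obtain ⟨h2, a, rfl⟩ := Finset.mem_filter.1 (Finset.mem_coe.1 hx)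
      exact ⟨(a, b), by simpa [hm, h0, mul_assoc] using h2, rfl⟩
    · rw [mul1 _ _ h0 (Nat.left_ne_zero_of_mem_divisorsAntidiagonal hx), mul_assoc]
  have h2 : ∑ x ∈ (p * k).divisorsAntidiagonal with ¬ p ∣ x.1, χ x.1 * χ' x.2 =
      χ' p * ∑ x ∈ k.divisorsAntidiagonal with ¬ p ∣ x.1, χ x.1 * χ' x.2 := by
    rw [Finset.mul_sum]
    refine (Finset.sum_nbij (fun x => (x.1, p * x.2)) (fun x hx => ?_) (fun x _ y _ h => ?_)
      (fun x hx => ?_) fun x hx => ?_).symm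
    · simpa [hk, h0, mul_left_comm _ p] using hx
    · exact Prod.ext (Prod.mk.inj h).1 (mul_left_cancel₀ h0 (Prod.mk.inj h).2)
    · obtain ⟨a, b⟩ := x
      obtain ⟨h2, h3⟩ := Finset.mem_filter.1 (Finset.mem_coe.1 hx)
      obtain ⟨b, rfl⟩ := (hp.dvd_mul.1 ⟨k, (Nat.mem_divisorsAntidiagonal.1 h2).1⟩).resolve_left h3
      exact ⟨(a, b), by simpa [hk, h0, mul_left_comm _ p] using And.intro h2 h3, rfl⟩
    · rw [mul2 _ _ h0 (Nat.right_ne_zero_of_mem_divisorsAntidiagonal (Finset.mem_filter.1 hx).1),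
        mul_left_comm]
  have h3 : ∑ x ∈ k.divisorsAntidiagonal with p ∣ x.1, χ x.1 * χ' x.2 =
      χ p * if p ∣ k then ∑ x ∈ (k / p).divisorsAntidiagonal, χ x.1 * χ' x.2 else 0 := by
    split_ifs with h
    · obtain ⟨m, rfl⟩ := h
      rw [h1 m (right_ne_zero_of_mul hk), Nat.mul_div_cancel_left _ hp.pos]
    · rw [mul_zero]
      refine Finset.sum_eq_zero fun x hx => absurd ?_ h
      obtain ⟨h4, h5⟩ := Finset.mem_filter.1 hx
      exact (Nat.mem_divisorsAntidiagonal.1 h4).1 ▸ h5.mul_right _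
  have h4 := Finset.sum_filter_add_sum_filter_not k.divisorsAntidiagonal (fun x => p ∣ x.1)
    fun x => χ x.1 * χ' x.2
  rw [← Finset.sum_filter_add_sum_filter_not _ fun x => p ∣ x.1, h1 k hk, h2]
  linear_combination χ' p * h4 - χ' p * h3

variable (K) in
/-- The ideals of given norm. -/
noncomputable def cnqS (k : ℕ) : Finset (Ideal (𝓞 K)) :=
  (Ideal.finite_setOfPred_absNorm_eq k).toFinset

theorem mem_cnqS {k : ℕ} {I : Ideal (𝓞 K)} : I ∈ cnqS K k ↔ Ideal.absNorm I = k :=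
  Set.Finite.mem_toFinset _

theorem cnq_fin (Ψ : Ideal (𝓞 K) → ℤ) (k : ℕ) :
    ∑ᶠ I ∈ {I : Ideal (𝓞 K) | Ideal.absNorm I = k}, Ψ I = ∑ I ∈ cnqS K k, Ψ I :=
  finsum_mem_eq_finite_toFinset_sum _ _

theorem cnq_dvd (mul : ∀ I I', I ≠ ⊥ → I' ≠ ⊥ → Ψ (I * I') = Ψ I * Ψ I') {P : Ideal (𝓞 K)}
    {n m : ℕ} (hP : Ideal.absNorm P = n) (hn : n ≠ 0) (hm : m ≠ 0) :
    ∑ I ∈ cnqS K (n * m) with P ∣ I, Ψ I = Ψ P * ∑ I ∈ cnqS K m, Ψ I := by
  have h0 : P ≠ ⊥ := fun h => hn (by rw [← hP, h, Ideal.absNorm_bot])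
  rw [Finset.mul_sum]
  refine (Finset.sum_nbij (fun I => P * I) (fun I hI => ?_) (fun I _ I' _ h => ?_)
    (fun I hI => ?_) fun I hI => ?_).symm
  · exact Finset.mem_filter.2 ⟨mem_cnqS.2 (by rw [map_mul, hP, mem_cnqS.1 hI]), dvd_mul_right _ _⟩
  · exact mul_left_cancel₀ h0 h
  · obtain ⟨h1, I, rfl⟩ := Finset.mem_filter.1 (Finset.mem_coe.1 hI)
    rw [mem_cnqS, map_mul, hP] at h1
    exact ⟨I, Finset.mem_coe.2 (mem_cnqS.2 (mul_left_cancel₀ hn h1)), rfl⟩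
  · exact (mul _ _ h0 fun h => hm (by rw [← mem_cnqS.1 hI, h, Ideal.absNorm_bot])).symm

theorem cnq_rec (h : Qd K d) (hΨ : Pair K d Ψ χ χ') {p : ℕ} (hp : p.Prime) {k : ℕ} (hk : k ≠ 0) :
    ∑ I ∈ cnqS K (p * k), Ψ I = (χ p + χ' p) * ∑ I ∈ cnqS K k, Ψ I - χ p * χ' p *
      if p ∣ k then ∑ I ∈ cnqS K (k / p), Ψ I else 0 := by
  have h0 := hp.ne_zero
  have h1 : Ideal.absNorm (Ideal.span {(p : 𝓞 K)}) = p * p := by
    rw [Ideal.absNorm_span_natCast, RingOfIntegers.rank, h.rank, sq]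
  have h2 : ∑ I ∈ cnqS K (p * k) with Ideal.span {(p : 𝓞 K)} ∣ I, Ψ I =
      Ψ (Ideal.span {(p : 𝓞 K)}) * if p ∣ k then ∑ I ∈ cnqS K (k / p), Ψ I else 0 := by
    split_ifs with h2
    · obtain ⟨m, rfl⟩ := h2
      rw [← mul_assoc, cnq_dvd hΨ.mul h1 (mul_ne_zero h0 h0) (right_ne_zero_of_mul hk),
        Nat.mul_div_cancel_left _ hp.pos]
    · rw [mul_zero]
      refine Finset.sum_eq_zero fun I hI => absurd ?_ h2
      obtain ⟨h4, h5⟩ := Finset.mem_filter.1 hI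
      have h6 := map_dvd Ideal.absNorm h5
      rw [h1, mem_cnqS.1 h4] at h6
      exact Nat.dvd_of_mul_dvd_mul_left hp.pos h6
  have h4 : ∀ I ∈ cnqS K (p * k), ∀ P Q : Ideal (𝓞 K), P.IsMaximal → Q.IsMaximal →
      Ideal.span {(p : 𝓞 K)} ∣ P * Q → P ∣ I ∨ Q ∣ I := fun I hI P Q hP hQ e => by
    obtain ⟨R, hR, k1, k2⟩ := Ideal.exists_isMaximal_dvd_of_dvd_absNorm' hp I
      (mem_cnqS.1 hI ▸ dvd_mul_right _ _)
    have k3 : (p : 𝓞 K) ∈ R := by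
      have : (p : ℤ) ∈ R.under ℤ := k1 ▸ Ideal.mem_span_singleton_self _
      simpa using Ideal.mem_comap.1 this
    have k4 : P * Q ≤ R := (Ideal.le_of_dvd e).trans ((Ideal.span_singleton_le_iff_mem _).2 k3)
    exact (hR.isPrime.mul_le.1 k4).imp (fun k => hP.eq_of_le hR.ne_top k ▸ k2)
      fun k => hQ.eq_of_le hR.ne_top k ▸ k2
  have h5 : J(p | d.natAbs) ≠ 0 → ¬ (p : ℤ) ∣ d := fun k1 k2 =>
    k1 (jacobiSym.eq_zero_iff.2 ⟨Int.natAbs_ne_zero.2 h.sqf.ne_zero, by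
      rw [Int.gcd_natCast_natCast, Nat.gcd_eq_left (Int.natCast_dvd.1 k2)]
      exact hp.ne_one⟩)
  rcases h.cases hp with ⟨k1, P, Q, hP, hQ, k2, k3, k4, k5⟩ | ⟨k1, k2⟩ | ⟨k1, P, hP, k2, k3⟩
  · have k6 := h5 (by rw [k1]; exact one_ne_zero)
    have k7 := Finset.sum_union_inter (f := Ψ) (s₁ := (cnqS K (p * k)).filter (P ∣ ·))
      (s₂ := (cnqS K (p * k)).filter (Q ∣ ·))
    rw [← Finset.filter_or, ← Finset.filter_and, Finset.filter_true_of_mem fun I hI =>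
      h4 I hI P Q hP hQ k3.symm.dvd, Finset.filter_congr (q := (Ideal.span {(p : 𝓞 K)} ∣ ·))
        fun I _ => k3 ▸ ⟨fun k => (Ideal.isCoprime_iff_sup_eq.2 (hP.coprime_of_ne hQ k2)).mul_dvd
          k.1 k.2, fun k => ⟨dvd_of_mul_right_dvd k, dvd_of_mul_left_dvd k⟩⟩, h2,
      cnq_dvd hΨ.mul k4 h0 hk, cnq_dvd hΨ.mul k5 h0 hk, hΨ.deg1 p P hp k4, hΨ.deg1 p Q hp k5,
      hΨ.deg2 p hp k6, if_neg k6] at k7
    rw [hΨ.unr p hp k6, k1]
    linear_combination k7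
  · have k6 := h5 (by rw [k1]; decide)
    rw [Finset.filter_true_of_mem fun I hI => (h4 I hI _ _ k2 k2 (dvd_mul_right _ _)).elim id id,
      hΨ.deg2 p hp k6] at h2
    rw [hΨ.unr p hp k6, k1]
    linear_combination h2
  · have k6 := cnq_dvd hΨ.mul k3 h0 hk
    rw [Finset.filter_true_of_mem fun I hI => (h4 I hI _ _ hP hP k2.symm.dvd).elim id id,
      hΨ.deg1 p P hp k3, if_pos k1] at k6
    rw [hΨ.ram p hp k1, zero_mul, sub_zero, k6]

theorem cnq_Ls (a : ℕ → ℤ) {s : ℝ} (hs : s ≠ 0) :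
    (Ls a s : ℂ) = LSeries (fun n => (a n : ℂ)) s := by
  rw [Ls, Complex.ofReal_tsum, LSeries]
  refine tsum_congr fun n => ?_
  rcases eq_or_ne n 0 with rfl | hn
  · simp [hs]
  · rw [LSeries.term_of_ne_zero hn]
    push_cast
    rw [Complex.ofReal_cpow (by positivity), div_eq_mul_inv, ← Complex.cpow_neg]
    simp

theorem cnq_coef (h : Qd K d) (hp : Pair K d Ψ χ χ') {k : ℕ} (hk : k ≠ 0) :
    ∑ᶠ I ∈ {I : Ideal (𝓞 K) | Ideal.absNorm I = k}, Ψ I =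
      ∑ x ∈ k.divisorsAntidiagonal, χ x.1 * χ' x.2 := by
  rw [cnq_fin]
  induction k using Nat.strong_induction_on with
  | _ k ih =>
    rcases eq_or_ne k 1 with rfl | h1
    · rw [show cnqS K 1 = {⊤} from Finset.ext fun I => by
        rw [mem_cnqS, Ideal.absNorm_eq_one_iff, Finset.mem_singleton]]
      simp [hp.one]
    obtain ⟨p, h2, m, rfl⟩ := Nat.exists_prime_and_dvd h1
    have hm := right_ne_zero_of_mul hk
    have h3 : m < p * m := lt_mul_of_one_lt_left (Nat.pos_of_ne_zero hm) h2.one_lt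
    rw [cnq_rec h hp h2 hm, cnq_conv hp.mul1 hp.mul2 h2 hm, ih m h3 hm]
    split_ifs with h4
    · rw [ih _ ((Nat.div_le_self _ _).trans_lt h3)
        (Nat.div_pos (Nat.le_of_dvd (Nat.pos_of_ne_zero hm) h4) h2.pos).ne']
    · rfl

theorem cnq_sum (h : Qd K d) (hp : Pair K d Ψ χ χ') {s : ℝ} (hs : 1 < s) :
    ∑' I : Ideal (𝓞 K), Ψ I * QC.w s I = Ls χ s * Ls χ' s := by
  have h0 : s ≠ 0 := by linarith
  have h1 : Summable fun I : Ideal (𝓞 K) => Ψ I * QC.w s I :=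
    (QC.summable_w hs).of_norm_bounded fun I => by
      rw [norm_mul, Real.norm_of_nonneg (QC.w_nonneg s I), Real.norm_eq_abs]
      exact mul_le_of_le_one_left (QC.w_nonneg s I) (by exact_mod_cast hp.le.1 I)
  have h2 : ∑' I : Ideal (𝓞 K), Ψ I * QC.w s I =
      Ls (fun k => ∑ x ∈ k.divisorsAntidiagonal, χ x.1 * χ' x.2) s := by
    rw [← (h1.hasSum.tsum_fiberwise fun I => Ideal.absNorm I).tsum_eq, Ls]
    refine tsum_congr fun k => ?_
    rw [show (fun I : Ideal (𝓞 K) => Ideal.absNorm I) ⁻¹' {k} = cnqS K k from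
      Set.ext fun I => mem_cnqS.symm, Finset.tsum_subtype' (cnqS K k) fun I => Ψ I * QC.w s I,
      Finset.sum_congr rfl fun I hI => by rw [QC.w, mem_cnqS.1 hI], ← Finset.sum_mul,
      ← Int.cast_sum]
    rcases eq_or_ne k 0 with rfl | hk
    · simp [h0]
    · rw [← cnq_fin, cnq_coef h hp hk]
  have h3 : ∀ a : ℕ → ℤ, (∀ n, |a n| ≤ 1) → LSeriesSummable (fun n => (a n : ℂ)) s := fun a ha =>
    LSeriesSummable_of_bounded_of_one_lt_real (m := 1)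
      (fun n _ => by rw [Complex.norm_intCast]; exact_mod_cast ha n) hs
  refine Complex.ofReal_injective ?_
  rw [h2, Complex.ofReal_mul, cnq_Ls _ h0, cnq_Ls _ h0, cnq_Ls _ h0,
    ← LSeries_convolution' (h3 _ hp.le.2.1) (h3 _ hp.le.2.2), LSeries.convolution_def]
  simp

theorem cnq_lim (h : Qd K d) : Tendsto (Ls fun k => J(k | d.natAbs)) (𝓝[>] 1)
    (𝓝 (dedekindZeta_residue K)) := by
  have h0 : ∀ p : ℕ, p.Prime → (p : ℤ) ∣ d → J(p | d.natAbs) = 0 := fun p hp k =>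
    jacobiSym.eq_zero_iff.2 ⟨Int.natAbs_ne_zero.2 h.sqf.ne_zero, by
      rw [Int.gcd_natCast_natCast, Nat.gcd_eq_left (Int.natCast_dvd.1 k)]
      exact hp.ne_one⟩
  have hp : Pair K d (fun _ => 1) (fun _ => 1) fun k => J(k | d.natAbs) :=
    ⟨⟨rfl, rfl, jacobiSym.one_left _⟩, fun _ _ _ _ => rfl, fun _ _ _ _ => rfl,
      fun a b _ _ => by rw [Nat.cast_mul, jacobiSym.mul_left],
      ⟨fun _ => le_rfl, fun _ => le_rfl, fun a => by
        rcases jacobiSym.trichotomy a d.natAbs with k | k | k <;> simp [k]⟩,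
      fun _ _ _ => (mul_one _).symm, fun p hp k => by rw [h0 p hp k, mul_zero],
      fun p _ hp _ => by
        split_ifs with k
        · rw [h0 p hp k, add_zero]
        · rfl, fun _ _ _ => rfl⟩
  have h1 := (QC.tendsto_Z K).div tendsto_sub_mul_tsum_nat_rpow one_ne_zero
  rw [div_one] at h1
  refine h1.congr' ?_
  filter_upwards [self_mem_nhdsWithin, tendsto_sub_mul_tsum_nat_rpow.eventually_ne one_ne_zero]
    with s hs h2
  have h3 := cnq_sum h hp hs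
  simp only [Int.cast_one, one_mul] at h3
  rw [Pi.div_apply, div_eq_iff h2, h3, show Ls (fun _ => 1) s = ∑' n : ℕ, 1 / (n : ℝ) ^ s from
    tsum_congr fun n => by rw [Int.cast_one, one_mul, Real.rpow_neg n.cast_nonneg, one_div]]
  ring

end Pool.Agent.H3.T
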