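import Pool.Agent.Lib.MP_23455a_nt.H4.CNq

/-! Units of quadratic fields and the residue of the zeta function. -/

set_option autoImplicit false

open NumberField NumberField.Units Filter Topology Real NumberTheorySymbols
open scoped Classical

namespace Pool.Agent.H3.T

variable {K : Type} [Field K] [NumberField K] {d : ℤ}

theorem cns_pm (h : Qd K d) (h3 : d ≠ -3) {x : (𝓞 K)ˣ} (hx : x ∈ torsion K) :
    x = 1 ∨ x = -1 := by
  obtain ⟨-, β, hβ, hb⟩ := h.basis
  obtain ⟨a, b, hab⟩ := hb (x : 𝓞 K)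
  obtain ⟨φ⟩ : Nonempty (K →+* ℂ) := inferInstance
  set ψ : 𝓞 K →+* ℂ := φ.comp (algebraMap (𝓞 K) K) with hψ
  have hinj : Function.Injective ψ := φ.injective.comp (IsFractionRing.injective (𝓞 K) K)
  have h1 : ‖ψ (x : 𝓞 K)‖ = 1 := (mem_torsion K).1 hx (InfinitePlace.mk φ)
  have h2 : (2 * ψ β - 1) ^ 2 = (d : ℂ) := by
    have := congrArg ψ hβ
    simpa [map_ofNat] using this
  have h4 : ψ (x : 𝓞 K) = a + b * ψ β := by rw [hab]; simp
  have h5 : Complex.normSq (ψ (x : 𝓞 K)) = 1 := by rw [Complex.normSq_eq_norm_sq, h1]; norm_num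
  have hre := congrArg Complex.re h2
  have him := congrArg Complex.im h2
  rw [h4, Complex.normSq_apply] at h5
  simp [pow_two] at hre him h5
  have key : (ψ (x : 𝓞 K)).im = 0 := by
    rw [h4]
    simp only [Complex.add_im, Complex.intCast_im, Complex.mul_im, Complex.intCast_re, zero_mul,
      add_zero, zero_add, mul_eq_zero]
    by_contra hc
    push Not at hc
    obtain ⟨hb0, hi0⟩ := hc
    have hr : 2 * (ψ β).re - 1 = 0 := by
      have : (2 * (ψ β).re - 1) * (ψ β).im = 0 := by linarith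
      exact (mul_eq_zero.1 this).resolve_right hi0
    have hr' : (ψ β).re = 1 / 2 := by linarith
    have hd : (d : ℝ) = -(4 * (ψ β).im ^ 2) := by rw [← hre, hr']; ring
    have h6 : ((2 * a + b : ℤ) : ℝ) ^ 2 - (b : ℝ) ^ 2 * d = 4 := by
      rw [hd]; push_cast; rw [hr'] at h5; linarith
    have h7 : (2 * a + b) ^ 2 - b ^ 2 * d = 4 := by exact_mod_cast h6
    have hd0 : d < 0 := by
      have : (d : ℝ) < 0 := by rw [hd]; have := pow_pos (abs_pos.2 hi0) 2; rw [sq_abs] at this; linarith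
      exact_mod_cast this
    have hm := h.m4
    have hd7 : d ≤ -7 := by omega
    have hb1 : b ≠ 0 := by exact_mod_cast hb0
    have hb2 : 1 ≤ b ^ 2 := by have := sq_pos_of_ne_zero hb1; omega
    nlinarith [sq_nonneg (2 * a + b)]
  have h8 : ψ (x : 𝓞 K) ^ 2 = 1 := by
    have e : ψ (x : 𝓞 K) = ((ψ (x : 𝓞 K)).re : ℂ) := Complex.ext (by simp) (by simp [key])
    rw [e, Complex.norm_real, Real.norm_eq_abs] at h1
    rw [e, ← Complex.ofReal_pow, ← sq_abs, h1]; simp
  have h9 : (x : 𝓞 K) ^ 2 = 1 := hinj (by rw [map_pow, h8, map_one])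
  rcases mul_self_eq_one_iff.1 ((pow_two _).symm.trans h9) with e | e
  · exact Or.inl (Units.ext e)
  · exact Or.inr (Units.ext e)

theorem Qd.torsion (h : Qd K d) (h3 : d ≠ -3) : torsionOrder K = 2 := by
  let := Fintype.ofFinite (Units.torsion K)
  rw [torsionOrder, Nat.card_eq_fintype_card]
  refine (Finset.card_eq_two.2 ⟨1, ⟨-1, neg_one_mem_torsion⟩,
    by simp [← Subtype.coe_ne_coe], Finset.ext fun x ↦ ⟨fun _ ↦ ?_, fun _ ↦ Finset.mem_univ _⟩⟩)
  rw [Finset.mem_insert, Finset.mem_singleton, ← Subtype.val_inj, ← Subtype.val_inj]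
  exact cns_pm h h3 x.2

theorem Qd.places_pos (h : Qd K d) (h0 : 0 < d) :
    InfinitePlace.nrRealPlaces K = 2 ∧ InfinitePlace.nrComplexPlaces K = 0 := by
  have h1 := InfinitePlace.card_add_two_mul_card_eq_rank K
  have h2 := sign_discr K
  rw [h.rank] at h1
  rw [h.basis.1, Int.sign_eq_one_of_pos h0] at h2
  have h3 : InfinitePlace.nrComplexPlaces K ≠ 1 := fun e => by rw [e] at h2; norm_num at h2
  omega

theorem Qd.places_neg (h : Qd K d) (h0 : d < 0) :
    InfinitePlace.nrRealPlaces K = 0 ∧ InfinitePlace.nrComplexPlaces K = 1 := by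
  have h1 := InfinitePlace.card_add_two_mul_card_eq_rank K
  have h2 := sign_discr K
  rw [h.rank] at h1
  rw [h.basis.1, Int.sign_eq_neg_one_of_neg h0] at h2
  have h3 : InfinitePlace.nrComplexPlaces K ≠ 0 := fun e => by rw [e] at h2; norm_num at h2
  omega

theorem Qd.res_pos (h : Qd K d) (h0 : 0 < d) :
    dedekindZeta_residue K = 2 * regulator K * classNumber K / √d := by
  obtain ⟨h1, h2⟩ := h.places_pos h0
  have h0' : (0 : ℝ) < d := by exact_mod_cast h0
  rw [dedekindZeta_residue_def, h1, h2, h.torsion (by omega), h.basis.1, abs_of_pos h0']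
  have : √(d : ℝ) ≠ 0 := Real.sqrt_ne_zero'.2 h0'
  push_cast
  field_simp

theorem cns_reg (h : Qd K d) (h0 : d < 0) : regulator K = 1 := by
  obtain ⟨h1, h2⟩ := h.places_neg h0
  have h3 : rank K = 0 := by
    rw [rank, InfinitePlace.card_eq_nrRealPlaces_add_nrComplexPlaces, h1, h2]
  have : IsEmpty (Fin (rank K)) := by rw [h3]; infer_instance
  have : IsEmpty {w : InfinitePlace K // w ≠ dirichletUnitTheorem.w₀} :=
    (equivFinRank K).symm.isEmpty
  rw [regulator_eq_det', Matrix.det_isEmpty, abs_one]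

theorem Qd.res_neg (h : Qd K d) (h0 : d < -3) :
    dedekindZeta_residue K = π * classNumber K / √(-d) := by
  obtain ⟨h1, h2⟩ := h.places_neg (by omega)
  have h0' : (d : ℝ) < 0 := by exact_mod_cast (by omega : d < 0)
  rw [dedekindZeta_residue_def, h1, h2, h.torsion (by omega), h.basis.1, abs_of_neg h0',
    cns_reg h (by omega)]
  have : √(-(d : ℝ)) ≠ 0 := Real.sqrt_ne_zero'.2 (by linarith)
  push_cast
  field_simp

/-- The fundamental unit. -/
theorem Qd.fund (h : Qd K d) (h0 : 0 < d) (ι : K →+* ℂ) : ∃ ε : (𝓞 K)ˣ,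
    log ‖ι (ε : 𝓞 K)‖ = regulator K ∧ ∀ u : (𝓞 K)ˣ, ∃ k : ℤ, u = ε ^ k ∨ u = -ε ^ k := by
  obtain ⟨h1, h2⟩ := h.places_pos h0
  have hc : Fintype.card (InfinitePlace K) = 2 := by
    rw [InfinitePlace.card_eq_nrRealPlaces_add_nrComplexPlaces, h1, h2]
  have h3 : Units.rank K = 1 := by rw [Units.rank, hc]
  obtain ⟨w', hw'⟩ := Fintype.exists_ne_of_one_lt_card (by omega) (InfinitePlace.mk ι)
  have hc' : Fintype.card {w : InfinitePlace K // w ≠ w'} = 1 := by
    rw [Fintype.card_subtype_compl, Fintype.card_subtype_eq, hc]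
  have hs : Subsingleton {w : InfinitePlace K // w ≠ w'} :=
    Fintype.card_le_one_iff_subsingleton.1 hc'.le
  have hs' : Subsingleton (Fin (Units.rank K)) := by rw [h3]; infer_instance
  let e : {w : InfinitePlace K // w ≠ w'} ≃ Fin (Units.rank K) :=
    Fintype.equivOfCardEq (by rw [hc', Fintype.card_fin, h3])
  let w : {w : InfinitePlace K // w ≠ w'} := ⟨InfinitePlace.mk ι, hw'.symm⟩
  have : IsTotallyReal K := nrComplexPlaces_eq_zero_iff.1 h2
  have hreg : regulator K = |log ‖ι (fundSystem K (e w) : 𝓞 K)‖| := by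
    rw [regulator_eq_det K w' e, Matrix.det_eq_elem_of_subsingleton _ w, Matrix.of_apply,
      (IsTotallyReal.isReal w.1).mult_eq_one, Nat.cast_one, one_mul]
    rfl
  have hu : ∀ u : (𝓞 K)ˣ, ∃ k : ℤ, u = fundSystem K (e w) ^ k ∨ u = -fundSystem K (e w) ^ k := by
    intro u
    obtain ⟨⟨ζ, f⟩, hf, -⟩ := exist_unique_eq_mul_prod K u
    refine ⟨f (e w), ?_⟩
    rw [Fintype.prod_subsingleton _ (e w)] at hf
    rcases cns_pm h (by omega) ζ.2 with hz | hz
    · left; rw [hf]; simp only [hz, one_mul]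
    · right; rw [hf]; simp only [hz, neg_mul, one_mul]
  rcases le_total 0 (log ‖ι (fundSystem K (e w) : 𝓞 K)‖) with hp | hp
  · exact ⟨_, by rw [hreg, abs_of_nonneg hp], hu⟩
  · refine ⟨(fundSystem K (e w))⁻¹, ?_, fun u => ?_⟩
    · rw [hreg, abs_of_nonpos hp, ← log_inv, ← norm_inv, ← map_inv₀]
      congr 3
      simp
    · obtain ⟨k, hk⟩ := hu u
      exact ⟨-k, by simpa using hk⟩

end Pool.Agent.H3.T
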