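import Pool.Agent.Lib.MP_23455a_nt.H3.D0b

/-! The quadratic twist, and the statements of duality for twisted modules. -/

set_option autoImplicit false
set_option linter.unusedSectionVars false

open scoped NNReal Classical
open Filter Topology Finset NumberTheorySymbols

namespace Pool.Agent.H3.T
open Pool.Agent.Lib.MP_696deb_nt.B2

/-- The data of the twist: an imaginary quadratic field of discriminant `-m` in which three is
inert, and an element that moves this field and acts trivially in the untwisted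
representations. -/
class TwD where
  m : ℕ
  γ : Gam
  pos : 0 < m
  m3 : m % 3 = 1
  out : γ ∉ GK m
  rho : ∀ (ε : ZMod (3 ^ 1)) (R : H3.Rp ε), R.ρ γ = 1

variable [TwD]

/-- The group of the field of the twist. -/
noncomputable def GM : Subgroup Gam := GK TwD.m

/-- The element that acts by `-1`. -/
noncomputable def ga : Gam := TwD.γ

/-- The character of the twist. -/
noncomputable def sg (g : Gam) : ℤ := chi (-TwD.m) g

/-- The part of the inertia group on which the character of the twist is trivial. -/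
noncomputable def Inm (w : Plc) : Subgroup Gam := Ine w ⊓ GM

theorem op_GM : Op GM := op_GK _

theorem normal_GM : GM.Normal := normal_GK _

theorem mul_mem_GM {g h : Gam} (hg : g ∉ GM) (hh : h ∉ GM) : g * h ∈ GM := mul_mem_GK hg hh

theorem cc_GM : cc ∉ GM := cc_notMem TwD.pos

theorem ga_GM : ga ∉ GM := TwD.out

theorem gc_GM : ga * cc ∈ GM := mul_mem_GM ga_GM cc_GM

theorem sg_mul (g h : Gam) : sg (g * h) = sg g * sg h := by simp [sg]

theorem sg_one : sg 1 = 1 := by simp [sg]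

theorem sg_of_mem {g : Gam} (h : g ∈ GM) : sg g = 1 := by
  rw [sg, B4c_mem.1 h, Units.val_one]

theorem sg_of_notMem {g : Gam} (h : g ∉ GM) : sg g = -1 := by
  rw [sg, B4c_notMem.1 h, Units.val_neg, Units.val_one]

theorem sg_or (g : Gam) : sg g = 1 ∨ sg g = -1 :=
  (em (g ∈ GM)).imp sg_of_mem sg_of_notMem

theorem mem_GM {g : Gam} : g ∈ GM ↔ sg g = 1 :=
  ⟨sg_of_mem, fun h => by_contra fun k => by rw [sg_of_notMem k] at h; norm_num at h⟩

theorem sg_sq (g : Gam) : sg g * sg g = 1 := by rcases sg_or g with h | h <;> simp [h]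

theorem sg_inv (g : Gam) : sg g⁻¹ = sg g := by
  by_cases h : g ∈ GM
  · rw [sg_of_mem h, sg_of_mem (inv_mem h)]
  · rw [sg_of_notMem h, sg_of_notMem fun k => h (inv_mem_iff.1 k)]

theorem sg_cc : sg cc = -1 := sg_of_notMem cc_GM

theorem sg_ga : sg ga = -1 := sg_of_notMem ga_GM

theorem sm_sg {H : Subgroup Gam} : Sm H sg := (sm_chi _).comp fun x : ℤˣ => (x : ℤ)

theorem tc_GM {H : Subgroup Gam} (h : H ≤ GM) : TC H := tc_of_le TwD.pos h

theorem cyc_ga : cyc ga = 1 := by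
  have := congrArg Matrix.det (TwD.rho _ (H3.rpK 1))
  rwa [(H3.rpK 1).det, Matrix.det_one] at this

theorem cy_ga (m : ℕ) : cy m ga = 1 := by rw [cy, cyc_ga, map_one]

theorem kk_ga : kk ga = 0 := by
  have := congrFun (congrFun (TwD.rho _ (H3.rpK 1)) 0) 1
  simpa [H3.rpK_apply, ga] using this

theorem km_ga (m : ℕ) : km m ga = 0 := by rw [km, kk_ga, map_zero]

theorem Inm_le (w : Plc) : Inm w ≤ Ine w := inf_le_left

theorem Inm_le_GM (w : Plc) : Inm w ≤ GM := inf_le_right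

theorem mem_Inm {w : Plc} {g : Gam} : g ∈ Inm w ↔ g ∈ Ine w ∧ g ∈ GM := Iff.rfl

theorem Inm_eq {w : Plc} (h : Ine w ≤ GM) : Inm w = Ine w := inf_eq_left.2 h

theorem conj_GM {g : Gam} (t : Gam) (h : g ∈ GM) : t⁻¹ * g * t ∈ GM := by
  simpa using normal_GM.conj_mem g h t⁻¹

/-- Three is unramified in the field of the twist. -/
theorem ine3_GM {w : Plc} (hw : w.p = 3) : Ine w ≤ GM := fun g hg => B4c_mem.2 (chi_ine (by
  have := TwD.m3
  rw [hw]
  omega) hg)

/-- Three is inert in the field of the twist. -/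
theorem frob3_GM {w : Plc} {φ : Gam} (hw : w.p = 3) (hφ : IsFrob w 3 φ) : φ ∉ GM := fun h => by
  have h3 := TwD.m3
  have h1 := chi_frob (a := -TwD.m) (w := w) (φ := φ) (by rw [hw]; omega) (hw ▸ hφ)
  rw [B4c_mem.1 h, hw, jacobiSym.mod_left, show (-TwD.m : ℤ) % (3 : ℕ) = 2 by omega] at h1
  norm_num at h1

section

variable {M M' : Type} [AddCommGroup M] [AddCommGroup M']

/-- An action of `H` that factors through a finite three-group on the elements that fix the cube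
roots of unity and the field of the twist. -/
structure Act (H : Subgroup Gam) (a : Gam → M →+ M) : Prop where
  sm : Sm H a
  one : ∀ x, a 1 x = x
  mul : ∀ g ∈ H, ∀ h ∈ H, ∀ x, a (g * h) x = a g (a h x)
  three : ∀ g ∈ H, g ∈ GK 3 → g ∈ GM → ∃ n : ℕ, ∀ x, a (g ^ 3 ^ n) x = x

/-- Smooth one-cocycles on `H`. -/
def Coc (H : Subgroup Gam) (a : Gam → M →+ M) (c : Gam → M) : Prop :=
  Sm H c ∧ ∀ g ∈ H, ∀ h ∈ H, c (g * h) = c g + a g (c h)

theorem Coc.zero (H : Subgroup Gam) (a : Gam → M →+ M) : Coc H a 0 :=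
  ⟨⟨⊤, isOpen_univ, inferInstance, fun _ _ _ _ _ => rfl⟩, by simp⟩

theorem Coc.add {H : Subgroup Gam} {a : Gam → M →+ M} {c c' : Gam → M} (h : Coc H a c)
    (h' : Coc H a c') : Coc H a (c + c') := by
  obtain ⟨⟨U, u1, u2, u3⟩, h⟩ := h
  obtain ⟨⟨V, v1, v2, v3⟩, h'⟩ := h'
  refine ⟨⟨U ⊓ V, u1.inter v1, inferInstance, fun g hg k hk e => ?_⟩, fun g hg k hk => ?_⟩
  · rw [Pi.add_apply, Pi.add_apply, u3 g hg k hk e.1, v3 g hg k hk e.2]
  · simp only [Pi.add_apply, h g hg k hk, h' g hg k hk, map_add]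
    abel

theorem Coc.neg {H : Subgroup Gam} {a : Gam → M →+ M} {c : Gam → M} (h : Coc H a c) :
    Coc H a (-c) := by
  obtain ⟨⟨U, u1, u2, u3⟩, h⟩ := h
  refine ⟨⟨U, u1, u2, fun g hg k hk e => ?_⟩, fun g hg k hk => ?_⟩
  · rw [Pi.neg_apply, Pi.neg_apply, u3 g hg k hk e]
  · simp only [Pi.neg_apply, h g hg k hk, map_neg]
    abel

/-- The group of cocycles, normalised to vanish outside of `H`. -/
def Z1 (H : Subgroup Gam) (a : Gam → M →+ M) : AddSubgroup (Gam → M) where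
  carrier := {c | Coc H a c ∧ ∀ g ∉ H, c g = 0}
  zero_mem' := ⟨Coc.zero H a, fun _ _ => rfl⟩
  add_mem' := fun h h' => ⟨h.1.add h'.1, fun g hg => by
    rw [Pi.add_apply, h.2 g hg, h'.2 g hg, add_zero]⟩
  neg_mem' := fun h => ⟨h.1.neg, fun g hg => by rw [Pi.neg_apply, h.2 g hg, neg_zero]⟩

/-- Two modules in duality with values in the roots of unity of order `3 ^ m`. -/
structure Dual (m : ℕ) (H : Subgroup Gam) (a : Gam → M →+ M) (a' : Gam → M' →+ M')
    (b : M →+ M' →+ ZMod (3 ^ m)) : Prop where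
  act : Act H a
  act' : Act H a'
  eqv : ∀ g ∈ H, ∀ x y, b (a g x) (a' g y) = cy m g * b x y
  left : ∀ x, (∀ y, b x y = 0) → x = 0
  right : ∀ y, (∀ x, b x y = 0) → y = 0

/-- The cocycles that are unramified away from `s`. -/
def Zu (H : Subgroup Gam) (a : Gam → M →+ M) (s : Finset Plc) : AddSubgroup (Gam → M) where
  carrier := {c | c ∈ Z1 H a ∧ ∀ w, Away H s w → ∀ σ ∈ H ⊓ Inm w, c σ = 0}
  zero_mem' := ⟨zero_mem _, fun _ _ _ _ => rfl⟩
  add_mem' := fun h h' => ⟨add_mem h.1 h'.1, fun w hw σ hσ => by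
    simp [h.2 w hw σ hσ, h'.2 w hw σ hσ]⟩
  neg_mem' := fun h => ⟨neg_mem h.1, fun w hw σ hσ => by simp [h.2 w hw σ hσ]⟩

theorem mem_Zu {H : Subgroup Gam} {a : Gam → M →+ M} {s : Finset Plc} {c : Gam → M} :
    c ∈ Zu H a s ↔ c ∈ Z1 H a ∧ ∀ w, Away H s w → ∀ σ ∈ H ⊓ Inm w, c σ = 0 := Iff.rfl

/-- Away from `s` no place lies above three and inertia acts trivially. -/
def GoodA (H : Subgroup Gam) (a : Gam → M →+ M) (s : Finset Plc) : Prop :=
  ∀ w, Away H s w → w.p ≠ 3 ∧ ∀ σ ∈ H ⊓ Inm w, ∀ x, a σ x = x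

end

/-- Local duality. -/
def LDStmt (F : CFT) : Prop := ∀ (m : ℕ) (H : Subgroup Gam) (w : Plc) (M M' : Type)
  [AddCommGroup M] [AddCommGroup M'] [Finite M] [Finite M'] (a : Gam → M →+ M)
  (a' : Gam → M' →+ M') (b : M →+ M' →+ ZMod (3 ^ m)), Op H → H.Normal →
  Dual m (H ⊓ Dec w) a a' b → Finite (Z1 (H ⊓ Dec w) a) ∧ ∀ c, Coc (H ⊓ Dec w) a c →
    (∀ c', Coc (H ⊓ Dec w) a' c' → F.inv m H w (cupb b a' c c') = 0) → IsCob (H ⊓ Dec w) a c

/-- Global duality. -/
def PTStmt (F : CFT) : Prop := ∀ (m : ℕ) (H : Subgroup Gam) (M M' : Type)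
  [AddCommGroup M] [AddCommGroup M'] [Finite M] [Finite M'] (a : Gam → M →+ M)
  (a' : Gam → M' →+ M') (b : M →+ M' →+ ZMod (3 ^ m)) (s : Finset Plc), Op H → H.Normal →
  Dual m H a a' b → Apart H s → GoodA H a s → Finite (Zu H a s) ∧ ∀ x : Plc → Gam → M,
    (∀ w ∈ s, Coc (H ⊓ Dec w) a (x w)) →
    (∀ c' ∈ Zu H a' s, ∑ w ∈ s, F.inv m H w (cupb b a' (x w) c') = 0) →
    ∃ c ∈ Zu H a s, ∀ w ∈ s, IsCob (H ⊓ Dec w) a (c - x w)

end Pool.Agent.H3.T
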